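import Pool.Agent.Q123.FDP.Stmts

set_option autoImplicit false

/-!
Assembly.
-/

namespace Pool.Agent.Q123.FDP

open Finset Pool.Agent.Q123.KB Pool.Agent.H677R3.EdgeReg

theorem fi_all (tCone : TaskCone) (tR0 : TaskR0) (tNeg : TaskNeg) (tEnds : TaskEnds)
    (tBC : TaskBlockCone) (tSusp : TaskSusp) (tB2 : TaskBlock2) (tB1 : TaskBlock1)
    (tCC : TaskCrossCone) (tC : TaskCross) (hM : ∀ k b, FI (Mf k b)) (hN : ∀ k b, FI (Nf k b))
    (h ℓ : ℕ) (hh : 2 ≤ h) (hl : ℓ < h) (b : Fin 8 →₀ ℕ) : FI (fam (PP h ℓ) b) := by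
  by_cases h0 : b 0 + b 1 < ℓ * (2 * h - 1)
  · exact tNeg h ℓ b h0
  by_cases h1 : ℓ * (2 * h - 1) < b 1
  · exact tEnds tCone h ℓ hh b (Or.inr (Or.inl h1))
  obtain ⟨lo, hlo⟩ : ∃ lo, lo + b 1 = ℓ * (2 * h - 1) := ⟨ℓ * (2 * h - 1) - b 1, by omega⟩
  by_cases h2 : ∀ u, ¬ LL h ℓ (b 0) u
  · exact tEnds tCone h ℓ hh b (Or.inl h2)
  by_cases h3 : ∀ u, ¬ LL h ℓ lo u
  · exact tEnds tCone h ℓ hh b (Or.inr (Or.inr ⟨lo, hlo, h3⟩))
  push Not at h2 h3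
  obtain ⟨_, k', j', hk', hj', e', -⟩ := h2
  obtain ⟨_, k, j, hk, hj, e, -⟩ := h3
  rcases (show lo ≤ b 0 by omega).eq_or_lt with h4 | h4
  · exact tR0 h ℓ hl b (by omega) hM hN
  have hs : 2 * ℓ < 2 * h - 1 := by omega
  rcases lt_trichotomy k k' with h5 | h5 | h5
  · by_cases h6 : j = 2 * (ℓ - k) ∧ k' = k + 1 ∧ j' = 0
    · obtain ⟨rfl, rfl, rfl⟩ := h6
      exact tC tSusp hM h ℓ k hl hk' b (by rw [e', add_zero]) (by omega)
    · exact tCC tCone h ℓ k k' j j' hl h5 hk' hj hj' b e' (by omega) h6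
  · subst h5
    have h6 : j < j' := by omega
    rcases Nat.lt_or_ge j' (j + 3) with h7 | h7
    · by_cases h8 : j' = j + 1
      · subst h8
        exact tB1 tSusp hN h ℓ k j hl hk hj' b e' (by omega)
      · have h9 : j' = j + 2 := by omega
        by_cases h10 : j % 2 = 0
        · subst h9
          exact tB2 tCone tSusp hN hM h ℓ k j hl hk hj' b e' (by omega) h10
        · exact tBC tCone h ℓ k j j' hl hk h6 hj' b e' (by omega) (Or.inr ⟨h9.symm, by omega⟩)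
    · exact tBC tCone h ℓ k j j' hl hk h6 hj' b e' (by omega) (Or.inl h7)
  · exfalso
    have h6 : (k' + 1) * (2 * h - 1) ≤ k * (2 * h - 1) := Nat.mul_le_mul_right _ h5
    rw [Nat.succ_mul] at h6
    omega

theorem down_of_mono {n : ℕ} {P : (Fin n → ℕ) → Prop}
    (hP : ∀ u w : Fin n → ℕ, (∀ v, u v ≤ w v) → P u → P w) (b : Fin n →₀ ℕ) : Down (fam P b) := by
  intro T j h
  rw [mem_fam] at h ⊢
  have h0 : ind T ≤ ind (insert j T) := by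
    intro v
    rw [ind_apply, ind_apply]
    by_cases hv : v ∈ T
    · rw [if_pos hv, if_pos (Finset.mem_insert_of_mem hv)]
    · rw [if_neg hv]; exact Nat.zero_le _
  refine ⟨h0.trans h.1, hP _ _ (fun v => ?_) h.2⟩
  rw [Finsupp.tsub_apply, Finsupp.tsub_apply]
  exact Nat.sub_le_sub_left (h0 v) _

theorem mem_pow' (tA : TaskPowA) (tB : TaskPowB) {K : Type} [Field K] {h : ℕ} (hh : 2 ≤ h) (ℓ : ℕ)
    (p : MvPolynomial (Fin 8) K) :
    p ∈ monIdeal K (gens h : Set (Fin 8 →₀ ℕ)) ^ ℓ ↔ ∀ c ∈ p.support, PP h ℓ ⇑c := by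
  rw [pow_eq, mem_monIdeal]
  refine forall₂_congr fun c _ => ?_
  constructor
  · intro h1; exact tA h ℓ hh _ h1
  · intro h1; exact tB h ℓ hh _ h1

theorem comb_cone {n : ℕ} {K : Type} [Field K] {F : Finset (Finset (Fin n))} {v : Fin n}
    (hv : ∀ T ∈ F, insert v T ∈ F) (i : ℕ) : combBetti K F i = 0 :=
  combBetti_eq_zero fun a ha => cone_bd ha v fun T hT _ => hv T (ha.1 T hT).1

theorem dep_all (tA : TaskPowA) (tB : TaskPowB) (tMono : TaskMono) (tDep : TaskDep)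
    (tQ : TaskRPQ) (t2 : TaskRP2) (tFin : TaskFin) (tSF : TaskSumsFin) (tTot : TaskTot)
    (h ℓ : ℕ) (hh : 2 ≤ h) (hl : h ≤ ℓ) :
    betti (monIdeal ℚ (gens h : Set (Fin 8 →₀ ℕ)) ^ ℓ) 3 ≠
      betti (monIdeal (ZMod 2) (gens h : Set (Fin 8 →₀ ℕ)) ^ ℓ) 3 := by
  obtain ⟨s, hs⟩ := tFin 8 _ (tSF 8 _ (gens h).finite_toSet ℓ)
  have hfam : ∀ b, fam (Above (sums (gens h : Set (Fin 8 →₀ ℕ)) ℓ)) b = fam (PP h ℓ) b := by
    intro b
    congr 1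
    ext u
    exact ⟨tA h ℓ hh u, tB h ℓ hh u⟩
  have hz : ∀ (K : Type) [Field K], ∀ b ∉ s, combBetti K (fam (PP h ℓ) b) 3 = 0 := by
    intro K _ b hb
    obtain ⟨v, hv⟩ := hs b hb
    rw [hfam] at hv
    exact comb_cone hv 3
  have hg : ∀ (K : Type) [Field K] (b), gradedBetti (monIdeal K (gens h : Set (Fin 8 →₀ ℕ)) ^ ℓ) 3 b =
      combBetti K (fam (PP h ℓ) b) 3 := fun K _ b => gradedBetti_eq (mem_pow' tA tB hh ℓ) 3 b
  have ht : ∀ (K : Type) [Field K], betti (monIdeal K (gens h : Set (Fin 8 →₀ ℕ)) ^ ℓ) 3 =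
      ((∑ b ∈ s, combBetti K (fam (PP h ℓ) b) 3 : ℕ) : ℕ∞) := by
    intro K _
    rw [tTot 8 K _ 3 s fun b hb => by rw [hg]; exact hz K b hb]
    congr 1
    exact Finset.sum_congr rfl fun b _ => hg K b
  rw [ht ℚ, ht (ZMod 2)]
  intro heq
  have heq' := Nat.cast_injective (R := ℕ∞) heq
  have hlt : ∑ b ∈ s, combBetti ℚ (fam (PP h ℓ) b) 3 < ∑ b ∈ s, combBetti (ZMod 2) (fam (PP h ℓ) b) 3 := by
    refine Finset.sum_lt_sum (fun b _ => comb_ge (down_of_mono (tMono h ℓ) b) 3) ⟨b0 h ℓ, ?_, ?_⟩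
    · by_contra hb
      have h1 := hz (ZMod 2) _ hb
      rw [tDep h ℓ hh hl] at h1
      have h2 : 1 ≤ combBetti (ZMod 2) RPf 3 := t2
      omega
    · rw [tDep h ℓ hh hl]
      have h2 : 1 ≤ combBetti (ZMod 2) RPf 3 := t2
      have h3 : combBetti ℚ RPf 3 = 0 := tQ
      omega
  omega

theorem final (tA : TaskPowA) (tB : TaskPowB) (tMono : TaskMono) (tCone : TaskCone)
    (tSusp : TaskSusp) (tCert : TaskCert) (tMob : TaskMob) (tNf : TaskNf) (tMf : TaskMf)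
    (tR0 : TaskR0) (tNeg : TaskNeg) (tEnds : TaskEnds) (tBC : TaskBlockCone) (tB2 : TaskBlock2)
    (tB1 : TaskBlock1) (tCC : TaskCrossCone) (tC : TaskCross) (tDep : TaskDep)
    (tQ : TaskRPQ) (t2 : TaskRP2) (tFin : TaskFin) (tSF : TaskSumsFin) (tTot : TaskTot) :
    ∀ h : ℕ, 1 ≤ h → ∃ (n : ℕ) (A : Finset (Fin n →₀ ℕ)),
      (∀ ℓ, 1 ≤ ℓ → ℓ < h → ∀ (K K' : Type) [Field K] [Field K'] (i : ℕ),
        betti (monIdeal K (A : Set (Fin n →₀ ℕ)) ^ ℓ) i = betti (monIdeal K' (A : Set (Fin n →₀ ℕ)) ^ ℓ) i ∧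
        ∀ b : Fin n →₀ ℕ, gradedBetti (monIdeal K (A : Set (Fin n →₀ ℕ)) ^ ℓ) i b =
          gradedBetti (monIdeal K' (A : Set (Fin n →₀ ℕ)) ^ ℓ) i b) ∧
      (∀ ℓ, h ≤ ℓ → ∃ i, betti (monIdeal ℚ (A : Set (Fin n →₀ ℕ)) ^ ℓ) i ≠
        betti (monIdeal (ZMod 2) (A : Set (Fin n →₀ ℕ)) ^ ℓ) i) := by
  intro h h1
  rcases h1.eq_or_lt with rfl | h2
  · refine ⟨8, RP.gens, fun ℓ h3 h4 => absurd h4 (by omega), fun ℓ hl => ⟨5, ?_⟩⟩
    rw [RP.betti_zero (K := ℚ) (by norm_num) hl, RP.betti_two hl]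
    intro h3
    have h4 := Nat.cast_injective (R := ℕ∞) (h3.symm.trans (Nat.cast_zero).symm)
    omega
  · have hMob := tMob tCert
    have hM := tMf tCone
    have hN := tNf tCone hMob
    have hfi : ∀ ℓ, ℓ < h → ∀ b, FI (fam (PP h ℓ) b) := fun ℓ hl b =>
      fi_all tCone tR0 tNeg tEnds tBC tSusp tB2 tB1 tCC tC hM hN h ℓ h2 hl b
    have hgr : ∀ ℓ, ℓ < h → ∀ (K K' : Type) [Field K] [Field K'] (i : ℕ) (b : Fin 8 →₀ ℕ),
        gradedBetti (monIdeal K (gens h : Set (Fin 8 →₀ ℕ)) ^ ℓ) i b =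
          gradedBetti (monIdeal K' (gens h : Set (Fin 8 →₀ ℕ)) ^ ℓ) i b := by
      intro ℓ hl K K' _ _ i b
      rw [gradedBetti_eq (mem_pow' tA tB h2 ℓ), gradedBetti_eq (mem_pow' tA tB h2 ℓ)]
      exact hfi ℓ hl b K K' i
    refine ⟨8, gens h, fun ℓ _ hl K K' _ _ i => ⟨?_, hgr ℓ hl K K' i⟩, fun ℓ hl => ⟨3, ?_⟩⟩
    · unfold betti
      refine iSup_congr fun s => Finset.sum_congr rfl fun b _ => ?_
      rw [hgr ℓ hl K K' i b]
    · exact dep_all tA tB tMono tDep tQ t2 tFin tSF tTot h ℓ h2 hl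

end Pool.Agent.Q123.FDP
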