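import Pool.Agent.Q123.KB.Kod3
import Pool.Agent.Q123.KB.Rank

set_option autoImplicit false

/-!
Monomial ideals whose powers have field-independent Betti numbers exactly below `h`.

The ideal: variables `z = x_0`, `t = x_1`, `x_2, …, x_7`; `s = 2h - 1`, `m = x_2x_3x_4`, `G1` the other nine
generators of Reisner's ideal `J`; `A = (t^s, z^2 t^(s-2), z t^(s-1) g (g ∈ G1), z^s m)`.
Library: `Pool/Agent/Q123/KB/{Defs,Kod,Rank}.lean` (`combBetti`, `cone_bd`, `combBetti_eq_zero`, `comb_add`,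
`rk_le`, `comb_ge`, `bd_le`, `rk_add_cycles`), `Pool/Agent/H677R3/RegComb.lean` (`cd`, `sg`, `hv`, `homotopy`).
`combBetti K F i` is the homology of the family `F` at the sets with `i` elements.
-/

namespace Pool.Agent.Q123.FDP

open Finset Pool.Agent.Q123.KB Pool.Agent.H677R3.EdgeReg

/-- the homology of the family does not depend on the field -/
def FI {n : ℕ} (F : Finset (Finset (Fin n))) : Prop :=
  ∀ (K K' : Type) [Field K] [Field K'] (i : ℕ), combBetti K F i = combBetti K' F i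

/-- link of a vertex -/
def lk {n : ℕ} (v : Fin n) (F : Finset (Finset (Fin n))) : Finset (Finset (Fin n)) :=
  univ.filter fun T => v ∉ T ∧ insert v T ∈ F

/-- the support of `m` -/
def mm : Finset (Fin 8) := {2, 3, 4}

/-- nine generators of Reisner's ideal -/
def G1 : List (Finset (Fin 8)) :=
  [{2, 3, 5}, {2, 4, 6}, {2, 5, 7}, {2, 6, 7}, {3, 4, 7}, {3, 5, 6}, {3, 6, 7}, {4, 5, 6}, {4, 5, 7}]

/-- exponents in `m^k` -/
def M (k : ℕ) (u : Fin 8 → ℕ) : Prop := ∀ v ∈ mm, k ≤ u v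

/-- exponents in `m^k J1` -/
def N (k : ℕ) (u : Fin 8 → ℕ) : Prop :=
  ∃ g ∈ G1, ∀ v : Fin 8, (if v ∈ mm then k else 0) + (if v ∈ g then 1 else 0) ≤ u v

/-- the part of the power `ℓ` at `z^e t^(ℓ s - e)` -/
def LL (h ℓ e : ℕ) (u : Fin 8 → ℕ) : Prop :=
  ∃ k j, k ≤ ℓ ∧ j ≤ 2 * (ℓ - k) ∧ e = k * (2 * h - 1) + j ∧ ((j % 2 = 0 ∧ M k u) ∨ N k u)

/-- the exponents of the monomials of the power `ℓ` -/
def PP (h ℓ : ℕ) (u : Fin 8 → ℕ) : Prop :=
  ∃ e, e ≤ u 0 ∧ ℓ * (2 * h - 1) ≤ u 1 + e ∧ LL h ℓ e u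

/-- the exponents of the generators -/
noncomputable def gens (h : ℕ) : Finset (Fin 8 →₀ ℕ) :=
  {Finsupp.single 1 (2 * h - 1), Finsupp.single 0 2 + Finsupp.single 1 (2 * h - 3),
    Finsupp.single 0 (2 * h - 1) + ind mm} ∪
  (G1.toFinset.image fun g => Finsupp.single 0 1 + Finsupp.single 1 (2 * h - 2) + ind g)

/-- the old variables -/
def X6 : Finset (Fin 8) := {2, 3, 4, 5, 6, 7}

open Classical in
/-- upper Koszul complex of `m^k` in the six variables -/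
noncomputable def Mf (k : ℕ) (b : Fin 8 →₀ ℕ) : Finset (Finset (Fin 8)) :=
  univ.filter fun T => T ⊆ X6 ∧ ind T ≤ b ∧ M k ⇑(b - ind T)

open Classical in
/-- upper Koszul complex of `m^k J1` in the six variables -/
noncomputable def Nf (k : ℕ) (b : Fin 8 →₀ ℕ) : Finset (Finset (Fin 8)) :=
  univ.filter fun T => T ⊆ X6 ∧ ind T ≤ b ∧ N k ⇑(b - ind T)

/-- upper Koszul complex of `J1` in the squarefree degree `W` -/
def Hf (W : Finset (Fin 8)) : Finset (Finset (Fin 8)) :=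
  W.powerset.filter fun T => ∃ g ∈ G1, g ⊆ W \ T

/-- the projective plane: sets disjoint from a generator of Reisner's ideal -/
def RPf : Finset (Finset (Fin 8)) :=
  X6.powerset.filter fun T => ∃ g ∈ (mm :: G1), Disjoint g T

/-! ### the tasks -/

/-- Induction on `ℓ` (`sums` is in `KB/Kod.lean`; compare `above_sums` there). (→): adding a generator changes
`(k, j)` to `(k, j)`, `(k, j+2)`, `(k, j+1)` or `(k+1, j)`. (←): `k` copies of `z^s m`; `j` even: `j/2` copies of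
`z^2 t^(s-2)`; `j` odd: one `z t^(s-1) g`, `(j-1)/2` copies of `z^2 t^(s-2)`; the rest `t^s`. May be split in two. -/
def TaskPowA : Prop := ∀ (h ℓ : ℕ), 2 ≤ h → ∀ u : Fin 8 → ℕ,
  Above (sums ((gens h : Finset (Fin 8 →₀ ℕ)) : Set (Fin 8 →₀ ℕ)) ℓ) u → PP h ℓ u

/-- see `TaskPowA`. -/
def TaskPowB : Prop := ∀ (h ℓ : ℕ), 2 ≤ h → ∀ u : Fin 8 → ℕ,
  PP h ℓ u → Above (sums ((gens h : Finset (Fin 8 →₀ ℕ)) : Set (Fin 8 →₀ ℕ)) ℓ) u

/-- `PP` is monotone. -/
def TaskMono : Prop := ∀ (h ℓ : ℕ) (u w : Fin 8 → ℕ), (∀ v, u v ≤ w v) → PP h ℓ u → PP h ℓ w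

/-- A cone has no homology: `combBetti_eq_zero`, `cone_bd`. -/
def TaskCone : Prop := ∀ (n : ℕ) (F : Finset (Finset (Fin n))) (v : Fin n),
  (∀ T ∈ F, insert v T ∈ F) → FI F

/-- If the members of `F` without `v` form a cone with apex `w` then the homology of `F` is that of the link of `v`,
shifted by one: `combBetti K F (i+1) = combBetti K (lk v F) i` and `combBetti K F 0 = 0`. (Via ranks: `comb_add`; or
the map `a ↦ (T ↦ a (insert v T))` on cycles, with `hv w` (a homotopy) for surjectivity and injectivity.) -/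
def TaskSusp : Prop := ∀ (n : ℕ) (F : Finset (Finset (Fin n))) (v w : Fin n), v ≠ w → Down F →
  (∀ T ∈ F, v ∉ T → insert w T ∈ F) → FI (lk v F) → FI F

/-- Matching certificate: a list of pairs `(σ, x)`, `x ∈ σ ∈ F`, such that `σ \ x` is not contained in the
LATER members `σ'` of the same size gives `rk K F i ≥` number of pairs with `|σ| = i` (triangular matrix with entries
`±1`: the vectors `cd (Pi.single σ 1)` are independent, evaluate at `σ \ x`). If these numbers `r_i` satisfy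
`cnt F i ≤ r_i + r_(i+1)` for all `i` except one then `rk K F i = r_i` for all `i` by `comb_add`, so `FI F`. -/
def TaskCert : Prop := ∀ (n : ℕ) (F : Finset (Finset (Fin n))) (L : List (Finset (Fin n) × Fin n)), Down F →
  (∀ p ∈ L, p.1 ∈ F ∧ p.2 ∈ p.1) →
  L.Pairwise (fun p q => p.1.card = q.1.card → ¬ p.1.erase p.2 ⊆ q.1) →
  (∃ i₀, ∀ i, i ≠ i₀ → cnt F i ≤ (L.filter fun p => p.1.card = i).length + (L.filter fun p => p.1.card = i + 1).length) →
  FI F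

/-- For all 64 sets `W ⊆ X6` the complex `Hf W` is field-independent: `W = X6` is a Möbius band, `|W| = 5` a path or a
cycle with five vertices, `|W| = 4` one or two points, `|W| = 3`: `{∅}` or nothing; find the certificates of
`TaskCert` by computer (greedy), check them with `decide +kernel`. -/
def TaskMob : Prop := TaskCert → ∀ W : Finset (Fin 8), W ⊆ X6 → FI (Hf W)

/-- `Nf k b`: if `b v < k` for some `v ∈ mm` it is empty. Otherwise put `c = b - k m`; if `c v ≥ 2` for some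
`v ∈ X6` it is a cone with apex `v`; otherwise it is `Hf W` with `W` the set of the `v ∈ X6` with `c v = 1`. -/
def TaskNf : Prop := TaskCone → (∀ W : Finset (Fin 8), W ⊆ X6 → FI (Hf W)) → ∀ k b, FI (Nf k b)

/-- `Mf k b` is empty, `{∅}` or a cone. For `{∅}`: `FI` since the rank of every boundary map is 0 (`comb_add`). -/
def TaskMf : Prop := TaskCone → ∀ k b, FI (Mf k b)

/-- lo = ℓ s - b 1 = b 0 -/
def TaskR0 : Prop := ∀ (h ℓ : ℕ), ℓ < h → ∀ b : Fin 8 →₀ ℕ, b 0 + b 1 = ℓ * (2 * h - 1) →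
  (∀ k b, FI (Mf k b)) → (∀ k b, FI (Nf k b)) → FI (fam (PP h ℓ) b)

/-- `lo > hi`: the family is empty. -/
def TaskNeg : Prop := ∀ (h ℓ : ℕ) (b : Fin 8 →₀ ℕ), b 0 + b 1 < ℓ * (2 * h - 1) → FI (fam (PP h ℓ) b)

/-- `LL h ℓ (b 0)` is empty: cone with apex 0 (if `PP h ℓ (b - T)`, `0 ∉ T`, the exponent `e` is not `b 0`).
`b 1 > ℓ s`: cone with apex 1. Let `lo = ℓ s - b 1`; `LL h ℓ lo` empty: cone with apex 1. -/
def TaskEnds : Prop := TaskCone → ∀ (h ℓ : ℕ), 2 ≤ h → ∀ b : Fin 8 →₀ ℕ,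
  ((∀ u, ¬ LL h ℓ (b 0) u) ∨ ℓ * (2 * h - 1) < b 1 ∨
    ∃ lo, lo + b 1 = ℓ * (2 * h - 1) ∧ ∀ u, ¬ LL h ℓ lo u) → FI (fam (PP h ℓ) b)

/-- Let `lo + b 1 = ℓ s`, `lo < hi = b 0`, both ends in the same block `k`: `lo = k s + j`, `hi = k s + j'`.
`j' - j ≥ 3`, or `j' - j = 2` and `j` odd: there is an even exponent strictly between: cone with apex 0 (`ℓ < h` makes
the blocks disjoint, so every `LL h ℓ e` with `lo ≤ e ≤ hi` implies `M k`). -/
def TaskBlockCone : Prop := TaskCone → ∀ (h ℓ k j j' : ℕ), ℓ < h → k ≤ ℓ → j < j' → j' ≤ 2 * (ℓ - k) →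
  ∀ b : Fin 8 →₀ ℕ, b 0 = k * (2 * h - 1) + j' → k * (2 * h - 1) + j + b 1 = ℓ * (2 * h - 1) →
  (j + 3 ≤ j' ∨ (j + 2 = j' ∧ j % 2 = 1)) → FI (fam (PP h ℓ) b)

/-- `j' = j + 2`, `j` even: the members without `1` are `G ∪ 0 * G` with `G = Mf k b`, the link of `1` is
`G ∪ 0 * H`, `H = Nf k b`: use `TaskSusp` (v = 1, w = 0) and then again (v = 0, w a cone vertex of `G`), or `G = {∅}`, `H = ∅`. -/
def TaskBlock2 : Prop := TaskCone → TaskSusp → (∀ k b, FI (Nf k b)) → (∀ k b, FI (Mf k b)) →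
  ∀ (h ℓ k j : ℕ), ℓ < h → k ≤ ℓ → j + 2 ≤ 2 * (ℓ - k) →
  ∀ b : Fin 8 →₀ ℕ, b 0 = k * (2 * h - 1) + (j + 2) → k * (2 * h - 1) + j + b 1 = ℓ * (2 * h - 1) →
  j % 2 = 0 → FI (fam (PP h ℓ) b)

/-- `j' = j + 1`: `G ∪ 0 * G ∪ 1 * H` (`j` even, `H = Nf k b`): `TaskSusp` with v = 1, w = 0; for `j` odd with 0 and 1
exchanged. -/
def TaskBlock1 : Prop := TaskSusp → (∀ k b, FI (Nf k b)) →
  ∀ (h ℓ k j : ℕ), ℓ < h → k ≤ ℓ → j + 1 ≤ 2 * (ℓ - k) →
  ∀ b : Fin 8 →₀ ℕ, b 0 = k * (2 * h - 1) + (j + 1) → k * (2 * h - 1) + j + b 1 = ℓ * (2 * h - 1) →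
  FI (fam (PP h ℓ) b)

/-- different blocks `k < k'`, but not (`j` the last of block `k`, `k' = k + 1`, `j' = 0`): cone with apex 0, since
some exponent strictly between gives `M k` (last of block `k`) or `M (k+1)` (first of block `k + 1`), which contains all of
`LL h ℓ (b 0)`. -/
def TaskCrossCone : Prop := TaskCone → ∀ (h ℓ k k' j j' : ℕ), ℓ < h → k < k' → k' ≤ ℓ → j ≤ 2 * (ℓ - k) →
  j' ≤ 2 * (ℓ - k') →
  ∀ b : Fin 8 →₀ ℕ, b 0 = k' * (2 * h - 1) + j' → k * (2 * h - 1) + j + b 1 = ℓ * (2 * h - 1) →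
  ¬ (j = 2 * (ℓ - k) ∧ k' = k + 1 ∧ j' = 0) → FI (fam (PP h ℓ) b)

/-- the remaining case: `G ∪ 0 * G ∪ 1 * H`, `G = Mf k b`, `H = Mf (k+1) b`. -/
def TaskCross : Prop := TaskSusp → (∀ k b, FI (Mf k b)) →
  ∀ (h ℓ k : ℕ), ℓ < h → k + 1 ≤ ℓ →
  ∀ b : Fin 8 →₀ ℕ, b 0 = (k + 1) * (2 * h - 1) →
  k * (2 * h - 1) + 2 * (ℓ - k) + b 1 = ℓ * (2 * h - 1) → FI (fam (PP h ℓ) b)

/-- the multidegree with the projective plane -/
noncomputable def b0 (h ℓ : ℕ) : Fin 8 →₀ ℕ :=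
  Finsupp.equivFunOnFinite.symm fun v =>
    if v = 0 then 2 * h - 1 else if v = 1 then (ℓ - 1) * (2 * h - 1) else 1

/-- `k = 0, j = 2h-1` gives `N 0`, `k = 1, j = 0` gives `M 1`; `k ≥ 2` is impossible. -/
def TaskDep : Prop := ∀ (h ℓ : ℕ), 2 ≤ h → h ≤ ℓ → fam (PP h ℓ) (b0 h ℓ) = RPf

/-- A cycle with coefficients in `ℚ` on the ten triangles is zero (compare `KB/RPEq.lean`). -/
def TaskRPQ : Prop := combBetti ℚ RPf 3 = 0

/-- The sum of the ten triangles is a cycle mod 2 (compare `cd_aa` in `KB/Kod3.lean`); there are no members with four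
elements: `one_le_combBetti`. -/
def TaskRP2 : Prop := 1 ≤ combBetti (ZMod 2) RPf 3

/-- If `b v` is larger than all exponents of `v` in `A` then the family is a cone with apex `v`. -/
def TaskFin : Prop := ∀ (n : ℕ) (A : Set (Fin n →₀ ℕ)), A.Finite →
  ∃ s : Finset (Fin n →₀ ℕ), ∀ b ∉ s, ∃ v, ∀ T ∈ fam (Above A) b, insert v T ∈ fam (Above A) b

/-- finite sums of finite sets -/
def TaskSumsFin : Prop := ∀ (n : ℕ) (A : Set (Fin n →₀ ℕ)), A.Finite → ∀ ℓ, (sums A ℓ).Finite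

/-- If `gradedBetti` vanishes outside `s` then `betti` is the sum over `s`. -/
def TaskTot : Prop := ∀ (n : ℕ) (K : Type) [Field K] (J : Ideal (MvPolynomial (Fin n) K)) (i : ℕ)
  (s : Finset (Fin n →₀ ℕ)), (∀ b ∉ s, gradedBetti J i b = 0) →
  betti J i = ((∑ b ∈ s, gradedBetti J i b : ℕ) : ℕ∞)

end Pool.Agent.Q123.FDP
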