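import Pool.Agent.Q123.FDP.Stmts

set_option autoImplicit false

namespace Pool.Agent.Q123.FDP.TBlock1

open Finset Pool.Agent.Q123.KB Pool.Agent.H677R3.EdgeReg Pool.Agent.Q123.FDP

theorem ev (b : Fin 8 →₀ ℕ) (T : Finset (Fin 8)) (v : Fin 8) :
    (b - ind T) v = b v - if v ∈ T then 1 else 0 := by
  rw [Finsupp.tsub_apply, ind_apply]

theorem le_iff' (b : Fin 8 →₀ ℕ) (T : Finset (Fin 8)) : ind T ≤ b ↔ ∀ v ∈ T, 1 ≤ b v := by
  constructor
  · intro h v hv
    have := h v
    rw [ind_apply, if_pos hv] at this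
    exact this
  · intro h v
    rw [ind_apply]
    split_ifs with hv
    · exact h v hv
    · exact Nat.zero_le _

set_option maxRecDepth 100000 in
theorem G1_mem : ∀ g ∈ G1, (0 : Fin 8) ∉ g ∧ (1 : Fin 8) ∉ g := by decide

theorem mm_mem : ∀ v ∈ mm, v ≠ 0 ∧ v ≠ 1 := by decide

theorem X6_mem : ∀ v : Fin 8, v ∈ X6 ↔ v ≠ 0 ∧ v ≠ 1 := by decide

theorem M_congr {k : ℕ} {u u' : Fin 8 → ℕ} (h : ∀ v, v ≠ 0 → v ≠ 1 → u v = u' v)
    (hM : M k u) : M k u' := by
  intro v hv
  rw [← h v (mm_mem v hv).1 (mm_mem v hv).2]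
  exact hM v hv

theorem N_congr {k : ℕ} {u u' : Fin 8 → ℕ} (h : ∀ v, v ≠ 0 → v ≠ 1 → u v = u' v)
    (hM : N k u) : N k u' := by
  obtain ⟨g, hg, H⟩ := hM
  refine ⟨g, hg, fun v => ?_⟩
  by_cases h0 : v = 0
  · have h1 : v ∉ g := by rw [h0]; exact (G1_mem g hg).1
    have h2 : v ∉ mm := fun h' => (mm_mem v h').1 h0
    rw [if_neg h1, if_neg h2]; exact Nat.zero_le _
  · by_cases h1' : v = 1
    · have h1 : v ∉ g := by rw [h1']; exact (G1_mem g hg).2
      have h2 : v ∉ mm := fun h' => (mm_mem v h').2 h1'
      rw [if_neg h1, if_neg h2]; exact Nat.zero_le _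
    · rw [← h v h0 h1']; exact H v

theorem N_M {k : ℕ} {u : Fin 8 → ℕ} (hM : N k u) : M k u := by
  obtain ⟨g, hg, H⟩ := hM
  intro v hv
  have := H v
  rw [if_pos hv] at this
  omega

theorem LL_iff {h ℓ k j : ℕ} (hℓ : ℓ < h) (hk : k ≤ ℓ) (hj : j ≤ 2 * (ℓ - k)) (u : Fin 8 → ℕ) :
    LL h ℓ (k * (2 * h - 1) + j) u ↔ ((j % 2 = 0 ∧ M k u) ∨ N k u) := by
  constructor
  · rintro ⟨k', j', hk', hj', he, H⟩
    have hs : j < 2 * h - 1 := by omega
    have hs' : j' < 2 * h - 1 := by omega
    have hkk : k = k' := by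
      rcases lt_trichotomy k k' with h1 | h1 | h1
      · have := Nat.mul_le_mul_right (2 * h - 1) (Nat.succ_le_of_lt h1)
        rw [Nat.succ_mul] at this
        omega
      · exact h1
      · have := Nat.mul_le_mul_right (2 * h - 1) (Nat.succ_le_of_lt h1)
        rw [Nat.succ_mul] at this
        omega
    subst hkk
    have : j = j' := by omega
    subst this
    exact H
  · intro H
    exact ⟨k, j, hk, hj, rfl, H⟩

theorem main (hMono : TaskMono) : Pool.Agent.Q123.FDP.TaskBlock1 := by
  classical
  intro hS hN h ℓ k j hℓ hk hj b hb0 hb1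
  have hL0 := LL_iff (h := h) hℓ hk (show j ≤ 2 * (ℓ - k) by omega)
  have hL1 := LL_iff (h := h) hℓ hk hj
  have hA : k * (2 * h - 1) + (2 * h - 1) ≤ ℓ * (2 * h - 1) := by
    have := Nat.mul_le_mul_right (2 * h - 1) (show k + 1 ≤ ℓ by omega)
    rw [Nat.succ_mul] at this
    exact this
  obtain ⟨A, hAdef⟩ : ∃ A, A = ℓ * (2 * h - 1) := ⟨_, rfl⟩
  obtain ⟨B, hBdef⟩ : ∃ B, B = k * (2 * h - 1) := ⟨_, rfl⟩
  rw [← hBdef] at hL0 hL1 hb0 hb1 hA
  rw [← hAdef] at hb1 hA
  have hb1' : 2 ≤ b 1 := by omega
  have hb0' : 1 ≤ b 0 := by omega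
  have hmem : ∀ T, T ∈ fam (PP h ℓ) b ↔ (∀ v ∈ T, 1 ≤ b v) ∧
      ∃ e, e ≤ (b 0 - if 0 ∈ T then 1 else 0) ∧ A ≤ (b 1 - if 1 ∈ T then 1 else 0) + e ∧
        LL h ℓ e ⇑(b - ind T) := by
    intro T
    rw [mem_fam, ← le_iff', ← ev, ← ev, hAdef]
    rfl
  -- the values
  have hLLM : ∀ T, T ∈ fam (PP h ℓ) b → M k ⇑(b - ind T) := by
    intro T hT
    rw [hmem] at hT
    obtain ⟨hle, e, he1, he2, hL⟩ := hT
    have : e = B + j ∨ e = B + (j + 1) := by
      split_ifs at he1 he2 <;> omega
    rcases this with rfl | rfl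
    · rw [hL0] at hL
      rcases hL with hL | hL
      · exact hL.2
      · exact N_M hL
    · rw [hL1] at hL
      rcases hL with hL | hL
      · exact hL.2
      · exact N_M hL
  have hdown : Down (fam (PP h ℓ) b) := by
    intro T i hT
    rw [mem_fam] at hT ⊢
    refine ⟨?_, hMono h ℓ _ _ (fun v => ?_) hT.2⟩
    · rw [le_iff']
      intro v hv
      exact (le_iff' _ _).1 hT.1 v (Finset.mem_insert_of_mem hv)
    · rw [ev, ev]
      refine Nat.sub_le_sub_left ?_ _
      by_cases hv : v ∈ T
      · rw [if_pos hv, if_pos (Finset.mem_insert_of_mem hv)]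
      · rw [if_neg hv]; exact Nat.zero_le _
  rcases Nat.mod_two_eq_zero_or_one j with hj0 | hj0
  · have hj1 : ¬ (j + 1) % 2 = 0 := by omega
    refine hS 8 _ 1 0 (by decide) hdown ?_ ?_
    · intro T hT h1
      have hM := hLLM T hT
      rw [hmem] at hT ⊢
      refine ⟨?_, B + j, ?_, ?_, ?_⟩
      · intro v hv
        rw [Finset.mem_insert] at hv
        rcases hv with rfl | hv
        · exact hb0'
        · exact hT.1 v hv
      · rw [if_pos (Finset.mem_insert_self _ _)]; omega
      · rw [if_neg (by rw [Finset.mem_insert]; exact fun hh => hh.elim (by decide) h1)]; omega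
      · rw [hL0]
        refine Or.inl ⟨hj0, M_congr (fun v hv0 hv1 => ?_) hM⟩
        rw [ev, ev]
        congr 2
        rw [Finset.mem_insert]
        exact propext ⟨Or.inr, fun hh => hh.resolve_left hv0⟩
    · have : lk 1 (fam (PP h ℓ) b) = Nf k b := by
        ext T
        rw [lk, Nf, Finset.mem_filter, Finset.mem_filter, hmem]
        constructor
        · rintro ⟨-, h1, hle, e, he1, he2, hL⟩
          rw [if_pos (Finset.mem_insert_self _ _)] at he2
          have h0 : 0 ∉ insert 1 T := by
            intro h0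
            rw [if_pos h0] at he1
            omega
          rw [if_neg h0] at he1
          have h0' : 0 ∉ T := fun hh => h0 (Finset.mem_insert_of_mem hh)
          have he : e = B + (j + 1) := by omega
          rw [he, hL1] at hL
          have hL' := hL.resolve_left (fun hh => hj1 hh.1)
          refine ⟨Finset.mem_univ _, ?_, ?_, N_congr (fun v hv0 hv1 => ?_) hL'⟩
          · intro v hv
            rw [X6_mem]
            exact ⟨fun hh => h0' (hh ▸ hv), fun hh => h1 (hh ▸ hv)⟩
          · rw [le_iff']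
            exact fun v hv => hle v (Finset.mem_insert_of_mem hv)
          · rw [ev, ev]
            congr 2
            rw [Finset.mem_insert]
            exact propext ⟨fun hh => hh.resolve_left hv1, Or.inr⟩
        · rintro ⟨-, hX, hle, hNk⟩
          have h0' : 0 ∉ T := fun hh => ((X6_mem 0).1 (hX hh)).1 rfl
          have h1' : 1 ∉ T := fun hh => ((X6_mem 1).1 (hX hh)).2 rfl
          refine ⟨Finset.mem_univ _, h1', ?_, B + (j + 1), ?_, ?_, ?_⟩
          · intro v hv
            rw [Finset.mem_insert] at hv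
            rcases hv with rfl | hv
            · omega
            · exact (le_iff' _ _).1 hle v hv
          · rw [if_neg (by rw [Finset.mem_insert]; exact fun hh => hh.elim (by decide) h0')]; omega
          · rw [if_pos (Finset.mem_insert_self _ _)]; omega
          · rw [hL1]
            refine Or.inr (N_congr (fun v hv0 hv1 => ?_) hNk)
            rw [ev, ev]
            congr 2
            rw [Finset.mem_insert]
            exact propext ⟨Or.inr, fun hh => hh.resolve_left hv1⟩
      rw [this]
      exact hN k b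
  · have hj1 : (j + 1) % 2 = 0 := by omega
    have hj0' : ¬ j % 2 = 0 := by omega
    refine hS 8 _ 0 1 (by decide) hdown ?_ ?_
    · intro T hT h1
      have hM := hLLM T hT
      rw [hmem] at hT ⊢
      refine ⟨?_, B + (j + 1), ?_, ?_, ?_⟩
      · intro v hv
        rw [Finset.mem_insert] at hv
        rcases hv with rfl | hv
        · omega
        · exact hT.1 v hv
      · rw [if_neg (by rw [Finset.mem_insert]; exact fun hh => hh.elim (by decide) h1)]; omega
      · rw [if_pos (Finset.mem_insert_self _ _)]; omega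
      · rw [hL1]
        refine Or.inl ⟨hj1, M_congr (fun v hv0 hv1 => ?_) hM⟩
        rw [ev, ev]
        congr 2
        rw [Finset.mem_insert]
        exact propext ⟨Or.inr, fun hh => hh.resolve_left hv1⟩
    · have : lk 0 (fam (PP h ℓ) b) = Nf k b := by
        ext T
        rw [lk, Nf, Finset.mem_filter, Finset.mem_filter, hmem]
        constructor
        · rintro ⟨-, h1, hle, e, he1, he2, hL⟩
          rw [if_pos (Finset.mem_insert_self _ _)] at he1
          have h0 : 1 ∉ insert 0 T := by
            intro h0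
            rw [if_pos h0] at he2
            omega
          rw [if_neg h0] at he2
          have h0' : 1 ∉ T := fun hh => h0 (Finset.mem_insert_of_mem hh)
          have he : e = B + j := by omega
          rw [he, hL0] at hL
          have hL' := hL.resolve_left (fun hh => hj0' hh.1)
          refine ⟨Finset.mem_univ _, ?_, ?_, N_congr (fun v hv0 hv1 => ?_) hL'⟩
          · intro v hv
            rw [X6_mem]
            exact ⟨fun hh => h1 (hh ▸ hv), fun hh => h0' (hh ▸ hv)⟩
          · rw [le_iff']
            exact fun v hv => hle v (Finset.mem_insert_of_mem hv)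
          · rw [ev, ev]
            congr 2
            rw [Finset.mem_insert]
            exact propext ⟨fun hh => hh.resolve_left hv0, Or.inr⟩
        · rintro ⟨-, hX, hle, hNk⟩
          have h0' : 0 ∉ T := fun hh => ((X6_mem 0).1 (hX hh)).1 rfl
          have h1' : 1 ∉ T := fun hh => ((X6_mem 1).1 (hX hh)).2 rfl
          refine ⟨Finset.mem_univ _, h0', ?_, B + j, ?_, ?_, ?_⟩
          · intro v hv
            rw [Finset.mem_insert] at hv
            rcases hv with rfl | hv
            · omega
            · exact (le_iff' _ _).1 hle v hv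
          · rw [if_pos (Finset.mem_insert_self _ _)]; omega
          · rw [if_neg (by rw [Finset.mem_insert]; exact fun hh => hh.elim (by decide) h1')]; omega
          · rw [hL0]
            refine Or.inr (N_congr (fun v hv0 hv1 => ?_) hNk)
            rw [ev, ev]
            congr 2
            rw [Finset.mem_insert]
            exact propext ⟨Or.inr, fun hh => hh.resolve_left hv0⟩
      rw [this]
      exact hN k b

end Pool.Agent.Q123.FDP.TBlock1
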