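import Pool.Agent.Q123.FDP.Stmts

set_option autoImplicit false

namespace Pool.Agent.Q123.FDP.TBlock2

open Finset Pool.Agent.Q123.KB Pool.Agent.H677R3.EdgeReg Pool.Agent.Q123.FDP

theorem M_mono {k : ℕ} {u w : Fin 8 → ℕ} (h : ∀ v, v ≠ 0 → v ≠ 1 → u v ≤ w v) (hM : M k u) :
    M k w := by
  intro v hv
  have h0 : v ≠ 0 := by rintro rfl; exact absurd hv (by decide)
  have h1 : v ≠ 1 := by rintro rfl; exact absurd hv (by decide)
  exact (hM v hv).trans (h v h0 h1)

set_option maxRecDepth 100000 in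
theorem G1_no : ∀ g ∈ G1, (0 : Fin 8) ∉ g ∧ (1 : Fin 8) ∉ g := by decide

set_option maxRecDepth 100000 in
theorem G1_ne : ∀ g ∈ G1, ∃ v : Fin 8, v ∈ g ∧ v ≠ 0 ∧ v ≠ 1 := by decide

theorem N_mono {k : ℕ} {u w : Fin 8 → ℕ} (h : ∀ v, v ≠ 0 → v ≠ 1 → u v ≤ w v) (hN : N k u) :
    N k w := by
  obtain ⟨g, hg, h2⟩ := hN
  refine ⟨g, hg, fun v => ?_⟩
  by_cases h0 : v = 0
  · subst h0
    rw [if_neg (by decide), if_neg (G1_no g hg).1]; omega
  by_cases h1 : v = 1
  · subst h1
    rw [if_neg (by decide), if_neg (G1_no g hg).2]; omega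
  exact (h2 v).trans (h v h0 h1)

theorem N_M {k : ℕ} {u : Fin 8 → ℕ} (hN : N k u) : M k u := by
  obtain ⟨g, hg, h2⟩ := hN
  intro v hv
  have := h2 v
  rw [if_pos hv] at this
  omega

/-- conditions in the old variables -/
def OK (b : Fin 8 →₀ ℕ) (T : Finset (Fin 8)) : Prop := ∀ v, v ≠ 0 → v ≠ 1 → ind T v ≤ b v

theorem ind_mono {T T' : Finset (Fin 8)} (h : ∀ v, v ≠ 0 → v ≠ 1 → v ∈ T → v ∈ T') (v : Fin 8)
    (h0 : v ≠ 0) (h1 : v ≠ 1) : ind T v ≤ ind T' v := by
  rw [ind_apply, ind_apply]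
  by_cases hv : v ∈ T
  · rw [if_pos hv, if_pos (h v h0 h1 hv)]
  · rw [if_neg hv]; omega

def QM (k : ℕ) (b : Fin 8 →₀ ℕ) (T : Finset (Fin 8)) : Prop := OK b T ∧ M k (fun v => b v - ind T v)
def QN (k : ℕ) (b : Fin 8 →₀ ℕ) (T : Finset (Fin 8)) : Prop := OK b T ∧ N k (fun v => b v - ind T v)

theorem QM_mono {k : ℕ} {b : Fin 8 →₀ ℕ} {T T' : Finset (Fin 8)}
    (h : ∀ v, v ≠ 0 → v ≠ 1 → v ∈ T → v ∈ T') (hQ : QM k b T') : QM k b T := by
  refine ⟨fun v h0 h1 => (ind_mono h v h0 h1).trans (hQ.1 v h0 h1), M_mono (fun v h0 h1 => ?_) hQ.2⟩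
  have := ind_mono h v h0 h1
  show b v - ind T' v ≤ b v - ind T v
  omega

theorem QN_mono {k : ℕ} {b : Fin 8 →₀ ℕ} {T T' : Finset (Fin 8)}
    (h : ∀ v, v ≠ 0 → v ≠ 1 → v ∈ T → v ∈ T') (hQ : QN k b T') : QN k b T := by
  refine ⟨fun v h0 h1 => (ind_mono h v h0 h1).trans (hQ.1 v h0 h1), N_mono (fun v h0 h1 => ?_) hQ.2⟩
  have := ind_mono h v h0 h1
  show b v - ind T' v ≤ b v - ind T v
  omega

theorem QN_QM {k : ℕ} {b : Fin 8 →₀ ℕ} {T : Finset (Fin 8)} (h : QN k b T) : QM k b T :=
  ⟨h.1, N_M h.2⟩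

theorem mem_char (h ℓ k j : ℕ) (hℓ : ℓ < h) (hk : k ≤ ℓ) (hj : j + 2 ≤ 2 * (ℓ - k))
    (b : Fin 8 →₀ ℕ) (hb0 : b 0 = k * (2 * h - 1) + (j + 2))
    (hb1 : k * (2 * h - 1) + j + b 1 = ℓ * (2 * h - 1)) (hj2 : j % 2 = 0) (T : Finset (Fin 8)) :
    T ∈ fam (PP h ℓ) b ↔ (¬ (0 ∈ T ∧ 1 ∈ T) ∧ QM k b T) ∨ (0 ∈ T ∧ 1 ∈ T ∧ QN k b T) := by
  rw [mem_fam]
  obtain ⟨s, hs⟩ : ∃ s, s = 2 * h - 1 := ⟨_, rfl⟩
  rw [← hs] at hb0 hb1
  have hi0 : ind T 0 = if (0 : Fin 8) ∈ T then 1 else 0 := ind_apply _ _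
  have hi1 : ind T 1 = if (1 : Fin 8) ∈ T then 1 else 0 := ind_apply _ _
  have hb1' : 1 ≤ b 1 := by
    obtain ⟨d, rfl⟩ : ∃ d, ℓ = k + d := ⟨ℓ - k, by omega⟩
    rw [add_mul] at hb1
    have h1 : d * 2 ≤ d * s := Nat.mul_le_mul_left d (by omega)
    omega
  constructor
  · rintro ⟨hle, e, he0, he1, k2, j2, hk2, hj22, hek, hMN⟩
    change e ≤ b 0 - ind T 0 at he0
    change ℓ * (2 * h - 1) ≤ (b 1 - ind T 1) + e at he1
    rw [← hs] at he1 hek
    have hT1 : ind T 1 ≤ b 1 := hle 1
    have hT0 : ind T 0 ≤ b 0 := hle 0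
    have hkk : k2 = k := by
      rcases lt_trichotomy k2 k with hlt | heq | hgt
      · exfalso
        have h1 : (k2 + 1) * s ≤ k * s := Nat.mul_le_mul_right s hlt
        rw [add_mul, one_mul] at h1
        omega
      · exact heq
      · exfalso
        have h1 : (k + 1) * s ≤ k2 * s := Nat.mul_le_mul_right s hgt
        rw [add_mul, one_mul] at h1
        omega
    subst hkk
    have hOK : OK b T := fun v _ _ => hle v
    have hMN' : (j2 % 2 = 0 ∧ M k2 (fun v => b v - ind T v)) ∨ N k2 (fun v => b v - ind T v) := hMN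
    by_cases h01 : (0 : Fin 8) ∈ T ∧ (1 : Fin 8) ∈ T
    · right
      refine ⟨h01.1, h01.2, hOK, ?_⟩
      rw [if_pos h01.1] at hi0
      rw [if_pos h01.2] at hi1
      have : j2 = j + 1 := by omega
      rcases hMN' with hM | hN
      · exfalso; omega
      · exact hN
    · left
      refine ⟨h01, hOK, ?_⟩
      rcases hMN' with hM | hN
      · exact hM.2
      · exact N_M hN
  · intro hor
    have hleT : OK b T → ind T ≤ b := by
      intro hOK v
      by_cases h0 : v = 0
      · subst h0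
        rw [hi0, hb0]; split_ifs <;> omega
      by_cases h1 : v = 1
      · subst h1
        rw [hi1]; split_ifs <;> omega
      exact hOK v h0 h1
    rcases hor with ⟨hn, hOK, hM⟩ | ⟨h0, h1, hOK, hN⟩
    · refine ⟨hleT hOK, ?_⟩
      by_cases h1 : (1 : Fin 8) ∈ T
      · have h0 : (0 : Fin 8) ∉ T := fun h0 => hn ⟨h0, h1⟩
        rw [if_neg h0] at hi0
        rw [if_pos h1] at hi1
        refine ⟨k * s + (j + 2), ?_, ?_, k, j + 2, hk, hj, by rw [hs], Or.inl ⟨by omega, hM⟩⟩
        · change _ ≤ b 0 - ind T 0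
          omega
        · change ℓ * (2 * h - 1) ≤ (b 1 - ind T 1) + _
          rw [← hs]
          omega
      · rw [if_neg h1] at hi1
        have hi0' : ind T 0 ≤ 1 := by rw [hi0]; split_ifs <;> omega
        refine ⟨k * s + j, ?_, ?_, k, j, hk, by omega, by rw [hs], Or.inl ⟨hj2, hM⟩⟩
        · change _ ≤ b 0 - ind T 0
          omega
        · change ℓ * (2 * h - 1) ≤ (b 1 - ind T 1) + _
          rw [← hs]
          omega
    · refine ⟨hleT hOK, ?_⟩
      rw [if_pos h0] at hi0
      rw [if_pos h1] at hi1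
      refine ⟨k * s + (j + 1), ?_, ?_, k, j + 1, hk, by omega, by rw [hs], Or.inr hN⟩
      · change _ ≤ b 0 - ind T 0
        omega
      · change ℓ * (2 * h - 1) ≤ (b 1 - ind T 1) + _
        rw [← hs]
        omega

theorem mem_Mf (k : ℕ) (b : Fin 8 →₀ ℕ) (T : Finset (Fin 8)) (h0 : (0 : Fin 8) ∉ T)
    (h1 : (1 : Fin 8) ∉ T) : T ∈ Mf k b ↔ QM k b T := by
  classical
  unfold Mf
  rw [mem_filter]
  constructor
  · rintro ⟨-, -, h3, h4⟩
    exact ⟨fun v _ _ => h3 v, h4⟩
  · rintro ⟨h3, h4⟩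
    refine ⟨mem_univ _, ?_, ?_, h4⟩
    · intro v hv
      have hv0 : v ≠ 0 := fun h => h0 (h ▸ hv)
      have hv1 : v ≠ 1 := fun h => h1 (h ▸ hv)
      revert hv0 hv1
      clear hv
      revert v
      decide
    · intro v
      by_cases hv0 : v = 0
      · subst hv0; rw [ind_apply, if_neg h0]; omega
      by_cases hv1 : v = 1
      · subst hv1; rw [ind_apply, if_neg h1]; omega
      exact h3 v hv0 hv1

theorem mem_Nf (k : ℕ) (b : Fin 8 →₀ ℕ) (T : Finset (Fin 8)) (h0 : (0 : Fin 8) ∉ T)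
    (h1 : (1 : Fin 8) ∉ T) : T ∈ Nf k b ↔ QN k b T := by
  classical
  unfold Nf
  rw [mem_filter]
  constructor
  · rintro ⟨-, -, h3, h4⟩
    exact ⟨fun v _ _ => h3 v, h4⟩
  · rintro ⟨h3, h4⟩
    refine ⟨mem_univ _, ?_, ?_, h4⟩
    · intro v hv
      have hv0 : v ≠ 0 := fun h => h0 (h ▸ hv)
      have hv1 : v ≠ 1 := fun h => h1 (h ▸ hv)
      revert hv0 hv1
      clear hv
      revert v
      decide
    · intro v
      by_cases hv0 : v = 0
      · subst hv0; rw [ind_apply, if_neg h0]; omega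
      by_cases hv1 : v = 1
      · subst hv1; rw [ind_apply, if_neg h1]; omega
      exact h3 v hv0 hv1

theorem Mf_no {k : ℕ} {b : Fin 8 →₀ ℕ} {T : Finset (Fin 8)} (h : T ∈ Mf k b) :
    (0 : Fin 8) ∉ T ∧ (1 : Fin 8) ∉ T := by
  classical
  unfold Mf at h
  rw [mem_filter] at h
  exact ⟨fun h0 => absurd (h.2.1 h0) (by decide), fun h0 => absurd (h.2.1 h0) (by decide)⟩

theorem Nf_no {k : ℕ} {b : Fin 8 →₀ ℕ} {T : Finset (Fin 8)} (h : T ∈ Nf k b) :
    (0 : Fin 8) ∉ T ∧ (1 : Fin 8) ∉ T := by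
  classical
  unfold Nf at h
  rw [mem_filter] at h
  exact ⟨fun h0 => absurd (h.2.1 h0) (by decide), fun h0 => absurd (h.2.1 h0) (by decide)⟩

theorem main : Pool.Agent.Q123.FDP.TaskBlock2 := by
  intro hCone hSusp hNf hMf h ℓ k j hℓ hk hj b hb0 hb1 hj2
  have hmem := mem_char h ℓ k j hℓ hk hj b hb0 hb1 hj2
  set F := fam (PP h ℓ) b with hF
  have hDown : Down F := by
    intro T i hT
    rw [hmem] at hT ⊢
    have hsub : ∀ v, v ≠ 0 → v ≠ 1 → v ∈ T → v ∈ insert i T := fun v _ _ hv => mem_insert_of_mem hv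
    rcases hT with ⟨h1, h2⟩ | ⟨h1, h2, h3⟩
    · exact Or.inl ⟨fun h3 => h1 ⟨mem_insert_of_mem h3.1, mem_insert_of_mem h3.2⟩, QM_mono hsub h2⟩
    · by_cases h01 : (0 : Fin 8) ∈ T ∧ (1 : Fin 8) ∈ T
      · exact Or.inr ⟨h01.1, h01.2, QN_mono hsub h3⟩
      · exact Or.inl ⟨h01, QM_mono hsub (QN_QM h3)⟩
  -- the link of 1
  have hlk : ∀ T, T ∈ lk (1 : Fin 8) F ↔ (1 : Fin 8) ∉ T ∧
      (((0 : Fin 8) ∉ T ∧ QM k b T) ∨ ((0 : Fin 8) ∈ T ∧ QN k b T)) := by
    intro T
    unfold lk
    rw [mem_filter, hmem]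
    have e1 : QM k b (insert 1 T) ↔ QM k b T :=
      ⟨QM_mono fun v _ _ hv => mem_insert_of_mem hv,
        QM_mono fun v _ h1 hv => (mem_insert.1 hv).resolve_left h1⟩
    have e2 : QN k b (insert 1 T) ↔ QN k b T :=
      ⟨QN_mono fun v _ _ hv => mem_insert_of_mem hv,
        QN_mono fun v _ h1 hv => (mem_insert.1 hv).resolve_left h1⟩
    have e3 : (0 : Fin 8) ∈ insert 1 T ↔ (0 : Fin 8) ∈ T := by
      rw [mem_insert]; exact ⟨fun h => h.resolve_left (by decide), Or.inr⟩
    have e4 : (1 : Fin 8) ∈ insert 1 T := mem_insert_self _ _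
    rw [e1, e2, e3]
    simp only [mem_univ, e4, and_true, true_and]
  apply hSusp 8 F 1 0 (by decide) hDown
  · intro T hT h1
    rw [hmem] at hT ⊢
    left
    have h1' : (1 : Fin 8) ∉ insert 0 T := by
      rw [mem_insert]; rintro (h | h)
      · exact absurd h (by decide)
      · exact h1 h
    refine ⟨fun h => h1' h.2, ?_⟩
    have hQ : QM k b T := by
      rcases hT with h | h
      · exact h.2
      · exact absurd h.2.1 h1
    exact QM_mono (fun v h0 _ hv => (mem_insert.1 hv).resolve_left h0) hQ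
  · -- FI (lk 1 F)
    by_cases hcone : ∃ w : Fin 8, w ≠ 0 ∧ w ≠ 1 ∧
        ((w ∈ mm ∧ k + 1 ≤ b w) ∨ (w ∉ mm ∧ 1 ≤ b w))
    · obtain ⟨w, hw0, hw1, hw⟩ := hcone
      apply hSusp 8 (lk 1 F) 0 w (Ne.symm hw0)
      · intro T i hT
        rw [hlk] at hT ⊢
        have hsub : ∀ v, v ≠ 0 → v ≠ 1 → v ∈ T → v ∈ insert i T :=
          fun v _ _ hv => mem_insert_of_mem hv
        refine ⟨fun h1 => hT.1 (mem_insert_of_mem h1), ?_⟩
        rcases hT.2 with ⟨h1, h2⟩ | ⟨h1, h2⟩
        · exact Or.inl ⟨fun h3 => h1 (mem_insert_of_mem h3), QM_mono hsub h2⟩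
        · by_cases h0 : (0 : Fin 8) ∈ T
          · exact Or.inr ⟨h0, QN_mono hsub h2⟩
          · exact Or.inl ⟨h0, QM_mono hsub (QN_QM h2)⟩
      · intro T hT h0
        rw [hlk] at hT ⊢
        refine ⟨?_, Or.inl ⟨?_, ?_⟩⟩
        · rw [mem_insert]; rintro (h | h)
          · exact hw1 h.symm
          · exact hT.1 h
        · rw [mem_insert]; rintro (h | h)
          · exact hw0 h.symm
          · exact h0 h
        · have hQ : QM k b T := by
            rcases hT.2 with h | h
            · exact h.2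
            · exact absurd h.1 h0
          constructor
          · intro v hv0 hv1
            by_cases hvw : v = w
            · subst hvw
              rw [ind_apply, if_pos (mem_insert_self _ _)]
              rcases hw with h | h <;> omega
            · have := hQ.1 v hv0 hv1
              rw [ind_apply] at this ⊢
              have e : v ∈ insert w T ↔ v ∈ T := by
                rw [mem_insert]; exact ⟨fun h => h.resolve_left hvw, Or.inr⟩
              simp only [e]
              exact this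
          · intro v hv
            by_cases hvw : v = w
            · subst hvw
              show k ≤ b v - ind (insert v T) v
              rw [ind_apply, if_pos (mem_insert_self _ _)]
              rcases hw with h | h
              · omega
              · exact absurd hv h.1
            · have := hQ.2 v hv
              change k ≤ b v - ind T v at this
              show k ≤ b v - ind (insert w T) v
              rw [ind_apply] at this ⊢
              have e : v ∈ insert w T ↔ v ∈ T := by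
                rw [mem_insert]; exact ⟨fun h => h.resolve_left hvw, Or.inr⟩
              simp only [e]
              exact this
      · have hEq : lk 0 (lk 1 F) = Nf k b := by
          ext T
          constructor
          · intro hT
            unfold lk at hT
            rw [mem_filter] at hT
            have h2 := (hlk (insert 0 T)).1 hT.2.2
            have h1 : (1 : Fin 8) ∉ T := fun h => h2.1 (mem_insert_of_mem h)
            rw [mem_Nf k b T hT.2.1 h1]
            rcases h2.2 with h3 | h3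
            · exact absurd (mem_insert_self _ _) h3.1
            · exact QN_mono (fun v _ _ hv => mem_insert_of_mem hv) h3.2
          · intro hT
            have hno := Nf_no hT
            rw [mem_Nf k b T hno.1 hno.2] at hT
            have h2 : insert 0 T ∈ lk 1 F := by
              rw [hlk]
              refine ⟨?_, Or.inr ⟨mem_insert_self _ _, ?_⟩⟩
              · rw [mem_insert]; rintro (h | h)
                · exact absurd h (by decide)
                · exact hno.2 h
              · exact QN_mono (fun v h0 _ hv => (mem_insert.1 hv).resolve_left h0) hT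
            exact mem_filter.2 ⟨mem_univ _, hno.1, h2⟩
        rw [hEq]
        exact hNf k b
    · push Not at hcone
      have hEq : lk 1 F = Mf k b := by
        ext T
        constructor
        · intro hT
          rw [hlk] at hT
          rcases hT.2 with h2 | h2
          · rw [mem_Mf k b T h2.1 hT.1]; exact h2.2
          · exfalso
            obtain ⟨g, hg, h3⟩ := h2.2.2
            obtain ⟨v, hvg, hv0, hv1⟩ := G1_ne g hg
            have h4 := hcone v hv0 hv1
            have h5 := h3 v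
            rw [if_pos hvg] at h5
            change _ ≤ b v - ind T v at h5
            by_cases hvm : v ∈ mm
            · rw [if_pos hvm] at h5
              have := h4.1 hvm
              omega
            · rw [if_neg hvm] at h5
              have := h4.2 hvm
              omega
        · intro hT
          have hno := Mf_no hT
          rw [mem_Mf k b T hno.1 hno.2] at hT
          rw [hlk]
          exact ⟨hno.2, Or.inl ⟨hno.1, hT⟩⟩
      rw [hEq]
      exact hMf k b

end Pool.Agent.Q123.FDP.TBlock2
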