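import Pool.Agent.Q123.FDP.Stmts

set_option autoImplicit false

namespace Pool.Agent.Q123.FDP.TBlockCone

open Finset Pool.Agent.Q123.KB Pool.Agent.H677R3.EdgeReg Pool.Agent.Q123.FDP

theorem aux (s k k₁ j j₁ j' : ℕ) (h1 : k * s + j ≤ k₁ * s + j₁) (h2 : k₁ * s + j₁ ≤ k * s + j')
    (h3 : j₁ < s) (h4 : j' < s) : k₁ = k := by
  rcases lt_trichotomy k₁ k with h | h | h
  · have := Nat.mul_le_mul_right s (Nat.succ_le_of_lt h)
    rw [Nat.succ_mul] at this
    omega
  · exact h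
  · have := Nat.mul_le_mul_right s (Nat.succ_le_of_lt h)
    rw [Nat.succ_mul] at this
    omega

theorem main : TaskBlockCone := by
  intro hcone h ℓ k j j' hℓh hk hjj hj' b hb0 hb1 hcase
  apply hcone 8 (fam (PP h ℓ) b) 0
  intro T hT
  rw [mem_fam] at hT ⊢
  by_cases h0 : (0 : Fin 8) ∈ T
  · rwa [Finset.insert_eq_of_mem h0]
  obtain ⟨hTb, e, he0, he1, k₁, j₁, hk₁, hj₁, he, hL⟩ := hT
  have hu : ∀ v, (b - ind T) v = b v - ind T v := fun v => rfl
  have hu' : ∀ v, (b - ind (insert 0 T)) v = b v - ind (insert 0 T) v := fun v => rfl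
  have hne : ∀ v : Fin 8, v ≠ 0 → ind (insert 0 T) v = ind T v := by
    intro v hv
    rw [ind_apply, ind_apply]
    simp [hv]
  have hi0 : ind (insert 0 T) (0 : Fin 8) = 1 := by
    rw [ind_apply]; simp
  have hi0' : ind T (0 : Fin 8) = 0 := by
    rw [ind_apply, if_neg h0]
  have hi1 : ind T (1 : Fin 8) ≤ 1 := by
    rw [ind_apply]; split_ifs <;> omega
  rw [hu] at he0 he1
  have h1e : k * (2 * h - 1) + j ≤ k₁ * (2 * h - 1) + j₁ := by omega
  have h2e : k₁ * (2 * h - 1) + j₁ ≤ k * (2 * h - 1) + j' := by omega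
  have hkk : k₁ = k := aux (2 * h - 1) k k₁ j j₁ j' h1e h2e (by omega) (by omega)
  subst hkk
  have hM : ∀ v ∈ mm, k₁ ≤ b v - ind T v := by
    intro v hv
    rcases hL with ⟨_, hM⟩ | ⟨g, _, hg⟩
    · exact hM v hv
    · have := hg v
      rw [if_pos hv, hu] at this
      omega
  refine ⟨?_, ?_⟩
  · intro v
    by_cases hv : v = 0
    · subst hv
      rw [hi0]; omega
    · rw [hne v hv]; exact hTb v
  · -- the even exponent strictly between
    obtain ⟨i, hi1', hi2, hi3⟩ : ∃ i, j + 1 ≤ i ∧ i + 1 ≤ j' ∧ i % 2 = 0 := by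
      rcases hcase with hc | ⟨hc, hc'⟩
      · rcases Nat.even_or_odd' j with ⟨c, hc2 | hc2⟩
        · exact ⟨j + 2, by omega, by omega, by omega⟩
        · exact ⟨j + 1, by omega, by omega, by omega⟩
      · exact ⟨j + 1, by omega, by omega, by omega⟩
    refine ⟨k₁ * (2 * h - 1) + i, ?_, ?_, k₁, i, hk, by omega, rfl, Or.inl ⟨hi3, ?_⟩⟩
    · rw [hu', hi0]; omega
    · rw [hu', hne 1 (by decide)]; omega
    · intro v hv
      have hv0 : v ≠ 0 := by
        rintro rfl
        revert hv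
        decide
      rw [hu', hne v hv0]
      exact hM v hv

end Pool.Agent.Q123.FDP.TBlockCone
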