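import Pool.Agent.Q123.FDP.Stmts

set_option autoImplicit false

namespace Pool.Agent.Q123.FDP.TCone

open Finset Pool.Agent.Q123.KB Pool.Agent.H677R3.EdgeReg Pool.Agent.Q123.FDP

theorem main : TaskCone := by
  intro n F v hF K K' _ _ i
  have h : ∀ (L : Type) [Field L], combBetti L F i = 0 := by
    intro L _
    refine combBetti_eq_zero fun a ha => cone_bd ha v (fun T hT _ => hF T ?_)
    exact (ha.1 T hT).1
  rw [h K, h K']

end Pool.Agent.Q123.FDP.TCone
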