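import Pool.Agent.Q123.FDP.Stmts

set_option autoImplicit false

namespace Pool.Agent.Q123.FDP.TCross

open Finset Pool.Agent.Q123.KB Pool.Agent.H677R3.EdgeReg Pool.Agent.Q123.FDP

private theorem ind_le_one (T : Finset (Fin 8)) (v : Fin 8) : ind T v ≤ 1 := by
  rw [ind_apply]; split_ifs <;> omega

private theorem ind_of_mem {T : Finset (Fin 8)} {v : Fin 8} (h : v ∈ T) : ind T v = 1 := by
  rw [ind_apply, if_pos h]

private theorem ind_of_notMem {T : Finset (Fin 8)} {v : Fin 8} (h : v ∉ T) : ind T v = 0 := by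
  rw [ind_apply, if_neg h]

private theorem mem_Mf (k : ℕ) (b : Fin 8 →₀ ℕ) (T : Finset (Fin 8)) :
    T ∈ Mf k b ↔ T ⊆ X6 ∧ ind T ≤ b ∧ M k ⇑(b - ind T) := by
  classical
  unfold Mf
  rw [Finset.mem_filter]
  simp only [Finset.mem_univ, true_and]

private theorem mem_lk (v : Fin 8) (F : Finset (Finset (Fin 8))) (T : Finset (Fin 8)) :
    T ∈ lk v F ↔ v ∉ T ∧ insert v T ∈ F := by
  unfold lk
  rw [Finset.mem_filter]
  simp only [Finset.mem_univ, true_and]

private theorem N_M {k : ℕ} {u : Fin 8 → ℕ} (h : N k u) : M k u := by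
  obtain ⟨g, -, hg⟩ := h
  intro v hv
  have := hg v
  rw [if_pos hv] at this
  omega

private theorem M_anti {k : ℕ} {u : Fin 8 → ℕ} (h : M (k + 1) u) : M k u := by
  intro v hv
  have := h v hv
  omega

private theorem LL_cases {h ℓ k e : ℕ} {u : Fin 8 → ℕ} (hl : ℓ < h)
    (h1 : k * (2 * h - 1) + 2 * (ℓ - k) ≤ e) (h2 : e ≤ (k + 1) * (2 * h - 1)) (h3 : LL h ℓ e u) :
    (e = k * (2 * h - 1) + 2 * (ℓ - k) ∧ M k u) ∨ (e = (k + 1) * (2 * h - 1) ∧ M (k + 1) u) := by
  obtain ⟨k', j, hk', hj, he, hM⟩ := h3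
  have hM' : M k' u := by
    rcases hM with hM | hM
    · exact hM.2
    · exact N_M hM
  obtain ⟨s, hs⟩ : ∃ s, s = 2 * h - 1 := ⟨_, rfl⟩
  rw [← hs] at h1 h2 he ⊢
  have hjs : j < s := by omega
  have hs0 : 0 < s := by omega
  have hle : k' ≤ k + 1 := by
    by_contra hc
    have h5 : (k + 1 + 1) * s ≤ k' * s := Nat.mul_le_mul_right s (by omega)
    have h6 : (k + 1 + 1) * s = (k + 1) * s + s := by ring
    omega
  have hge : k ≤ k' := by
    by_contra hc
    have h5 : (k' + 1) * s ≤ k * s := Nat.mul_le_mul_right s (by omega)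
    have h6 : (k' + 1) * s = k' * s + s := by ring
    omega
  rcases Nat.eq_or_lt_of_le hge with hc | hc
  · subst hc
    exact Or.inl ⟨by omega, hM'⟩
  · have hc' : k' = k + 1 := by omega
    subst hc'
    exact Or.inr ⟨by omega, hM'⟩

private theorem mem_iff {h ℓ k : ℕ} (hl : ℓ < h) (hk : k + 1 ≤ ℓ) {b : Fin 8 →₀ ℕ}
    (hb0 : b 0 = (k + 1) * (2 * h - 1))
    (hb1 : k * (2 * h - 1) + 2 * (ℓ - k) + b 1 = ℓ * (2 * h - 1)) (T : Finset (Fin 8)) :
    T ∈ fam (PP h ℓ) b ↔ ind T ≤ b ∧ (((1 : Fin 8) ∉ T ∧ M k ⇑(b - ind T)) ∨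
      ((0 : Fin 8) ∉ T ∧ M (k + 1) ⇑(b - ind T))) := by
  have hlohi : k * (2 * h - 1) + 2 * (ℓ - k) + 1 ≤ (k + 1) * (2 * h - 1) := by
    have : (k + 1) * (2 * h - 1) = k * (2 * h - 1) + (2 * h - 1) := by ring
    omega
  rw [mem_fam]
  constructor
  · rintro ⟨hle, e, he0, he1, hLL⟩
    refine ⟨hle, ?_⟩
    rw [Finsupp.tsub_apply] at he0 he1
    rcases LL_cases hl (k := k) (e := e) (by omega) (by omega) hLL with ⟨h5, h6⟩ | ⟨h5, h6⟩
    · refine Or.inl ⟨fun hT => ?_, h6⟩
      have h7 := ind_of_mem hT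
      have h8 := hle 1
      omega
    · refine Or.inr ⟨fun hT => ?_, h6⟩
      have h7 := ind_of_mem hT
      have h8 := hle 0
      omega
  · rintro ⟨hle, h5 | h5⟩
    · refine ⟨hle, k * (2 * h - 1) + 2 * (ℓ - k), ?_, ?_, k, 2 * (ℓ - k), by omega, le_rfl, rfl,
        Or.inl ⟨by omega, h5.2⟩⟩
      · rw [Finsupp.tsub_apply]
        have := ind_le_one T 0
        omega
      · rw [Finsupp.tsub_apply, ind_of_notMem h5.1]
        omega
    · refine ⟨hle, (k + 1) * (2 * h - 1), ?_, ?_, k + 1, 0, hk, by omega, by omega,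
        Or.inl ⟨by omega, h5.2⟩⟩
      · rw [Finsupp.tsub_apply, ind_of_notMem h5.1]
        omega
      · rw [Finsupp.tsub_apply]
        have := ind_le_one T 1
        omega

private theorem ind_mono {S T : Finset (Fin 8)} (h : S ⊆ T) (v : Fin 8) : ind S v ≤ ind T v := by
  by_cases hv : v ∈ S
  · rw [ind_of_mem hv, ind_of_mem (h hv)]
  · rw [ind_of_notMem hv]
    exact Nat.zero_le _

private theorem M_sub {k : ℕ} {b : Fin 8 →₀ ℕ} {S T : Finset (Fin 8)}
    (h : ∀ v ∈ mm, v ∈ S → v ∈ T) (hM : M k ⇑(b - ind T)) : M k ⇑(b - ind S) := by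
  intro v hv
  have h1 := hM v hv
  rw [Finsupp.tsub_apply] at h1 ⊢
  have h2 : ind S v ≤ ind T v := by
    by_cases hS : v ∈ S
    · rw [ind_of_mem hS, ind_of_mem (h v hv hS)]
    · rw [ind_of_notMem hS]
      exact Nat.zero_le _
  omega

private theorem mm_ne : ∀ v ∈ mm, v ≠ 0 ∧ v ≠ 1 := by decide

private theorem X6_iff : ∀ T : Finset (Fin 8), T ⊆ X6 ↔ 0 ∉ T ∧ 1 ∉ T := by decide +kernel

theorem main : TaskCross := by
  intro hSusp hMf h ℓ k hl hk b hb0 hb1
  have hb0' : 1 ≤ b 0 := by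
    rw [hb0]
    exact Nat.mul_pos (by omega) (by omega)
  have hb1' : 1 ≤ b 1 := by
    obtain ⟨m, hm⟩ : ∃ m, ℓ = k + 1 + m := ⟨ℓ - (k + 1), by omega⟩
    obtain ⟨s, hs⟩ : ∃ s, 2 * h - 1 = s + 3 := ⟨2 * h - 4, by omega⟩
    rw [hs, hm] at hb1
    have h1 : (k + 1 + m) * (s + 3) = k * (s + 3) + (s + 3) + m * s + 3 * m := by ring
    have h2 : 2 * (k + 1 + m - k) = 2 + 2 * m := by omega
    rw [h1, h2] at hb1
    omega
  have hm := mem_iff hl hk hb0 hb1
  refine hSusp 8 (fam (PP h ℓ) b) 1 0 (by decide) ?_ ?_ ?_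
  · intro T j hT
    rw [hm] at hT ⊢
    obtain ⟨h1, h2⟩ := hT
    have hsub : T ⊆ insert j T := Finset.subset_insert j T
    refine ⟨fun v => le_trans (ind_mono hsub v) (h1 v), ?_⟩
    rcases h2 with ⟨h2, h3⟩ | ⟨h2, h3⟩
    · exact Or.inl ⟨fun h4 => h2 (hsub h4), M_sub (fun v _ h4 => hsub h4) h3⟩
    · exact Or.inr ⟨fun h4 => h2 (hsub h4), M_sub (fun v _ h4 => hsub h4) h3⟩
  · intro T hT h1T
    rw [hm] at hT ⊢
    obtain ⟨h1, h2⟩ := hT
    have h3 : M k ⇑(b - ind T) := by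
      rcases h2 with ⟨-, h3⟩ | ⟨-, h3⟩
      · exact h3
      · exact M_anti h3
    refine ⟨fun v => ?_, Or.inl ⟨?_, M_sub (fun v hv h4 => ?_) h3⟩⟩
    · by_cases hv : v = 0
      · subst hv
        exact le_trans (ind_le_one _ _) hb0'
      · by_cases hvT : v ∈ T
        · exact le_trans (ind_le_one _ _) (by
            have := h1 v
            rwa [ind_of_mem hvT] at this)
        · rw [ind_of_notMem (by
            rw [Finset.mem_insert]
            tauto)]
          exact Nat.zero_le _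
    · rw [Finset.mem_insert]
      rintro (h4 | h4)
      · exact absurd h4 (by decide)
      · exact h1T h4
    · rcases Finset.mem_insert.1 h4 with h5 | h5
      · exact absurd h5 (mm_ne v hv).1
      · exact h5
  · have hlk : lk 1 (fam (PP h ℓ) b) = Mf (k + 1) b := by
      ext T
      rw [mem_lk, mem_Mf, hm, X6_iff]
      constructor
      · rintro ⟨h1, h2, h3⟩
        have hsub : T ⊆ insert 1 T := Finset.subset_insert 1 T
        rcases h3 with ⟨h3, -⟩ | ⟨h3, h4⟩
        · exact absurd (Finset.mem_insert_self 1 T) h3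
        · refine ⟨⟨fun h5 => h3 (hsub h5), h1⟩, fun v => le_trans (ind_mono hsub v) (h2 v),
            M_sub (fun v _ h5 => hsub h5) h4⟩
      · rintro ⟨⟨h1, h2⟩, h3, h4⟩
        refine ⟨h2, fun v => ?_, Or.inr ⟨?_, M_sub (fun v hv h5 => ?_) h4⟩⟩
        · by_cases hv : v = 1
          · subst hv
            exact le_trans (ind_le_one _ _) hb1'
          · by_cases hvT : v ∈ T
            · exact le_trans (ind_le_one _ _) (by
                have := h3 v
                rwa [ind_of_mem hvT] at this)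
            · rw [ind_of_notMem (by
                rw [Finset.mem_insert]
                tauto)]
              exact Nat.zero_le _
        · rw [Finset.mem_insert]
          rintro (h5 | h5)
          · exact absurd h5 (by decide)
          · exact h1 h5
        · rcases Finset.mem_insert.1 h5 with h6 | h6
          · exact absurd h6 (mm_ne v hv).2
          · exact h6
    rw [hlk]
    exact hMf (k + 1) b

end Pool.Agent.Q123.FDP.TCross
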