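import Pool.Agent.Q123.FDP.Stmts

set_option autoImplicit false

namespace Pool.Agent.Q123.FDP.TCrossCone

open Finset Pool.Agent.Q123.KB Pool.Agent.H677R3.EdgeReg Pool.Agent.Q123.FDP

lemma g_pos : ∀ g ∈ G1, (0 : Fin 8) ∉ g ∧ (1 : Fin 8) ∉ g := by
  intro g hg
  simp only [G1, List.mem_cons, List.not_mem_nil, or_false] at hg
  rcases hg with rfl | rfl | rfl | rfl | rfl | rfl | rfl | rfl | rfl <;> simp

lemma m_pos : (0 : Fin 8) ∉ mm ∧ (1 : Fin 8) ∉ mm := by decide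

lemma M_congr {k : ℕ} {u w : Fin 8 → ℕ} (h : ∀ v, v ≠ 0 → u v = w v) (hM : M k u) : M k w := by
  intro v hv
  have hv0 : v ≠ 0 := by
    rintro rfl
    exact m_pos.1 hv
  rw [← h v hv0]
  exact hM v hv

lemma N_congr {k : ℕ} {u w : Fin 8 → ℕ} (h : ∀ v, v ≠ 0 → u v = w v) (hN : N k u) : N k w := by
  obtain ⟨g, hg, hu⟩ := hN
  refine ⟨g, hg, fun v => ?_⟩
  by_cases hv0 : v = 0
  · subst hv0
    rw [if_neg m_pos.1, if_neg (g_pos g hg).1]
    exact Nat.zero_le _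
  · rw [← h v hv0]
    exact hu v

lemma LL_congr {h ℓ e : ℕ} {u w : Fin 8 → ℕ} (hc : ∀ v, v ≠ 0 → u v = w v) (hL : LL h ℓ e u) :
    LL h ℓ e w := by
  obtain ⟨k, j, h1, h2, h3, h4⟩ := hL
  refine ⟨k, j, h1, h2, h3, ?_⟩
  rcases h4 with ⟨h5, h6⟩ | h6
  · exact Or.inl ⟨h5, M_congr hc h6⟩
  · exact Or.inr (N_congr hc h6)

lemma M_of_N {k : ℕ} {u : Fin 8 → ℕ} (hN : N k u) : M k u := by
  obtain ⟨g, hg, hu⟩ := hN
  intro v hv
  have := hu v
  rw [if_pos hv] at this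
  omega

lemma M_mono {k k' : ℕ} (h : k ≤ k') {u : Fin 8 → ℕ} (hM : M k' u) : M k u :=
  fun v hv => h.trans (hM v hv)

theorem main : TaskCrossCone := by
  intro hCone h ℓ k k' j j' hℓ hkk hk' hj hj' b hb0 hb1 hnot
  refine hCone 8 _ 0 fun T hT => ?_
  by_cases h0T : (0 : Fin 8) ∈ T
  · rwa [Finset.insert_eq_of_mem h0T]
  rw [mem_fam] at hT ⊢
  obtain ⟨hle, e, he0, he1, hL⟩ := hT
  have hind : ∀ v, ind (insert (0 : Fin 8) T) v = ind T v + if v = 0 then 1 else 0 := by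
    intro v
    rw [ind_apply, ind_apply]
    by_cases hv : v = 0
    · subst hv
      simp [h0T]
    · simp [hv]
  obtain ⟨s, hs⟩ : ∃ s, s = 2 * h - 1 := ⟨_, rfl⟩
  have hk1 : 1 ≤ k' := by omega
  have hsk : s ≤ k' * s := Nat.le_mul_of_pos_left _ hk1
  have hs1 : 2 * ℓ + 1 ≤ s := by omega
  have hb0pos : 1 ≤ b 0 := by
    rw [hb0, ← hs]
    omega
  have hT0 : ind T (0 : Fin 8) = 0 := by rw [ind_apply, if_neg h0T]
  have hle' : ind (insert (0 : Fin 8) T) ≤ b := by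
    intro v
    rw [hind]
    by_cases hv : v = 0
    · subst hv
      rw [hT0, if_pos rfl]
      omega
    · rw [if_neg hv, add_zero]
      exact hle v
  have hu : ∀ v, v ≠ 0 → (b - ind T) v = (b - ind (insert (0 : Fin 8) T)) v := by
    intro v hv
    rw [Finsupp.tsub_apply, Finsupp.tsub_apply, hind, if_neg hv, add_zero]
  have hu0 : (b - ind (insert (0 : Fin 8) T)) 0 = b 0 - 1 := by
    rw [Finsupp.tsub_apply, hind, if_pos rfl, hT0]
  have hu00 : (b - ind T) 0 = b 0 := by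
    rw [Finsupp.tsub_apply, hT0, Nat.sub_zero]
  have hu1 : (b - ind T) 1 = (b - ind (insert (0 : Fin 8) T)) 1 := hu 1 (by decide)
  have hu1' : b 1 ≤ (b - ind T) 1 + 1 := by
    rw [Finsupp.tsub_apply, ind_apply]
    split_ifs <;> omega
  refine ⟨hle', ?_⟩
  rw [hu00] at he0
  by_cases heb : e = b 0
  · -- the exponent is the last one
    have hM : M k' ⇑(b - ind T) := by
      obtain ⟨k₁, j₁, h1, h2, h3, h4⟩ := hL
      have hkk1 : k₁ = k' := by
        rw [heb, hb0, ← hs] at h3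
        have hj1 : j₁ < s := by omega
        have hj2 : j' < s := by omega
        have e1 : (k₁ * s + j₁) / s = k₁ := by
          rw [mul_comm, Nat.mul_add_div (by omega), Nat.div_eq_of_lt hj1, add_zero]
        have e2 : (k' * s + j') / s = k' := by
          rw [mul_comm, Nat.mul_add_div (by omega), Nat.div_eq_of_lt hj2, add_zero]
        rw [← e1, ← h3, e2]
      subst hkk1
      rcases h4 with ⟨-, h5⟩ | h5
      · exact h5
      · exact M_of_N h5
    have hM' : M k' ⇑(b - ind (insert (0 : Fin 8) T)) := M_congr hu hM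
    -- an exponent strictly between
    obtain ⟨e', k₂, j₂, h1, h2, h3, h4, h5, h6, h7⟩ : ∃ e' k₂ j₂ : ℕ, k₂ ≤ ℓ ∧ j₂ ≤ 2 * (ℓ - k₂) ∧
        e' = k₂ * s + j₂ ∧ j₂ % 2 = 0 ∧ k₂ ≤ k' ∧ k * s + j + 1 ≤ e' ∧ e' + 1 ≤ b 0 := by
      have hks : (k + 1) * s ≤ k' * s := Nat.mul_le_mul_right _ hkk
      have hks1 : (k + 1) * s = k * s + s := by ring
      by_cases hjl : j < 2 * (ℓ - k)
      · refine ⟨k * s + 2 * (ℓ - k), k, 2 * (ℓ - k), by omega, le_rfl, rfl, by omega, by omega,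
          by omega, ?_⟩
        rw [hb0, ← hs]
        omega
      · have hje : j = 2 * (ℓ - k) := by omega
        refine ⟨(k + 1) * s, k + 1, 0, by omega, by omega, rfl, rfl, by omega, by omega, ?_⟩
        rw [hb0, ← hs]
        by_cases hk2 : k' = k + 1
        · have hj0 : j' ≠ 0 := fun hj0 => hnot ⟨hje, hk2, hj0⟩
          subst hk2
          omega
        · have hk3 : k + 2 ≤ k' := by omega
          have hks2 : (k + 2) * s ≤ k' * s := Nat.mul_le_mul_right _ hk3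
          have hks3 : (k + 2) * s = k * s + 2 * s := by ring
          omega
    refine ⟨e', by rw [hu0]; omega, ?_, k₂, j₂, h1, h2, by rw [h3, hs], Or.inl ⟨h4, M_mono h5 hM'⟩⟩
    rw [← hu1, ← hs]
    rw [← hs] at hb1
    omega
  · refine ⟨e, by rw [hu0]; omega, by rw [← hu1]; exact he1, LL_congr hu hL⟩

end Pool.Agent.Q123.FDP.TCrossCone
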