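import Pool.Agent.Q123.FDP.Stmts

set_option autoImplicit false

namespace Pool.Agent.Q123.FDP.TDep

open Finset Pool.Agent.Q123.KB Pool.Agent.H677R3.EdgeReg Pool.Agent.Q123.FDP

theorem b00 (h ℓ : ℕ) : b0 h ℓ 0 = 2 * h - 1 := by simp [b0]

theorem b01 (h ℓ : ℕ) : b0 h ℓ 1 = (ℓ - 1) * (2 * h - 1) := by simp [b0]

theorem b0v (h ℓ : ℕ) (v : Fin 8) (h0 : v ≠ 0) (h1 : v ≠ 1) : b0 h ℓ v = 1 := by
  simp [b0, h0, h1]

theorem memX : ∀ v : Fin 8, v ∈ X6 ↔ v ≠ 0 ∧ v ≠ 1 := by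
  unfold X6
  decide

theorem gX : ∀ g ∈ G1, ∀ v : Fin 8, v ∈ g → v ≠ 0 ∧ v ≠ 1 := by
  unfold G1
  decide +kernel

theorem mX : ∀ v : Fin 8, v ∈ mm → v ≠ 0 ∧ v ≠ 1 := by
  unfold mm
  decide

theorem main : TaskDep := by
  intro h ℓ hh hl
  set s : ℕ := 2 * h - 1 with hs
  have hs3 : 3 ≤ s := by omega
  obtain ⟨A, hA⟩ : ∃ A, A = (ℓ - 1) * s := ⟨_, rfl⟩
  have hAs : ℓ * s = A + s := by
    obtain ⟨m, rfl⟩ : ∃ m, ℓ = m + 1 := ⟨ℓ - 1, by omega⟩
    rw [hA]
    simp only [Nat.add_sub_cancel]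
    ring
  have hA1 : 1 ≤ A := by
    rw [hA]
    exact Nat.mul_pos (by omega) (by omega)
  ext T
  rw [mem_fam]
  have hu : ∀ v : Fin 8, (b0 h ℓ - ind T) v = b0 h ℓ v - (if v ∈ T then 1 else 0) := by
    intro v
    rw [Finsupp.tsub_apply, ind_apply]
  have hmem : T ∈ RPf ↔ T ⊆ X6 ∧ ∃ g ∈ (mm :: G1), Disjoint g T := by
    unfold RPf
    rw [Finset.mem_filter, Finset.mem_powerset]
  rw [hmem]
  constructor
  · rintro ⟨hle, e, he0, he1, k, j, hk, hj, hekj, hor⟩
    rw [hu 0, b00] at he0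
    rw [hu 1, b01] at he1
    rw [← hs] at he0 he1 hekj
    rw [← hA, hAs] at he1
    have hT0 : (0 : Fin 8) ∉ T := by
      intro hT
      rw [if_pos hT] at he0
      split_ifs at he1 <;> omega
    have hT1 : (1 : Fin 8) ∉ T := by
      intro hT
      rw [if_pos hT] at he1
      rw [if_neg hT0] at he0
      omega
    rw [if_neg hT0] at he0
    rw [if_neg hT1] at he1
    have hes : e = s := by omega
    refine ⟨fun v hv => (memX v).mpr ⟨fun h0 => hT0 (h0 ▸ hv), fun h1 => hT1 (h1 ▸ hv)⟩, ?_⟩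
    have hM : M 1 ⇑(b0 h ℓ - ind T) → ∃ g ∈ (mm :: G1), Disjoint g T := by
      intro hM
      refine ⟨mm, List.mem_cons_self, Finset.disjoint_left.mpr fun v hv hvT => ?_⟩
      have h1 := hM v hv
      rw [hu v, b0v h ℓ v (mX v hv).1 (mX v hv).2, if_pos hvT] at h1
      omega
    have hN : N 0 ⇑(b0 h ℓ - ind T) → ∃ g ∈ (mm :: G1), Disjoint g T := by
      rintro ⟨g, hg, hv⟩
      refine ⟨g, List.mem_cons_of_mem _ hg, Finset.disjoint_left.mpr fun v hvg hvT => ?_⟩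
      have h1 := hv v
      rw [hu v, b0v h ℓ v (gX g hg v hvg).1 (gX g hg v hvg).2, if_pos hvT, if_pos hvg] at h1
      split_ifs at h1 <;> omega
    rcases k with _ | _ | k
    · have hjs : j = s := by omega
      rcases hor with ⟨hj2, _⟩ | hor
      · omega
      · exact hN hor
    · rcases hor with ⟨_, hor⟩ | ⟨g, hg, hv⟩
      · exact hM hor
      · refine hM fun v hvm => ?_
        have h1 := hv v
        rw [if_pos hvm] at h1
        omega
    · exfalso
      have h2 : (k + 1 + 1) * s = k * s + s + s := by ring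
      rw [h2] at hekj
      omega
  · rintro ⟨hTX, g, hg, hgT⟩
    have hT0 : (0 : Fin 8) ∉ T := fun hT => ((memX 0).mp (hTX hT)).1 rfl
    have hT1 : (1 : Fin 8) ∉ T := fun hT => ((memX 1).mp (hTX hT)).2 rfl
    refine ⟨fun v => ?_, s, ?_, ?_, ?_⟩
    · rw [ind_apply]
      split_ifs with hv
      · have h1 := (memX v).mp (hTX hv)
        rw [b0v h ℓ v h1.1 h1.2]
      · exact Nat.zero_le _
    · rw [hu 0, b00, if_neg hT0]
      omega
    · rw [hu 1, b01, if_neg hT1, ← hs, ← hA, hAs]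
      omega
    · rcases List.mem_cons.mp hg with hg | hg
      · subst hg
        refine ⟨1, 0, by omega, by omega, by rw [← hs]; ring, Or.inl ⟨by omega, fun v hv => ?_⟩⟩
        rw [hu v, b0v h ℓ v (mX v hv).1 (mX v hv).2,
          if_neg (fun hvT => Finset.disjoint_left.mp hgT hv hvT)]
      · refine ⟨0, s, by omega, by omega, by rw [← hs]; ring, Or.inr ⟨g, hg, fun v => ?_⟩⟩
        by_cases hv : v ∈ g
        · rw [hu v, b0v h ℓ v (gX g hg v hv).1 (gX g hg v hv).2,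
            if_neg (fun hvT => Finset.disjoint_left.mp hgT hv hvT), if_pos hv]
          split_ifs <;> omega
        · rw [if_neg hv]
          split_ifs <;> omega

end Pool.Agent.Q123.FDP.TDep
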