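import Pool.Agent.Q123.FDP.Stmts

set_option autoImplicit false

/-! The cases in which an end of the range is empty (helper158). -/

namespace Pool.Agent.Q123.FDP.TEnds

open Finset Pool.Agent.Q123.KB Pool.Agent.H677R3.EdgeReg Pool.Agent.Q123.FDP

theorem mm_ge : ∀ v ∈ mm, 2 ≤ (v : ℕ) := by decide

theorem G1_ge : ∀ g ∈ G1, ∀ v ∈ g, 2 ≤ (v : ℕ) := by decide +kernel

theorem LL_congr {h l e : ℕ} {u w : Fin 8 → ℕ} (huw : ∀ v : Fin 8, 2 ≤ (v : ℕ) → u v = w v)
    (hL : LL h l e u) : LL h l e w := by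
  obtain ⟨k, j, hk, hj, he, hor⟩ := hL
  refine ⟨k, j, hk, hj, he, ?_⟩
  rcases hor with ⟨h1, hM⟩ | ⟨g, hg, hle⟩
  · left
    refine ⟨h1, fun v hv => ?_⟩
    rw [← huw v (mm_ge v hv)]
    exact hM v hv
  · right
    refine ⟨g, hg, fun v => ?_⟩
    by_cases hv : 2 ≤ (v : ℕ)
    · rw [← huw v hv]
      exact hle v
    · rw [if_neg fun h => hv (mm_ge v h), if_neg fun h => hv (G1_ge g hg v h)]
      exact Nat.zero_le _

theorem LL_le {h l e : ℕ} (hh : 2 ≤ h) {u : Fin 8 → ℕ} (hL : LL h l e u) : e ≤ l * (2 * h - 1) := by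
  obtain ⟨k, j, hk, hj, he, -⟩ := hL
  obtain ⟨d, rfl⟩ : ∃ d, l = k + d := ⟨l - k, by omega⟩
  have h3 : 2 ≤ 2 * h - 1 := by omega
  have h4 : d * 2 ≤ d * (2 * h - 1) := Nat.mul_le_mul_left d h3
  have h5 : (k + d) * (2 * h - 1) = k * (2 * h - 1) + d * (2 * h - 1) := by ring
  rw [h5, he]
  have h6 : k + d - k = d := by omega
  rw [h6] at hj
  omega

theorem main : Pool.Agent.Q123.FDP.TaskEnds := by
  intro hC h l hh b hcases
  have key : ∀ v : Fin 8, (v = 0 ∨ v = 1) → (∀ T ∈ fam (PP h l) b, v ∉ T → 1 ≤ b v ∧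
      ∃ e, e ≤ (b - ind (insert v T)) 0 ∧ l * (2 * h - 1) ≤ (b - ind (insert v T)) 1 + e ∧
        LL h l e ⇑(b - ind T)) → FI (fam (PP h l) b) := by
    intro v hv H
    refine hC 8 _ v fun T hT => ?_
    by_cases hvT : v ∈ T
    · rw [Finset.insert_eq_of_mem hvT]
      exact hT
    · obtain ⟨h1, e, he0, he1, hL⟩ := H T hT hvT
      rw [mem_fam] at hT ⊢
      obtain ⟨hle, -⟩ := hT
      refine ⟨fun w => ?_, e, he0, he1, LL_congr (fun w hw => ?_) hL⟩
      · by_cases hwv : w = v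
        · subst hwv
          rw [ind_apply, if_pos (Finset.mem_insert_self _ _)]
          exact h1
        · have h2 := hle w
          rw [ind_apply] at h2 ⊢
          have h3 : (w ∈ insert v T) ↔ w ∈ T := by
            rw [Finset.mem_insert]
            exact ⟨fun h => h.resolve_left hwv, Or.inr⟩
          rw [if_congr h3 rfl rfl]
          exact h2
      · have hwv : w ≠ v := by
          rintro rfl
          rcases hv with rfl | rfl
          · exact absurd hw (by decide)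
          · exact absurd hw (by decide)
        have h3 : (w ∈ insert v T) ↔ w ∈ T := by
          rw [Finset.mem_insert]
          exact ⟨fun h => h.resolve_left hwv, Or.inr⟩
        rw [Finsupp.tsub_apply, Finsupp.tsub_apply, ind_apply, ind_apply, if_congr h3 rfl rfl]
  have n01 : (0 : Fin 8) ≠ 1 := by decide
  rcases hcases with h1 | h1 | ⟨lo, hlo, h1⟩
  · refine key 0 (Or.inl rfl) fun T hT h0 => ?_
    rw [mem_fam] at hT
    obtain ⟨hle, e, he0, he1, hL⟩ := hT
    have e0 : (b - ind T) 0 = b 0 := by rw [Finsupp.tsub_apply, ind_apply, if_neg h0, tsub_zero]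
    rw [e0] at he0
    have hne : e ≠ b 0 := by
      rintro rfl
      exact h1 _ hL
    have e1 : (b - ind (insert 0 T)) 0 = b 0 - 1 := by
      rw [Finsupp.tsub_apply, ind_apply, if_pos (Finset.mem_insert_self _ _)]
    have h3 : ((1 : Fin 8) ∈ insert 0 T) ↔ 1 ∈ T := by
      rw [Finset.mem_insert]
      exact ⟨fun h => h.resolve_left n01.symm, Or.inr⟩
    have e2 : (b - ind (insert 0 T)) 1 = (b - ind T) 1 := by
      rw [Finsupp.tsub_apply, Finsupp.tsub_apply, ind_apply, ind_apply, if_congr h3 rfl rfl]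
    refine ⟨by omega, e, ?_, ?_, hL⟩
    · rw [e1]
      omega
    · rw [e2]
      exact he1
  · refine key 1 (Or.inr rfl) fun T hT h0 => ?_
    rw [mem_fam] at hT
    obtain ⟨hle, e, he0, he1, hL⟩ := hT
    have e0 : (b - ind T) 1 = b 1 := by rw [Finsupp.tsub_apply, ind_apply, if_neg h0, tsub_zero]
    rw [e0] at he1
    have e1 : (b - ind (insert 1 T)) 1 = b 1 - 1 := by
      rw [Finsupp.tsub_apply, ind_apply, if_pos (Finset.mem_insert_self _ _)]
    have h3 : ((0 : Fin 8) ∈ insert 1 T) ↔ 0 ∈ T := by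
      rw [Finset.mem_insert]
      exact ⟨fun h => h.resolve_left n01, Or.inr⟩
    have e2 : (b - ind (insert 1 T)) 0 = (b - ind T) 0 := by
      rw [Finsupp.tsub_apply, Finsupp.tsub_apply, ind_apply, ind_apply, if_congr h3 rfl rfl]
    refine ⟨by omega, e, ?_, ?_, hL⟩
    · rw [e2]
      exact he0
    · rw [e1]
      omega
  · refine key 1 (Or.inr rfl) fun T hT h0 => ?_
    rw [mem_fam] at hT
    obtain ⟨hle, e, he0, he1, hL⟩ := hT
    have e0 : (b - ind T) 1 = b 1 := by rw [Finsupp.tsub_apply, ind_apply, if_neg h0, tsub_zero]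
    rw [e0] at he1
    have hne : e ≠ lo := by
      rintro rfl
      exact h1 _ hL
    have hel := LL_le hh hL
    have e1 : (b - ind (insert 1 T)) 1 = b 1 - 1 := by
      rw [Finsupp.tsub_apply, ind_apply, if_pos (Finset.mem_insert_self _ _)]
    have h3 : ((0 : Fin 8) ∈ insert 1 T) ↔ 0 ∈ T := by
      rw [Finset.mem_insert]
      exact ⟨fun h => h.resolve_left n01, Or.inr⟩
    have e2 : (b - ind (insert 1 T)) 0 = (b - ind T) 0 := by
      rw [Finsupp.tsub_apply, Finsupp.tsub_apply, ind_apply, ind_apply, if_congr h3 rfl rfl]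
    refine ⟨by omega, e, ?_, ?_, hL⟩
    · rw [e2]
      exact he0
    · rw [e1]
      omega

end Pool.Agent.Q123.FDP.TEnds
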