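import Pool.Agent.Q123.FDP.Stmts

set_option autoImplicit false

namespace Pool.Agent.Q123.FDP.TFin

open Finset Pool.Agent.Q123.KB Pool.Agent.H677R3.EdgeReg

theorem main : TaskFin := by
  classical
  intro n A hA
  obtain ⟨m, hm⟩ : ∃ m : ℕ, ∀ a ∈ A, ∀ v, a v ≤ m := by
    refine ⟨∑ a ∈ hA.toFinset, ∑ v, a v, ?_⟩
    intro a ha v
    have h1 : a v ≤ ∑ v, a v := Finset.single_le_sum (f := fun v => a v)
      (fun _ _ => Nat.zero_le _) (Finset.mem_univ v)
    have h2 : ∑ v, a v ≤ ∑ a ∈ hA.toFinset, ∑ v, a v :=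
      Finset.single_le_sum (f := fun a : Fin n →₀ ℕ => ∑ v, a v)
        (fun _ _ => Nat.zero_le _) (hA.mem_toFinset.2 ha)
    exact h1.trans h2
  obtain ⟨c, hc⟩ : ∃ c : Fin n →₀ ℕ, ∀ v, c v = m :=
    ⟨Finsupp.equivFunOnFinite.symm (fun _ => m), fun _ => rfl⟩
  refine ⟨Finset.Iic c, ?_⟩
  intro b hb
  rw [Finset.mem_Iic] at hb
  have hex : ∃ v, m < b v := by
    by_contra h
    push Not at h
    apply hb
    intro v
    rw [hc]
    exact h v
  obtain ⟨v, hv⟩ := hex
  refine ⟨v, ?_⟩
  intro T hT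
  rw [mem_fam] at hT ⊢
  obtain ⟨h1, a, ha, h2⟩ := hT
  by_cases hvT : v ∈ T
  · rw [Finset.insert_eq_of_mem hvT]
    exact ⟨h1, a, ha, h2⟩
  refine ⟨?_, a, ha, ?_⟩
  · intro w
    rw [ind_apply]
    by_cases hw : w = v
    · subst hw
      rw [if_pos (Finset.mem_insert_self _ _)]
      omega
    · have h3 := h1 w
      rw [ind_apply] at h3
      by_cases hwT : w ∈ T
      · rw [if_pos hwT] at h3
        rw [if_pos (Finset.mem_insert_of_mem hwT)]
        exact h3
      · rw [if_neg (by
          rw [Finset.mem_insert]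
          push Not
          exact ⟨hw, hwT⟩)]
        exact Nat.zero_le _
  · intro w
    have h3 := h2 w
    rw [Finsupp.tsub_apply, ind_apply] at h3 ⊢
    by_cases hw : w = v
    · subst hw
      rw [if_pos (Finset.mem_insert_self _ _)]
      have := hm a ha w
      omega
    · by_cases hwT : w ∈ T
      · rw [if_pos hwT] at h3
        rw [if_pos (Finset.mem_insert_of_mem hwT)]
        exact h3
      · rw [if_neg hwT] at h3
        rw [if_neg (by
          rw [Finset.mem_insert]
          push Not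
          exact ⟨hw, hwT⟩)]
        exact h3

end Pool.Agent.Q123.FDP.TFin
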