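import Pool.Agent.Q123.FDP.Stmts

set_option autoImplicit false

namespace Pool.Agent.Q123.FDP.TMf

open Finset Pool.Agent.Q123.KB Pool.Agent.H677R3.EdgeReg Pool.Agent.Q123.FDP

theorem rk_zero {n : ℕ} (K : Type) [Field K] {F : Finset (Finset (Fin n))}
    (hF : ∀ T ∈ F, T = ∅) (i : ℕ) : rk K F i = 0 := by
  unfold rk
  have : (cchains K F i).map (cD K n) = ⊥ := by
    rw [eq_bot_iff]
    rintro _ ⟨a, ha, rfl⟩
    rw [Submodule.mem_bot]
    change cd a = 0
    ext1 T
    unfold cd
    refine Finset.sum_eq_zero fun j hj => ?_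
    have h1 : a (insert j T) = 0 := by
      by_contra h
      exact Finset.insert_ne_empty j T (hF _ (ha _ h).1)
    rw [h1, mul_zero]
  rw [this]
  exact finrank_bot K _

theorem fi_small {n : ℕ} {F : Finset (Finset (Fin n))} (hF : ∀ T ∈ F, T = ∅) : FI F := by
  intro K K' _ _ i
  have hD : Pool.Agent.Q123.KB.Down F := by
    intro T j h
    exact absurd (hF _ h) (Finset.insert_ne_empty j T)
  have h1 := comb_add (K := K) hD i
  have h2 := comb_add (K := K') hD i
  rw [rk_zero K hF, rk_zero K hF] at h1
  rw [rk_zero K' hF, rk_zero K' hF] at h2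
  omega

theorem main : TaskMf := by
  intro hC k b
  by_cases h : ∃ v ∈ X6, 1 ≤ b v ∧ (v ∈ mm → k + 1 ≤ b v)
  · obtain ⟨v, hv6, hv1, hvk⟩ := h
    refine hC 8 _ v ?_
    intro T hT
    by_cases hvT : v ∈ T
    · rwa [insert_eq_of_mem hvT]
    unfold Mf at hT ⊢
    simp only [Finset.mem_filter, Finset.mem_univ, true_and] at hT ⊢
    obtain ⟨h1, h2, h3⟩ := hT
    refine ⟨Finset.insert_subset hv6 h1, ?_, ?_⟩
    · intro w
      by_cases hw : w = v
      · subst hw
        rw [ind_apply, if_pos (mem_insert_self ..)]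
        exact hv1
      · have h4 := h2 w
        rw [ind_apply] at h4 ⊢
        simp only [Finset.mem_insert, hw, false_or]
        exact h4
    · intro w hw
      have h4 := h3 w hw
      rw [Finsupp.tsub_apply, ind_apply] at h4 ⊢
      by_cases hwv : w = v
      · subst hwv
        have := hvk hw
        rw [if_pos (mem_insert_self ..)]
        omega
      · simp only [Finset.mem_insert, hwv, false_or]
        exact h4
  · refine fi_small ?_
    intro T hT
    unfold Mf at hT
    simp only [Finset.mem_filter, Finset.mem_univ, true_and] at hT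
    obtain ⟨h1, h2, h3⟩ := hT
    by_contra hne
    obtain ⟨v, hv⟩ := Finset.nonempty_iff_ne_empty.2 hne
    apply h
    have h5 := h2 v
    rw [ind_apply, if_pos hv] at h5
    refine ⟨v, h1 hv, h5, fun hm => ?_⟩
    have h6 := h3 v hm
    rw [Finsupp.tsub_apply, ind_apply, if_pos hv] at h6
    omega

end Pool.Agent.Q123.FDP.TMf
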