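import Pool.Agent.Q123.FDP.Stmts

set_option autoImplicit false

/-! # TaskMob: the complexes `Hf W` are field-independent (by helper252) -/

namespace Pool.Agent.Q123.FDP.TMob

open Finset Pool.Agent.Q123.KB Pool.Agent.Q123.FDP

/-- the certificates (for the other `W` the empty list) -/
def table : List (Finset (Fin 8) × List (Finset (Fin 8) × Fin 8) × ℕ) :=
  [({2, 3, 4, 5}, [({4}, 4)], 0),
  ({2, 3, 4, 6}, [({3}, 3)], 0),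
  ({2, 3, 4, 7}, [({2}, 2)], 0),
  ({2, 3, 5, 6}, [({2}, 2)], 1),
  ({2, 3, 5, 7}, [({3}, 3)], 1),
  ({2, 3, 6, 7}, [({2}, 2)], 1),
  ({2, 4, 5, 6}, [({2}, 2)], 1),
  ({2, 4, 5, 7}, [({2}, 2)], 1),
  ({2, 4, 6, 7}, [({4}, 4)], 1),
  ({2, 5, 6, 7}, [({5}, 5)], 1),
  ({3, 4, 5, 6}, [({3}, 3)], 1),
  ({3, 4, 5, 7}, [({3}, 3)], 1),
  ({3, 4, 6, 7}, [({4}, 4)], 1),
  ({3, 5, 6, 7}, [({5}, 5)], 1),
  ({4, 5, 6, 7}, [({6}, 6)], 1),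
  ({2, 3, 4, 5, 6}, [({2}, 2), ({4, 6}, 4), ({3, 5}, 3), ({2, 4}, 2), ({2, 3}, 2)], 0),
  ({2, 3, 4, 5, 7}, [({2}, 2), ({4, 7}, 4), ({3, 4}, 3), ({2, 5}, 2), ({2, 3}, 2)], 0),
  ({2, 3, 4, 6, 7}, [({2}, 2), ({3, 7}, 3), ({3, 4}, 4), ({2, 6}, 2), ({2, 4}, 2)], 0),
  ({2, 3, 5, 6, 7}, [({2}, 2), ({3, 6}, 3), ({3, 5}, 5), ({2, 7}, 2), ({2, 5}, 2)], 2),
  ({2, 4, 5, 6, 7}, [({2}, 2), ({4, 5}, 4), ({4, 6}, 6), ({2, 7}, 2), ({2, 6}, 2)], 2),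
  ({3, 4, 5, 6, 7}, [({3}, 3), ({4, 5}, 4), ({4, 7}, 7), ({3, 7}, 3), ({3, 6}, 3)], 2),
  ({2, 3, 4, 5, 6, 7}, [({2}, 2), ({2, 7}, 2), ({2, 6}, 2), ({2, 5}, 2), ({2, 4}, 2), ({2, 3}, 2), ({4, 6, 7}, 4), ({3, 5, 7}, 3), ({3, 4, 6}, 3), ({3, 4, 5}, 4), ({2, 5, 6}, 2), ({2, 4, 7}, 2), ({2, 4, 5}, 2), ({2, 3, 7}, 2), ({2, 3, 6}, 2)], 2)]

def cert (W : Finset (Fin 8)) : List (Finset (Fin 8) × Fin 8) × ℕ :=
  match table.find? (fun t => decide (t.1 = W)) with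
  | some t => t.2
  | none => ([], 0)

def Chk (W : Finset (Fin 8)) (L : List (Finset (Fin 8) × Fin 8)) (i₀ : ℕ) : Prop :=
  (∀ p ∈ L, (p.1 ⊆ W ∧ ∃ g ∈ G1, g ⊆ W \ p.1) ∧ p.2 ∈ p.1) ∧
  L.Pairwise (fun p q => p.1.card = q.1.card → ¬ p.1.erase p.2 ⊆ q.1) ∧
  (∀ i, i < 7 → i ≠ i₀ → ((W.powersetCard i).filter fun T => ∃ g ∈ G1, g ⊆ W \ T).card ≤
    (L.filter fun p => p.1.card = i).length + (L.filter fun p => p.1.card = i + 1).length)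

instance (W : Finset (Fin 8)) (L : List (Finset (Fin 8) × Fin 8)) (i₀ : ℕ) : Decidable (Chk W L i₀) := by
  unfold Chk; infer_instance

theorem all : ∀ W ∈ X6.powerset, Chk W (cert W).1 (cert W).2 := by decide +kernel

theorem mem_Hf (W T : Finset (Fin 8)) : T ∈ Hf W ↔ T ⊆ W ∧ ∃ g ∈ G1, g ⊆ W \ T := by
  simp [Hf]

theorem down_Hf (W : Finset (Fin 8)) : Down (Hf W) := by
  intro T j h
  rw [mem_Hf] at h ⊢
  obtain ⟨h1, g, hg, h2⟩ := h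
  exact ⟨(subset_insert j T).trans h1, g, hg, h2.trans (sdiff_subset_sdiff subset_rfl (subset_insert j T))⟩

theorem cnt_Hf (W : Finset (Fin 8)) (i : ℕ) :
    cnt (Hf W) i = ((W.powersetCard i).filter fun T => ∃ g ∈ G1, g ⊆ W \ T).card := by
  unfold cnt
  congr 1
  ext T
  rw [mem_filter, mem_Hf, mem_filter, mem_powersetCard]
  tauto

theorem main : TaskMob := by
  intro hC W hW
  obtain ⟨h1, h2, h3⟩ := all W (mem_powerset.2 hW)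
  refine hC 8 (Hf W) (cert W).1 (down_Hf W) (fun p hp => ?_) h2 ⟨(cert W).2, fun i hi => ?_⟩
  · exact ⟨(mem_Hf _ _).2 (h1 p hp).1, (h1 p hp).2⟩
  · rcases lt_or_ge i 7 with h7 | h7
    · rw [cnt_Hf]
      exact h3 i h7 hi
    · have hW6 : W.card ≤ 6 := (card_le_card hW).trans (by decide)
      have h0 : cnt (Hf W) i = 0 := by
        rw [cnt_Hf, powersetCard_eq_empty.2 (by omega)]
        rfl
      omega

end Pool.Agent.Q123.FDP.TMob
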