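import Pool.Agent.Q123.FDP.Stmts

set_option autoImplicit false

/-! `PP` is monotone (helper57). -/

namespace Pool.Agent.Q123.FDP.TMono

open Pool.Agent.Q123.FDP

theorem main : TaskMono := by
  rintro h ℓ u w huw ⟨e, h1, h2, k, j, h3, h4, h5, h6⟩
  refine ⟨e, h1.trans (huw 0), h2.trans (Nat.add_le_add_right (huw 1) e), k, j, h3, h4, h5, ?_⟩
  rcases h6 with ⟨h6, h7⟩ | ⟨g, hg, h7⟩
  · exact Or.inl ⟨h6, fun v hv => (h7 v hv).trans (huw v)⟩
  · exact Or.inr ⟨g, hg, fun v => (h7 v).trans (huw v)⟩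

end Pool.Agent.Q123.FDP.TMono
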