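import Pool.Agent.Q123.FDP.Stmts

set_option autoImplicit false

namespace Pool.Agent.Q123.FDP.TNeg

open Finset Pool.Agent.Q123.KB Pool.Agent.H677R3.EdgeReg Pool.Agent.Q123.FDP

theorem comb_empty (K : Type) [Field K] (n i : ℕ) :
    combBetti K (∅ : Finset (Finset (Fin n))) i = 0 := by
  have hD : Down (∅ : Finset (Finset (Fin n))) := by
    intro T j hT
    exact absurd hT (Finset.notMem_empty _)
  have h := comb_add (K := K) hD i
  have hc : cnt (∅ : Finset (Finset (Fin n))) i = 0 := by simp [cnt]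
  omega

theorem main : TaskNeg := by
  intro h ℓ b hb
  have he : fam (PP h ℓ) b = ∅ := by
    rw [Finset.eq_empty_iff_forall_notMem]
    intro T hT
    rw [mem_fam] at hT
    obtain ⟨-, e, he0, he1, -⟩ := hT
    have h0 : (b - ind T) 0 ≤ b 0 := by rw [Finsupp.tsub_apply]; exact Nat.sub_le _ _
    have h1 : (b - ind T) 1 ≤ b 1 := by rw [Finsupp.tsub_apply]; exact Nat.sub_le _ _
    omega
  rw [he]
  intro K K' _ _ i
  rw [comb_empty, comb_empty]

end Pool.Agent.Q123.FDP.TNeg
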