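import Pool.Agent.Q123.FDP.Stmts

set_option autoImplicit false

namespace Pool.Agent.Q123.FDP.TNf

open Finset Pool.Agent.Q123.KB Pool.Agent.H677R3.EdgeReg Pool.Agent.Q123.FDP

theorem g_sub : ∀ g ∈ G1, g ⊆ X6 := by decide +kernel

theorem ind_v {T : Finset (Fin 8)} (v : Fin 8) : (ind T : Fin 8 →₀ ℕ) v = if v ∈ T then 1 else 0 := by
  classical
  simp [ind_apply]

theorem mem_Nf (k : ℕ) (b : Fin 8 →₀ ℕ) (T : Finset (Fin 8)) : T ∈ Nf k b ↔
    T ⊆ X6 ∧ (∀ v ∈ T, 1 ≤ b v) ∧ ∃ g ∈ G1, ∀ v : Fin 8,
      (if v ∈ mm then k else 0) + (if v ∈ g then 1 else 0) ≤ b v - (if v ∈ T then 1 else 0) := by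
  classical
  unfold Nf
  rw [Finset.mem_filter]
  have h1 : (ind T : Fin 8 →₀ ℕ) ≤ b ↔ ∀ v ∈ T, 1 ≤ b v := by
    constructor
    · intro h v hv
      have := h v
      rw [ind_v, if_pos hv] at this
      exact this
    · intro h v
      rw [ind_v]
      split_ifs with hv
      · exact h v hv
      · exact Nat.zero_le _
  have h2 : N k ⇑(b - ind T) ↔ ∃ g ∈ G1, ∀ v : Fin 8,
      (if v ∈ mm then k else 0) + (if v ∈ g then 1 else 0) ≤ b v - (if v ∈ T then 1 else 0) := by
    unfold N
    simp only [Finsupp.tsub_apply, ind_v]
  rw [h1, h2]
  simp

theorem main : Pool.Agent.Q123.FDP.TaskNf := by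
  classical
  intro hCone hW k b
  by_cases hA : ∃ v ∈ mm, b v < k
  · obtain ⟨v, hv, hlt⟩ := hA
    have hempty : Nf k b = ∅ := by
      rw [Finset.eq_empty_iff_forall_notMem]
      intro T hT
      rw [mem_Nf] at hT
      obtain ⟨-, -, g, -, hg⟩ := hT
      have := hg v
      rw [if_pos hv] at this
      omega
    rw [hempty]
    exact hCone 8 ∅ 0 (by simp)
  · push Not at hA
    by_cases hB : ∃ v ∈ X6, (if v ∈ mm then k else 0) + 2 ≤ b v
    · obtain ⟨v, hv, hbv⟩ := hB
      apply hCone 8 (Nf k b) v
      intro T hT
      rw [mem_Nf] at hT ⊢
      obtain ⟨h1, h2, g, hg1, hg⟩ := hT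
      refine ⟨Finset.insert_subset hv h1, ?_, g, hg1, ?_⟩
      · intro w hw
        rcases Finset.mem_insert.1 hw with rfl | hw
        · omega
        · exact h2 w hw
      · intro w
        have hw := hg w
        by_cases hwv : w = v
        · subst hwv
          have h3 : (if w ∈ g then 1 else 0) ≤ 1 := by split_ifs <;> omega
          rw [if_pos (Finset.mem_insert_self w T)]
          omega
        · have h4 : (w ∈ insert v T) ↔ w ∈ T := by
            rw [Finset.mem_insert]
            constructor
            · rintro (h | h)
              · exact absurd h hwv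
              · exact h
            · exact fun h => Or.inr h
          simp only [h4]
          exact hw
    · push Not at hB
      set W : Finset (Fin 8) := X6.filter fun v => b v = (if v ∈ mm then k else 0) + 1 with hWdef
      have hWm : ∀ v, v ∈ W ↔ v ∈ X6 ∧ b v = (if v ∈ mm then k else 0) + 1 := by
        intro v
        rw [hWdef, Finset.mem_filter]
      have hWX : W ⊆ X6 := fun v hv => ((hWm v).1 hv).1
      have heq : Nf k b = Hf W := by
        ext T
        rw [mem_Nf]
        unfold Hf
        rw [Finset.mem_filter, Finset.mem_powerset]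
        constructor
        · rintro ⟨h1, h2, g, hg1, hg⟩
          refine ⟨?_, g, hg1, ?_⟩
          · intro v hv
            rw [hWm]
            refine ⟨h1 hv, ?_⟩
            have h3 := hg v
            rw [if_pos hv] at h3
            have h4 := h2 v hv
            have h5 := hB v (h1 hv)
            omega
          · intro v hv
            have hvX : v ∈ X6 := g_sub g hg1 hv
            have h3 := hg v
            rw [if_pos hv] at h3
            have h5 := hB v hvX
            rw [Finset.mem_sdiff, hWm]
            by_cases hvT : v ∈ T
            · rw [if_pos hvT] at h3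
              omega
            · rw [if_neg hvT] at h3
              exact ⟨⟨hvX, by omega⟩, hvT⟩
        · rintro ⟨h1, g, hg1, hg⟩
          refine ⟨h1.trans hWX, ?_, g, hg1, ?_⟩
          · intro v hv
            have := ((hWm v).1 (h1 hv)).2
            omega
          · intro v
            by_cases hvg : v ∈ g
            · have h3 := hg hvg
              rw [Finset.mem_sdiff, hWm] at h3
              rw [if_pos hvg, if_neg h3.2]
              have := h3.1.2
              omega
            · rw [if_neg hvg]
              by_cases hvT : v ∈ T
              · rw [if_pos hvT]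
                have := ((hWm v).1 (h1 hvT)).2
                omega
              · rw [if_neg hvT]
                by_cases hvm : v ∈ mm
                · rw [if_pos hvm]
                  have := hA v hvm
                  omega
                · rw [if_neg hvm]
                  omega
      rw [heq]
      exact hW W hWX

end Pool.Agent.Q123.FDP.TNf
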