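import Pool.Agent.Q123.FDP.Stmts

/-! Blueprint of helper123: exponents of the monomials of the powers, first direction. -/

set_option autoImplicit false

namespace Pool.Agent.Q123.FDP.TPowA

open Finset Pool.Agent.Q123.KB Pool.Agent.H677R3.EdgeReg Pool.Agent.Q123.FDP

theorem M_mono {k : ℕ} {u w : Fin 8 → ℕ} (h : ∀ v, u v ≤ w v) (hu : M k u) : M k w :=
  fun v hv => (hu v hv).trans (h v)

theorem N_mono {k : ℕ} {u w : Fin 8 → ℕ} (h : ∀ v, u v ≤ w v) (hu : N k u) : N k w := by
  obtain ⟨g, hg, hgu⟩ := hu
  exact ⟨g, hg, fun v => (hgu v).trans (h v)⟩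

set_option maxRecDepth 4000 in
theorem G1_01 : ∀ g ∈ G1, (0 : Fin 8) ∉ g ∧ (1 : Fin 8) ∉ g := by
  intro g hg
  unfold G1 at hg
  simp only [List.mem_cons, List.not_mem_nil, or_false] at hg
  rcases hg with rfl | rfl | rfl | rfl | rfl | rfl | rfl | rfl | rfl <;> decide

theorem main : Pool.Agent.Q123.FDP.TaskPowA := by
  intro h ℓ hh
  induction ℓ with
  | zero =>
    intro u _
    exact ⟨0, Nat.zero_le _, by simp, 0, 0, le_refl _, Nat.zero_le _, by simp,
      Or.inl ⟨rfl, fun v _ => Nat.zero_le _⟩⟩
  | succ ℓ ih =>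
    rintro u ⟨s', hs', hu⟩
    obtain ⟨s, hs, a, ha, rfl⟩ := Set.mem_add.1 hs'
    have hle : ∀ v, s v + a v ≤ u v := fun v => by
      have := hu v
      rwa [Finsupp.add_apply] at this
    obtain ⟨e, he0, he1, k, j, hk, hj, hek, hMN⟩ : PP h ℓ (fun v => u v - a v) :=
      ih _ ⟨s, hs, fun v => by
        have := hle v
        change s v ≤ u v - a v
        omega⟩
    have hle' : ∀ v, a v ≤ u v := fun v => by
      have := hle v
      omega
    have hmono : ∀ v, (fun v => u v - a v) v ≤ u v := fun v => Nat.sub_le _ _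
    have hs2 : (ℓ + 1) * (2 * h - 1) = ℓ * (2 * h - 1) + (2 * h - 1) := by ring
    have hk2 : (k + 1) * (2 * h - 1) = k * (2 * h - 1) + (2 * h - 1) := by ring
    have ha' : a ∈ gens h := by exact_mod_cast ha
    unfold gens at ha'
    rw [mem_union, mem_insert, mem_insert, mem_singleton, mem_image] at ha'
    rcases ha' with (rfl | rfl | rfl) | ⟨g, hg, rfl⟩
    · -- `t ^ s`
      have a0 : (Finsupp.single (1 : Fin 8) (2 * h - 1) : Fin 8 →₀ ℕ) 0 = 0 := by
        rw [Finsupp.single_apply, if_neg (by decide)]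
      have a1 : (Finsupp.single (1 : Fin 8) (2 * h - 1) : Fin 8 →₀ ℕ) 1 = 2 * h - 1 :=
        Finsupp.single_eq_same
      have l1 := hle' 1
      beta_reduce at he0 he1
      rw [a0] at he0
      rw [a1] at he1 l1
      refine ⟨e, by omega, by omega, k, j, by omega, by omega, hek, ?_⟩
      rcases hMN with ⟨h1, h2⟩ | h2
      · exact Or.inl ⟨h1, M_mono hmono h2⟩
      · exact Or.inr (N_mono hmono h2)
    · -- `z ^ 2 t ^ (s - 2)`
      have a0 : (Finsupp.single (0 : Fin 8) 2 + Finsupp.single 1 (2 * h - 3) : Fin 8 →₀ ℕ) 0 = 2 := by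
        rw [Finsupp.add_apply, Finsupp.single_apply, Finsupp.single_apply, if_pos rfl,
          if_neg (by decide), add_zero]
      have a1 : (Finsupp.single (0 : Fin 8) 2 + Finsupp.single 1 (2 * h - 3) : Fin 8 →₀ ℕ) 1
          = 2 * h - 3 := by
        rw [Finsupp.add_apply, Finsupp.single_apply, Finsupp.single_apply, if_neg (by decide),
          if_pos rfl, zero_add]
      have l0 := hle' 0
      have l1 := hle' 1
      beta_reduce at he0 he1
      rw [a0] at he0 l0
      rw [a1] at he1 l1
      refine ⟨e + 2, by omega, by omega, k, j + 2, by omega, by omega, by omega, ?_⟩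
      rcases hMN with ⟨h1, h2⟩ | h2
      · exact Or.inl ⟨by omega, M_mono hmono h2⟩
      · exact Or.inr (N_mono hmono h2)
    · -- `z ^ s m`
      have a0 : (Finsupp.single (0 : Fin 8) (2 * h - 1) + ind mm : Fin 8 →₀ ℕ) 0 = 2 * h - 1 := by
        rw [Finsupp.add_apply, Finsupp.single_apply, if_pos rfl, ind_apply, if_neg (by decide),
          add_zero]
      have a1 : (Finsupp.single (0 : Fin 8) (2 * h - 1) + ind mm : Fin 8 →₀ ℕ) 1 = 0 := by
        rw [Finsupp.add_apply, Finsupp.single_apply, if_neg (by decide), ind_apply,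
          if_neg (by decide)]
      have av : ∀ v, (if v ∈ mm then 1 else 0) ≤
          (Finsupp.single (0 : Fin 8) (2 * h - 1) + ind mm : Fin 8 →₀ ℕ) v := by
        intro v
        rw [Finsupp.add_apply, ind_apply]
        exact Nat.le_add_left _ _
      have l0 := hle' 0
      beta_reduce at he0 he1
      rw [a0] at he0 l0
      rw [a1] at he1
      refine ⟨e + (2 * h - 1), by omega, by omega, k + 1, j, by omega, by omega, by omega, ?_⟩
      rcases hMN with ⟨h1, h2⟩ | ⟨g, hg, h2⟩
      · refine Or.inl ⟨h1, fun v hv => ?_⟩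
        have h3 := h2 v hv
        have h4 := av v
        have h5 := hle' v
        beta_reduce at h3
        rw [if_pos hv] at h4
        omega
      · refine Or.inr ⟨g, hg, fun v => ?_⟩
        have h3 := h2 v
        have h4 := av v
        have h5 := hle' v
        beta_reduce at h3
        split_ifs at h3 h4 ⊢ <;> omega
    · -- `z t ^ (s - 1) g`
      rw [List.mem_toFinset] at hg
      obtain ⟨g0, g1⟩ := G1_01 g hg
      have a0 : (Finsupp.single (0 : Fin 8) 1 + Finsupp.single 1 (2 * h - 2) + ind g : Fin 8 →₀ ℕ) 0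
          = 1 := by
        rw [Finsupp.add_apply, Finsupp.add_apply, Finsupp.single_apply, Finsupp.single_apply,
          if_pos rfl, if_neg (by decide), ind_apply, if_neg g0, add_zero, add_zero]
      have a1 : (Finsupp.single (0 : Fin 8) 1 + Finsupp.single 1 (2 * h - 2) + ind g : Fin 8 →₀ ℕ) 1
          = 2 * h - 2 := by
        rw [Finsupp.add_apply, Finsupp.add_apply, Finsupp.single_apply, Finsupp.single_apply,
          if_neg (by decide), if_pos rfl, ind_apply, if_neg g1, zero_add, add_zero]
      have av : ∀ v, (if v ∈ g then 1 else 0) ≤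
          (Finsupp.single (0 : Fin 8) 1 + Finsupp.single 1 (2 * h - 2) + ind g : Fin 8 →₀ ℕ) v := by
        intro v
        rw [Finsupp.add_apply, ind_apply]
        exact Nat.le_add_left _ _
      have l0 := hle' 0
      have l1 := hle' 1
      beta_reduce at he0 he1
      rw [a0] at he0 l0
      rw [a1] at he1 l1
      refine ⟨e + 1, by omega, by omega, k, j + 1, by omega, by omega, by omega, ?_⟩
      rcases hMN with ⟨h1, h2⟩ | h2
      · refine Or.inr ⟨g, hg, fun v => ?_⟩
        have h4 := av v
        have h5 := hle' v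
        by_cases hv : v ∈ mm
        · have h3 := h2 v hv
          beta_reduce at h3
          rw [if_pos hv]
          omega
        · rw [if_neg hv]
          omega
      · exact Or.inr (N_mono hmono h2)

end Pool.Agent.Q123.FDP.TPowA
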