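import Pool.Agent.Q123.FDP.Stmts

set_option autoImplicit false
set_option linter.all false

namespace Pool.Agent.Q123.FDP.TPowB34

open Finset Pool.Agent.Q123.KB Pool.Agent.Q123.KB.RP Pool.Agent.Q123.FDP Pool.Agent.H677R3.EdgeReg

lemma smul_mem {n : ℕ} {A : Set (Fin n →₀ ℕ)} {g : Fin n →₀ ℕ} (hg : g ∈ A) (m : ℕ) :
    m • g ∈ sums A m := by
  induction m with
  | zero => simp [sums]
  | succ m ih =>
    rw [add_smul, one_smul]
    exact Set.add_mem_add ih hg

lemma add_mem {n : ℕ} {A : Set (Fin n →₀ ℕ)} {x y : Fin n →₀ ℕ} {a : ℕ} (b : ℕ) (hx : x ∈ sums A a)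
    (hy : y ∈ sums A b) : x + y ∈ sums A (a + b) := by
  induction b generalizing y with
  | zero =>
    have : y = 0 := hy
    have h2 : x + y = x := by rw [this, add_zero]
    rw [h2]
    exact hx
  | succ b ih =>
    obtain ⟨y', hy', g, hg, rfl⟩ := Set.mem_add.1 hy
    have h1 : x + (y' + g) = (x + y') + g := by rw [add_assoc]
    rw [h1]
    exact Set.add_mem_add (ih hy') hg

theorem main : TaskPowB := by
  intro h ℓ hh u hP
  obtain ⟨h', rfl⟩ : ∃ h', h = h' + 2 := ⟨h - 2, by omega⟩
  have e1 : 2 * (h' + 2) - 1 = 2 * h' + 3 := by omega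
  have e2 : 2 * (h' + 2) - 3 = 2 * h' + 1 := by omega
  have e3 : 2 * (h' + 2) - 2 = 2 * h' + 2 := by omega
  unfold PP LL at hP
  rw [e1] at hP
  obtain ⟨e, he0, he1, k, j, hk, hj, rfl, hMN⟩ := hP
  have gT : (Finsupp.single (1 : Fin 8) (2 * h' + 3) : Fin 8 →₀ ℕ) ∈
      ((gens (h' + 2) : Finset (Fin 8 →₀ ℕ)) : Set (Fin 8 →₀ ℕ)) := by
    unfold gens; rw [e1]; simp
  have gZ : (Finsupp.single (0 : Fin 8) 2 + Finsupp.single (1 : Fin 8) (2 * h' + 1) : Fin 8 →₀ ℕ) ∈
      ((gens (h' + 2) : Finset (Fin 8 →₀ ℕ)) : Set (Fin 8 →₀ ℕ)) := by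
    unfold gens; rw [e2]; simp
  have gM : (Finsupp.single (0 : Fin 8) (2 * h' + 3) + ind mm : Fin 8 →₀ ℕ) ∈
      ((gens (h' + 2) : Finset (Fin 8 →₀ ℕ)) : Set (Fin 8 →₀ ℕ)) := by
    unfold gens; rw [e1]; simp
  have gG : ∀ g ∈ G1, (Finsupp.single (0 : Fin 8) 1 + Finsupp.single (1 : Fin 8) (2 * h' + 2) + ind g : Fin 8 →₀ ℕ) ∈
      ((gens (h' + 2) : Finset (Fin 8 →₀ ℕ)) : Set (Fin 8 →₀ ℕ)) := by
    intro g hg
    unfold gens
    rw [e3]
    rw [Finset.mem_coe, Finset.mem_union]
    right
    exact Finset.mem_image_of_mem _ (List.mem_toFinset.2 hg)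
  have caseM : ∀ i, j = 2 * i → M k u → Above (sums ((gens (h' + 2) : Finset (Fin 8 →₀ ℕ)) : Set (Fin 8 →₀ ℕ)) ℓ) u := by
    intro i hi hM
    obtain ⟨r, rfl⟩ : ∃ r, ℓ = k + i + r := ⟨ℓ - k - i, by omega⟩
    refine ⟨_, add_mem r (add_mem i (smul_mem gM k) (smul_mem gZ i)) (smul_mem gT r), ?_⟩
    intro v
    by_cases h0 : v = 0
    · subst h0
      have h9 : (ind mm) (0 : Fin 8) = 0 := ind_of_notMem (by decide)
      simp only [Finsupp.add_apply, Finsupp.smul_apply, smul_eq_mul, Finsupp.single_apply, h9]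
      simp
      nlinarith
    · by_cases h1 : v = 1
      · subst h1
        have h9 : (ind mm) (1 : Fin 8) = 0 := ind_of_notMem (by decide)
        simp only [Finsupp.add_apply, Finsupp.smul_apply, smul_eq_mul, Finsupp.single_apply, h9]
        simp
        nlinarith
      · simp only [Finsupp.add_apply, Finsupp.smul_apply, smul_eq_mul, Finsupp.single_apply,
          if_neg (Ne.symm h0), if_neg (Ne.symm h1)]
        by_cases hv : v ∈ mm
        · rw [ind_of_mem hv]
          have := hM v hv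
          omega
        · rw [ind_of_notMem hv]
          omega
  rcases Nat.even_or_odd' j with ⟨i, hi | hi⟩
  · rcases hMN with ⟨_, hM⟩ | hN
    · exact caseM i hi hM
    · obtain ⟨g, hg, hgu⟩ := hN
      refine caseM i hi fun v hv => ?_
      have := hgu v
      rw [if_pos hv] at this
      omega
  · rcases hMN with ⟨hpar, _⟩ | hN
    · omega
    · obtain ⟨g, hg, hgu⟩ := hN
      obtain ⟨r, rfl⟩ : ∃ r, ℓ = k + i + r + 1 := ⟨ℓ - k - i - 1, by omega⟩
      have hg0 : (0 : Fin 8) ∉ g := by
        have : ∀ g ∈ G1, (0 : Fin 8) ∉ g := by decide +kernel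
        exact this g hg
      have hg1 : (1 : Fin 8) ∉ g := by
        have : ∀ g ∈ G1, (1 : Fin 8) ∉ g := by decide +kernel
        exact this g hg
      refine ⟨_, Set.add_mem_add (add_mem r (add_mem i (smul_mem gM k) (smul_mem gZ i)) (smul_mem gT r)) (gG g hg), ?_⟩
      intro v
      by_cases h0 : v = 0
      · subst h0
        have h9 : (ind mm) (0 : Fin 8) = 0 := ind_of_notMem (by decide)
        have h8 : (ind g) (0 : Fin 8) = 0 := ind_of_notMem hg0
        simp only [Finsupp.add_apply, Finsupp.smul_apply, smul_eq_mul, Finsupp.single_apply, h9, h8]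
        simp
        nlinarith
      · by_cases h1 : v = 1
        · subst h1
          have h9 : (ind mm) (1 : Fin 8) = 0 := ind_of_notMem (by decide)
          have h8 : (ind g) (1 : Fin 8) = 0 := ind_of_notMem hg1
          simp only [Finsupp.add_apply, Finsupp.smul_apply, smul_eq_mul, Finsupp.single_apply, h9, h8]
          simp
          nlinarith
        · simp only [Finsupp.add_apply, Finsupp.smul_apply, smul_eq_mul, Finsupp.single_apply,
            if_neg (Ne.symm h0), if_neg (Ne.symm h1)]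
          have := hgu v
          by_cases hv : v ∈ mm
          · rw [ind_of_mem hv]
            rw [if_pos hv] at this
            by_cases hvg : v ∈ g
            · rw [ind_of_mem hvg]; rw [if_pos hvg] at this; omega
            · rw [ind_of_notMem hvg]; rw [if_neg hvg] at this; omega
          · rw [ind_of_notMem hv]
            rw [if_neg hv] at this
            by_cases hvg : v ∈ g
            · rw [ind_of_mem hvg]; rw [if_pos hvg] at this; omega
            · rw [ind_of_notMem hvg]; rw [if_neg hvg] at this; omega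

end Pool.Agent.Q123.FDP.TPowB34
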