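import Pool.Agent.Q123.FDP.Stmts

set_option autoImplicit false

namespace Pool.Agent.Q123.FDP.TR0

open Finset Pool.Agent.Q123.KB Pool.Agent.H677R3.EdgeReg

private theorem sub6 {T : Finset (Fin 8)} (h0 : (0 : Fin 8) ∉ T) (h1 : (1 : Fin 8) ∉ T) :
    T ⊆ X6 := by
  intro v hv
  have hv0 : v ≠ 0 := fun h => h0 (h ▸ hv)
  have hv1 : v ≠ 1 := fun h => h1 (h ▸ hv)
  revert hv0 hv1
  clear hv
  revert v
  decide

private theorem N_to_M {k : ℕ} {u : Fin 8 → ℕ} (h : N k u) : M k u := by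
  obtain ⟨g, -, hg⟩ := h
  intro v hv
  have := hg v
  rw [if_pos hv] at this
  omega

theorem main : Pool.Agent.Q123.FDP.TaskR0 := by
  classical
  intro h ℓ hℓ b hb hM hN
  have hs : 0 < 2 * h - 1 := by omega
  have key : ∀ T : Finset (Fin 8), T ∈ fam (PP h ℓ) b ↔
      (T ⊆ X6 ∧ ind T ≤ b ∧ LL h ℓ (b 0) ⇑(b - ind T)) := by
    intro T
    rw [mem_fam]
    unfold KK
    constructor
    · rintro ⟨hT, e, he0, he1, hL⟩
      rw [Finsupp.tsub_apply] at he0 he1
      have hT0 := hT 0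
      have hT1 := hT 1
      have z0 : ind T 0 = 0 := by omega
      have z1 : ind T 1 = 0 := by omega
      have ee : e = b 0 := by omega
      refine ⟨sub6 ?_ ?_, hT, ee ▸ hL⟩
      · intro hm
        rw [ind_apply, if_pos hm] at z0
        omega
      · intro hm
        rw [ind_apply, if_pos hm] at z1
        omega
    · rintro ⟨hX, hT, hL⟩
      have n0 : (0 : Fin 8) ∉ T := fun hm => absurd (hX hm) (by decide)
      have n1 : (1 : Fin 8) ∉ T := fun hm => absurd (hX hm) (by decide)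
      refine ⟨hT, b 0, ?_, ?_, hL⟩
      · rw [Finsupp.tsub_apply, ind_apply, if_neg n0]; omega
      · rw [Finsupp.tsub_apply, ind_apply, if_neg n1]; omega
  have hLL : ∀ u : Fin 8 → ℕ, LL h ℓ (b 0) u ↔
      (b 0 / (2 * h - 1) ≤ ℓ ∧ b 0 % (2 * h - 1) ≤ 2 * (ℓ - b 0 / (2 * h - 1))) ∧
      (((b 0 % (2 * h - 1)) % 2 = 0 ∧ M (b 0 / (2 * h - 1)) u) ∨ N (b 0 / (2 * h - 1)) u) := by
    intro u
    constructor
    · rintro ⟨k, j, hk, hj, he, hor⟩
      have hjs : j < 2 * h - 1 := by omega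
      have e1 : b 0 / (2 * h - 1) = k := by
        rw [he, mul_comm, Nat.mul_add_div hs, Nat.div_eq_of_lt hjs, add_zero]
      have e2 : b 0 % (2 * h - 1) = j := by
        rw [he, mul_comm, Nat.mul_add_mod, Nat.mod_eq_of_lt hjs]
      rw [e1, e2]
      exact ⟨⟨hk, hj⟩, hor⟩
    · rintro ⟨⟨hk, hj⟩, hor⟩
      refine ⟨_, _, hk, hj, ?_, hor⟩
      rw [mul_comm]
      exact (Nat.div_add_mod _ _).symm
  by_cases hc : b 0 / (2 * h - 1) ≤ ℓ ∧ b 0 % (2 * h - 1) ≤ 2 * (ℓ - b 0 / (2 * h - 1))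
  · by_cases hp : (b 0 % (2 * h - 1)) % 2 = 0
    · have : fam (PP h ℓ) b = Mf (b 0 / (2 * h - 1)) b := by
        ext T
        rw [key, hLL]
        unfold Mf
        rw [Finset.mem_filter]
        constructor
        · rintro ⟨a1, a2, -, a3⟩
          refine ⟨Finset.mem_univ _, a1, a2, ?_⟩
          rcases a3 with a3 | a3
          · exact a3.2
          · exact N_to_M a3
        · rintro ⟨-, a1, a2, a3⟩
          exact ⟨a1, a2, hc, Or.inl ⟨hp, a3⟩⟩
      rw [this]
      exact hM _ _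
    · have : fam (PP h ℓ) b = Nf (b 0 / (2 * h - 1)) b := by
        ext T
        rw [key, hLL]
        unfold Nf
        rw [Finset.mem_filter]
        constructor
        · rintro ⟨a1, a2, -, a3⟩
          refine ⟨Finset.mem_univ _, a1, a2, ?_⟩
          rcases a3 with a3 | a3
          · exact absurd a3.1 hp
          · exact a3
        · rintro ⟨-, a1, a2, a3⟩
          exact ⟨a1, a2, hc, Or.inr a3⟩
      rw [this]
      exact hN _ _
  · have : fam (PP h ℓ) b = Mf (b 2 + 1) b := by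
      ext T
      rw [key, hLL]
      unfold Mf
      rw [Finset.mem_filter]
      constructor
      · rintro ⟨-, -, a3, -⟩
        exact absurd a3 hc
      · rintro ⟨-, -, -, a3⟩
        have := a3 2 (by decide)
        rw [Finsupp.tsub_apply] at this
        omega
    rw [this]
    exact hM _ _

end Pool.Agent.Q123.FDP.TR0
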