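import Pool.Agent.Q123.FDP.Stmts

set_option autoImplicit false
set_option linter.all false

namespace Pool.Agent.Q123.FDP.TRP2

open Finset Pool.Agent.Q123.KB Pool.Agent.Q123.FDP Pool.Agent.H677R3.EdgeReg

/-- the ten triangles -/
def TR : List (Finset (Fin 8)) :=
  [{5, 6, 7}, {4, 6, 7}, {3, 5, 7}, {3, 4, 6}, {3, 4, 5}, {2, 5, 6}, {2, 4, 7}, {2, 4, 5}, {2, 3, 7}, {2, 3, 6}]

/-- the cycle over the field with two elements -/
def aa (T : Finset (Fin 8)) : ZMod 2 := if T ∈ TR then 1 else 0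

theorem sg_two (j : Fin 8) (T : Finset (Fin 8)) : sg (ZMod 2) j T = 1 := by
  unfold sg
  rw [show (-1 : ZMod 2) = 1 from by decide, one_pow]

theorem even_count : ∀ T : Finset (Fin 8),
    ((Tᶜ).filter fun j => insert j T ∈ TR).card % 2 = 0 := by
  decide +kernel

theorem cd_aa (T : Finset (Fin 8)) : cd aa T = 0 := by
  unfold cd
  have h1 : ∀ j ∈ Tᶜ, sg (ZMod 2) j T * aa (insert j T) = if insert j T ∈ TR then 1 else 0 :=
    fun j _ => by rw [sg_two, one_mul]; rfl
  rw [Finset.sum_congr rfl h1, Finset.sum_boole, ZMod.natCast_eq_zero_iff]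
  exact Nat.dvd_of_mod_eq_zero (even_count T)

theorem TR_card : ∀ T ∈ TR, T.card = 3 := by decide +kernel

theorem TR_mem : ∀ T ∈ TR, T ⊆ X6 ∧ ∃ g ∈ (mm :: G1), Disjoint g T := by decide +kernel

theorem no_four : ∀ T : Finset (Fin 8), T ⊆ X6 → (∃ g ∈ (mm :: G1), Disjoint g T) → T.card ≠ 4 := by
  decide +kernel

theorem mem_RPf (T : Finset (Fin 8)) : T ∈ RPf ↔ T ⊆ X6 ∧ ∃ g ∈ (mm :: G1), Disjoint g T := by
  unfold RPf
  rw [Finset.mem_filter, Finset.mem_powerset]

theorem main : TaskRP2 := by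
  have hne : ∀ T, aa T ≠ 0 → T ∈ TR := by
    intro T hT
    by_contra h1
    exact hT (if_neg h1)
  refine one_le_combBetti (a := aa) ⟨fun T hT => ?_, ?_⟩ ?_
  · exact ⟨(mem_RPf T).2 (TR_mem T (hne T hT)), TR_card T (hne T hT)⟩
  · change cd aa = 0
    funext T
    exact cd_aa T
  · rintro ⟨g, hg, hga⟩
    have h1 := congrFun hga {5, 6, 7}
    change cd g {5, 6, 7} = aa {5, 6, 7} at h1
    have h2 : aa {5, 6, 7} = 1 := if_pos (by decide +kernel)
    rw [h2] at h1
    have h3 : cd g {5, 6, 7} = 0 := by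
      unfold cd
      refine Finset.sum_eq_zero fun j hj => ?_
      have h4 : g (insert j {5, 6, 7}) = 0 := by
        by_contra hne'
        obtain ⟨h5, h6⟩ := hg _ hne'
        obtain ⟨h7, h8⟩ := (mem_RPf _).1 h5
        exact no_four _ h7 h8 h6
      rw [h4, mul_zero]
    rw [h3] at h1
    exact absurd h1 (by decide)

end Pool.Agent.Q123.FDP.TRP2
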