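import Pool.Agent.Q123.FDP.Stmts

set_option autoImplicit false

namespace Pool.Agent.Q123.FDP.TSumsFin

open Finset Pool.Agent.Q123.KB Pool.Agent.H677R3.EdgeReg Pointwise

theorem main : TaskSumsFin := by
  intro n A hA ℓ
  induction ℓ with
  | zero => exact Set.finite_singleton 0
  | succ h ih => exact Set.Finite.add ih hA

end Pool.Agent.Q123.FDP.TSumsFin
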