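import Pool.Agent.Q123.FDP.Stmts

set_option autoImplicit false

/-! Crowd lemma (helper234) for helper123's blueprint FDP. -/

namespace Pool.Agent.Q123.FDP.TTot

open Finset Pool.Agent.Q123.KB Pool.Agent.H677R3.EdgeReg Pool.Agent.Q123.FDP

theorem main : TaskTot := by
  classical
  intro n K _ J i s hs
  unfold betti
  apply le_antisymm
  · apply iSup_le
    intro t
    push_cast
    calc ∑ b ∈ t, (gradedBetti J i b : ℕ∞) ≤ ∑ b ∈ t ∪ s, (gradedBetti J i b : ℕ∞) :=
          Finset.sum_le_sum_of_subset Finset.subset_union_left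
      _ = ∑ b ∈ s, (gradedBetti J i b : ℕ∞) := by
          symm
          apply Finset.sum_subset Finset.subset_union_right
          intro b _ hb
          rw [hs b hb]
          rfl
  · push_cast
    exact le_iSup (fun t : Finset (Fin n →₀ ℕ) => ∑ b ∈ t, (gradedBetti J i b : ℕ∞)) s

end Pool.Agent.Q123.FDP.TTot
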