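import Pool.Agent.Q123.FDP.Stmts

set_option autoImplicit false

/-! The matching certificate. -/

namespace Pool.Agent.Q123.FDP.TCert

open Finset Pool.Agent.Q123.KB Pool.Agent.H677R3.EdgeReg Pool.Agent.Q123.FDP

variable {n : ℕ}

/-- the vectors of a list -/
def W (K : Type) [Field K] (L : List (Finset (Fin n) × Fin n)) : Submodule K (Finset (Fin n) → K) :=
  Submodule.span K {v | ∃ p ∈ L, v = cd (Pi.single p.1 (1 : K))}

theorem cd_single_zero (K : Type) [Field K] (σ T : Finset (Fin n)) (h : ¬ T ⊆ σ) :
    cd (Pi.single σ (1 : K)) T = 0 := by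
  unfold cd
  refine Finset.sum_eq_zero fun j _ => ?_
  have h1 : insert j T ≠ σ := by
    rintro rfl
    exact h (Finset.subset_insert _ _)
  rw [Pi.single_eq_of_ne h1, mul_zero]

theorem cd_single_ne (K : Type) [Field K] (σ : Finset (Fin n)) (x : Fin n) (hx : x ∈ σ) :
    cd (Pi.single σ (1 : K)) (σ.erase x) ≠ 0 := by
  unfold cd
  rw [Finset.sum_eq_single x]
  · rw [Finset.insert_erase hx, Pi.single_eq_same, mul_one]
    intro h
    have h2 := sg_mul_self (k := K) x (σ.erase x)
    rw [h, mul_zero] at h2
    exact zero_ne_one h2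
  · intro j hj hjx
    have h1 : insert j (σ.erase x) ≠ σ := by
      intro h
      have h2 : x ∈ insert j (σ.erase x) := by rw [h]; exact hx
      rw [Finset.mem_insert] at h2
      rcases h2 with h2 | h2
      · exact hjx h2.symm
      · exact absurd h2 (Finset.notMem_erase _ _)
    rw [Pi.single_eq_of_ne h1, mul_zero]
  · intro h
    exact absurd (Finset.mem_compl.2 (Finset.notMem_erase _ _)) h

theorem length_le (K : Type) [Field K] : ∀ L : List (Finset (Fin n) × Fin n),
    (∀ p ∈ L, p.2 ∈ p.1) → L.Pairwise (fun p q => ¬ p.1.erase p.2 ⊆ q.1) →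
    L.length ≤ Module.finrank K (W K L)
  | [], _, _ => by simp
  | p :: L, h1, h2 => by
      have ih := length_le K L (fun q hq => h1 q (List.mem_cons_of_mem _ hq)) (List.pairwise_cons.1 h2).2
      have hle : W K L ≤ W K (p :: L) := by
        refine Submodule.span_mono ?_
        rintro v ⟨q, hq, rfl⟩
        exact ⟨q, List.mem_cons_of_mem _ hq, rfl⟩
      have hmem : cd (Pi.single p.1 (1 : K)) ∈ W K (p :: L) :=
        Submodule.subset_span ⟨p, List.mem_cons_self, rfl⟩
      have hz : ∀ v ∈ W K L, v (p.1.erase p.2) = 0 := by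
        intro v hv
        refine Submodule.span_induction (p := fun v _ => v (p.1.erase p.2) = 0) ?_ ?_ ?_ ?_ hv
        · rintro _ ⟨q, hq, rfl⟩
          exact cd_single_zero K q.1 _ ((List.pairwise_cons.1 h2).1 q hq)
        · rfl
        · intro a b _ _ ha hb
          rw [Pi.add_apply, ha, hb, add_zero]
        · intro r a _ ha
          rw [Pi.smul_apply, ha, smul_zero]
      have hnot : cd (Pi.single p.1 (1 : K)) ∉ W K L := fun hv =>
        cd_single_ne K p.1 p.2 (h1 p List.mem_cons_self) (hz _ hv)
      have hlt : W K L < W K (p :: L) := by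
        refine lt_of_le_of_ne hle fun he => hnot ?_
        rw [he]
        exact hmem
      have h3 := Submodule.finrank_lt_finrank_of_lt hlt
      rw [List.length_cons]
      omega

theorem length_le_rk (K : Type) [Field K] (F : Finset (Finset (Fin n)))
    (L : List (Finset (Fin n) × Fin n)) (h1 : ∀ p ∈ L, p.1 ∈ F ∧ p.2 ∈ p.1)
    (h2 : L.Pairwise (fun p q => p.1.card = q.1.card → ¬ p.1.erase p.2 ⊆ q.1)) (i : ℕ) :
    (L.filter fun p => p.1.card = i).length ≤ rk K F i := by
  have h3 := length_le K (L.filter fun p => p.1.card = i)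
    (fun p hp => (h1 p (List.mem_of_mem_filter hp)).2) (by
      have h4 : (L.filter fun p => p.1.card = i).Pairwise
          (fun p q => p.1.card = q.1.card → ¬ p.1.erase p.2 ⊆ q.1) := h2.filter _
      refine List.Pairwise.imp_of_mem ?_ h4
      intro p q hp hq hpq
      have hp' : p.1.card = i := by simpa using (List.mem_filter.1 hp).2
      have hq' : q.1.card = i := by simpa using (List.mem_filter.1 hq).2
      exact hpq (hp'.trans hq'.symm))
  refine h3.trans (Submodule.finrank_mono ?_)
  unfold W
  rw [Submodule.span_le]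
  rintro _ ⟨p, hp, rfl⟩
  refine ⟨Pi.single p.1 1, fun S hS => ?_, rfl⟩
  have hp' : p.1.card = i := by simpa using (List.mem_filter.1 hp).2
  by_cases h : S = p.1
  · rw [h]
    exact ⟨(h1 p (List.mem_of_mem_filter hp)).1, hp'⟩
  · exact absurd (Pi.single_eq_of_ne h _) hS

theorem rk_zero (K : Type) [Field K] (F : Finset (Finset (Fin n))) : rk K F 0 = 0 := by
  unfold rk
  have h : (cchains K F 0).map (cD K n) = ⊥ := by
    rw [eq_bot_iff]
    rintro _ ⟨a, ha, rfl⟩
    rw [Submodule.mem_bot]
    change cd a = 0
    ext1 T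
    unfold cd
    refine Finset.sum_eq_zero fun j _ => ?_
    have h0 : a (insert j T) = 0 := by
      by_contra hne
      have := (ha _ hne).2
      rw [Finset.card_eq_zero] at this
      exact Finset.insert_ne_empty _ _ this
    rw [h0, mul_zero]
  rw [h]
  exact finrank_bot K _

theorem main : Pool.Agent.Q123.FDP.TaskCert := by
  rintro n F L hF h1 h2 ⟨i₀, h3⟩
  have key : ∀ (K : Type) [Field K] (i : ℕ), rk K F i = (L.filter fun p => p.1.card = i).length := by
    intro K _ i
    have hge := length_le_rk K F L h1 h2
    have hne : ∀ j, j ≠ i₀ → rk K F j = (L.filter fun p => p.1.card = j).length ∧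
        rk K F (j + 1) = (L.filter fun p => p.1.card = j + 1).length := by
      intro j hj
      have a1 := comb_add (K := K) hF j
      have a2 := h3 j hj
      have a3 := hge j
      have a4 := hge (j + 1)
      omega
    by_cases hi : i = i₀
    · cases i with
      | zero =>
          have a3 := hge 0
          have a5 := rk_zero K F
          omega
      | succ j => exact (hne j (by omega)).2
    · exact (hne i hi).1
  intro K K' _ _ i
  have a1 := comb_add (K := K) hF i
  have a2 := comb_add (K := K') hF i
  rw [key K i, key K (i + 1)] at a1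
  rw [key K' i, key K' (i + 1)] at a2
  omega

end Pool.Agent.Q123.FDP.TCert
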