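import Pool.Agent.Q123.FDP.Stmts

set_option autoImplicit false

namespace Pool.Agent.Q123.FDP.TaskPowB

open Finset Pool.Agent.Q123.KB Pool.Agent.H677R3.EdgeReg
open scoped Pointwise

theorem sums_add {n : ℕ} (A : Set (Fin n →₀ ℕ)) (a b : ℕ) :
    ∀ p ∈ sums A a, ∀ q ∈ sums A b, p + q ∈ sums A (a + b) := by
  intro p hp
  induction b with
  | zero =>
    intro q hq
    have h0 : q = 0 := hq
    rw [h0]
    show p + 0 ∈ sums A a
    rw [add_zero]
    exact hp
  | succ b ih =>
    intro q hq
    obtain ⟨s, hs, c, hc, rfl⟩ := Set.mem_add.1 hq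
    rw [(add_assoc p s c).symm]
    exact Set.add_mem_add (ih s hs) hc

theorem sums_smul {n : ℕ} (A : Set (Fin n →₀ ℕ)) (a : Fin n →₀ ℕ) (ha : a ∈ A) (k : ℕ) :
    k • a ∈ sums A k := by
  induction k with
  | zero =>
    rw [zero_nsmul]
    exact rfl
  | succ k ih =>
    rw [succ_nsmul]
    exact Set.add_mem_add ih ha

theorem main : Pool.Agent.Q123.FDP.TaskPowB := by
  rintro h ℓ hh u ⟨e, he0, he1, k, j, hk, hj, he, hcase⟩
  obtain ⟨s, hs1, hs2, hs3⟩ : ∃ s, 2 * h - 1 = s + 2 ∧ 2 * h - 3 = s ∧ 2 * h - 2 = s + 1 :=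
    ⟨2 * h - 3, by omega, rfl, by omega⟩
  have gA : (Finsupp.single 1 (s + 2) : Fin 8 →₀ ℕ) ∈
      ((gens h : Finset (Fin 8 →₀ ℕ)) : Set (Fin 8 →₀ ℕ)) := by
    unfold gens
    rw [hs1]
    simp
  have gB : (Finsupp.single 0 2 + Finsupp.single 1 s : Fin 8 →₀ ℕ) ∈
      ((gens h : Finset (Fin 8 →₀ ℕ)) : Set (Fin 8 →₀ ℕ)) := by
    unfold gens
    rw [hs2]
    simp
  have gC : (Finsupp.single 0 (s + 2) + ind mm : Fin 8 →₀ ℕ) ∈
      ((gens h : Finset (Fin 8 →₀ ℕ)) : Set (Fin 8 →₀ ℕ)) := by
    unfold gens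
    rw [hs1]
    simp
  have gD : ∀ g ∈ G1, (Finsupp.single 0 1 + Finsupp.single 1 (s + 1) + ind g : Fin 8 →₀ ℕ) ∈
      ((gens h : Finset (Fin 8 →₀ ℕ)) : Set (Fin 8 →₀ ℕ)) := by
    intro g hg
    unfold gens
    rw [hs3, Finset.coe_union]
    right
    rw [Finset.mem_coe, Finset.mem_image]
    exact ⟨g, List.mem_toFinset.2 hg, rfl⟩
  rw [hs1] at he he1
  generalize ((gens h : Finset (Fin 8 →₀ ℕ)) : Set (Fin 8 →₀ ℕ)) = A at gA gB gC gD ⊢
  have hN : N k u → M k u := by
    rintro ⟨g, -, hg⟩ v hv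
    have := hg v
    rw [if_pos hv] at this
    omega
  have h0m : (0 : Fin 8) ∉ mm := by decide
  have h1m : (1 : Fin 8) ∉ mm := by decide
  rcases Nat.even_or_odd' j with ⟨i, hi | hi⟩
  · have hM : M k u := by
      rcases hcase with h1 | h1
      · exact h1.2
      · exact hN h1
    obtain ⟨r, hr⟩ : ∃ r, ℓ = k + i + r := ⟨ℓ - k - i, by omega⟩
    refine ⟨k • (Finsupp.single 0 (s + 2) + ind mm) + i • (Finsupp.single 0 2 + Finsupp.single 1 s) +
      r • Finsupp.single 1 (s + 2), ?_, ?_⟩
    · rw [hr]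
      exact sums_add A _ _ _ (sums_add A _ _ _ (sums_smul A _ gC k) _ (sums_smul A _ gB i)) _
        (sums_smul A _ gA r)
    · intro v
      simp only [Finsupp.add_apply, Finsupp.smul_apply, Finsupp.single_apply, ind_apply, smul_eq_mul]
      by_cases hv0 : v = 0
      · subst hv0
        rw [if_pos rfl, if_neg h0m, if_pos rfl, if_neg (by decide), if_neg (by decide)]
        rw [he, hi] at he0
        linarith
      · by_cases hv1 : v = 1
        · subst hv1
          rw [if_neg (by decide), if_neg h1m, if_neg (by decide), if_pos rfl, if_pos rfl]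
          rw [he, hi, hr] at he1
          nlinarith
        · rw [if_neg (Ne.symm hv0), if_neg (Ne.symm hv0), if_neg (Ne.symm hv1),
            if_neg (Ne.symm hv1)]
          by_cases hvm : v ∈ mm
          · rw [if_pos hvm]
            have := hM v hvm
            omega
          · rw [if_neg hvm]
            omega
  · have hNk : N k u := by
      rcases hcase with h1 | h1
      · omega
      · exact h1
    obtain ⟨g, hg, hgu⟩ := hNk
    have hg01 : ∀ g ∈ G1, (0 : Fin 8) ∉ g ∧ (1 : Fin 8) ∉ g := by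
      decide +kernel
    obtain ⟨hg0, hg1⟩ := hg01 g hg
    obtain ⟨r, hr⟩ : ∃ r, ℓ = k + 1 + i + r := ⟨ℓ - k - 1 - i, by omega⟩
    refine ⟨k • (Finsupp.single 0 (s + 2) + ind mm) +
      1 • (Finsupp.single 0 1 + Finsupp.single 1 (s + 1) + ind g) +
      i • (Finsupp.single 0 2 + Finsupp.single 1 s) +
      r • Finsupp.single 1 (s + 2), ?_, ?_⟩
    · rw [hr]
      exact sums_add A _ _ _ (sums_add A _ _ _ (sums_add A _ _ _ (sums_smul A _ gC k) _
        (sums_smul A _ (gD g hg) 1)) _ (sums_smul A _ gB i)) _ (sums_smul A _ gA r)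
    · intro v
      simp only [Finsupp.add_apply, Finsupp.smul_apply, Finsupp.single_apply, ind_apply, smul_eq_mul]
      by_cases hv0 : v = 0
      · subst hv0
        simp only [if_true, if_neg h0m, if_neg hg0, if_neg (show ¬ ((1 : Fin 8) = 0) by decide)]
        rw [he, hi] at he0
        linarith
      · by_cases hv1 : v = 1
        · subst hv1
          simp only [if_true, if_neg h1m, if_neg hg1, if_neg (show ¬ ((0 : Fin 8) = 1) by decide)]
          rw [he, hi, hr] at he1
          nlinarith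
        · simp only [if_neg (Ne.symm hv0), if_neg (Ne.symm hv1)]
          have h2 := hgu v
          by_cases hvm : v ∈ mm
          · rw [if_pos hvm] at h2 ⊢
            by_cases hvg : v ∈ g
            · rw [if_pos hvg] at h2 ⊢
              omega
            · rw [if_neg hvg] at h2 ⊢
              omega
          · rw [if_neg hvm] at h2 ⊢
            by_cases hvg : v ∈ g
            · rw [if_pos hvg] at h2 ⊢
              omega
            · rw [if_neg hvg] at h2 ⊢
              omega

end Pool.Agent.Q123.FDP.TaskPowB
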