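import Pool.Agent.Q123.FDP.Stmts

set_option autoImplicit false

/-! Blueprint of helper123 (FDP): TaskRPQ. -/

namespace Pool.Agent.Q123.FDP.TaskRPQ

open Finset Pool.Agent.H677R3.EdgeReg Pool.Agent.Q123.KB Pool.Agent.Q123.FDP

def TT : List (Finset (Fin 8)) :=
  [{5, 6, 7}, {4, 6, 7}, {3, 5, 7}, {3, 4, 6}, {3, 4, 5}, {2, 5, 6}, {2, 4, 7}, {2, 4, 5}, {2, 3, 7}, {2, 3, 6}]

theorem mem_TT : ∀ T : Finset (Fin 8), T ∈ RPf → T.card = 3 → T ∈ TT := by
  decide +kernel

variable {a : Finset (Fin 8) → ℚ}

theorem f0 (hc : ∀ T, cd a T = 0) (hz : ∀ T : Finset (Fin 8), T.card = 3 → T ∉ TT → a T = 0) :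
    (1) * a {2, 3, 6} + (1) * a {2, 3, 7} = 0 := by
  have h := hc {2, 3}
  unfold cd sg at h
  rw [show ({2, 3} : Finset (Fin 8))ᶜ = {0, 1, 4, 5, 6, 7} from by decide, Finset.sum_insert (by decide), Finset.sum_insert (by decide), Finset.sum_insert (by decide), Finset.sum_insert (by decide), Finset.sum_insert (by decide), Finset.sum_singleton,
    show insert (0 : Fin 8) ({2, 3} : Finset (Fin 8)) = {0, 2, 3} from by decide,
    show (({2, 3} : Finset (Fin 8)).filter (· < (0 : Fin 8))).card = 0 from by decide,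
    show insert (1 : Fin 8) ({2, 3} : Finset (Fin 8)) = {1, 2, 3} from by decide,
    show (({2, 3} : Finset (Fin 8)).filter (· < (1 : Fin 8))).card = 0 from by decide,
    show insert (4 : Fin 8) ({2, 3} : Finset (Fin 8)) = {2, 3, 4} from by decide,
    show (({2, 3} : Finset (Fin 8)).filter (· < (4 : Fin 8))).card = 2 from by decide,
    show insert (5 : Fin 8) ({2, 3} : Finset (Fin 8)) = {2, 3, 5} from by decide,
    show (({2, 3} : Finset (Fin 8)).filter (· < (5 : Fin 8))).card = 2 from by decide,
    show insert (6 : Fin 8) ({2, 3} : Finset (Fin 8)) = {2, 3, 6} from by decide,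
    show (({2, 3} : Finset (Fin 8)).filter (· < (6 : Fin 8))).card = 2 from by decide,
    show insert (7 : Fin 8) ({2, 3} : Finset (Fin 8)) = {2, 3, 7} from by decide,
    show (({2, 3} : Finset (Fin 8)).filter (· < (7 : Fin 8))).card = 2 from by decide] at h
  rw [hz {0, 2, 3} (by decide) (by decide)] at h
  rw [hz {1, 2, 3} (by decide) (by decide)] at h
  rw [hz {2, 3, 4} (by decide) (by decide)] at h
  rw [hz {2, 3, 5} (by decide) (by decide)] at h
  rw [← h]
  norm_num

theorem f1 (hc : ∀ T, cd a T = 0) (hz : ∀ T : Finset (Fin 8), T.card = 3 → T ∉ TT → a T = 0) :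
    (1) * a {2, 4, 5} + (1) * a {2, 4, 7} = 0 := by
  have h := hc {2, 4}
  unfold cd sg at h
  rw [show ({2, 4} : Finset (Fin 8))ᶜ = {0, 1, 3, 5, 6, 7} from by decide, Finset.sum_insert (by decide), Finset.sum_insert (by decide), Finset.sum_insert (by decide), Finset.sum_insert (by decide), Finset.sum_insert (by decide), Finset.sum_singleton,
    show insert (0 : Fin 8) ({2, 4} : Finset (Fin 8)) = {0, 2, 4} from by decide,
    show (({2, 4} : Finset (Fin 8)).filter (· < (0 : Fin 8))).card = 0 from by decide,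
    show insert (1 : Fin 8) ({2, 4} : Finset (Fin 8)) = {1, 2, 4} from by decide,
    show (({2, 4} : Finset (Fin 8)).filter (· < (1 : Fin 8))).card = 0 from by decide,
    show insert (3 : Fin 8) ({2, 4} : Finset (Fin 8)) = {2, 3, 4} from by decide,
    show (({2, 4} : Finset (Fin 8)).filter (· < (3 : Fin 8))).card = 1 from by decide,
    show insert (5 : Fin 8) ({2, 4} : Finset (Fin 8)) = {2, 4, 5} from by decide,
    show (({2, 4} : Finset (Fin 8)).filter (· < (5 : Fin 8))).card = 2 from by decide,
    show insert (6 : Fin 8) ({2, 4} : Finset (Fin 8)) = {2, 4, 6} from by decide,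
    show (({2, 4} : Finset (Fin 8)).filter (· < (6 : Fin 8))).card = 2 from by decide,
    show insert (7 : Fin 8) ({2, 4} : Finset (Fin 8)) = {2, 4, 7} from by decide,
    show (({2, 4} : Finset (Fin 8)).filter (· < (7 : Fin 8))).card = 2 from by decide] at h
  rw [hz {0, 2, 4} (by decide) (by decide)] at h
  rw [hz {1, 2, 4} (by decide) (by decide)] at h
  rw [hz {2, 3, 4} (by decide) (by decide)] at h
  rw [hz {2, 4, 6} (by decide) (by decide)] at h
  rw [← h]
  norm_num

theorem f2 (hc : ∀ T, cd a T = 0) (hz : ∀ T : Finset (Fin 8), T.card = 3 → T ∉ TT → a T = 0) :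
    (-1) * a {2, 4, 5} + (1) * a {2, 5, 6} = 0 := by
  have h := hc {2, 5}
  unfold cd sg at h
  rw [show ({2, 5} : Finset (Fin 8))ᶜ = {0, 1, 3, 4, 6, 7} from by decide, Finset.sum_insert (by decide), Finset.sum_insert (by decide), Finset.sum_insert (by decide), Finset.sum_insert (by decide), Finset.sum_insert (by decide), Finset.sum_singleton,
    show insert (0 : Fin 8) ({2, 5} : Finset (Fin 8)) = {0, 2, 5} from by decide,
    show (({2, 5} : Finset (Fin 8)).filter (· < (0 : Fin 8))).card = 0 from by decide,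
    show insert (1 : Fin 8) ({2, 5} : Finset (Fin 8)) = {1, 2, 5} from by decide,
    show (({2, 5} : Finset (Fin 8)).filter (· < (1 : Fin 8))).card = 0 from by decide,
    show insert (3 : Fin 8) ({2, 5} : Finset (Fin 8)) = {2, 3, 5} from by decide,
    show (({2, 5} : Finset (Fin 8)).filter (· < (3 : Fin 8))).card = 1 from by decide,
    show insert (4 : Fin 8) ({2, 5} : Finset (Fin 8)) = {2, 4, 5} from by decide,
    show (({2, 5} : Finset (Fin 8)).filter (· < (4 : Fin 8))).card = 1 from by decide,
    show insert (6 : Fin 8) ({2, 5} : Finset (Fin 8)) = {2, 5, 6} from by decide,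
    show (({2, 5} : Finset (Fin 8)).filter (· < (6 : Fin 8))).card = 2 from by decide,
    show insert (7 : Fin 8) ({2, 5} : Finset (Fin 8)) = {2, 5, 7} from by decide,
    show (({2, 5} : Finset (Fin 8)).filter (· < (7 : Fin 8))).card = 2 from by decide] at h
  rw [hz {0, 2, 5} (by decide) (by decide)] at h
  rw [hz {1, 2, 5} (by decide) (by decide)] at h
  rw [hz {2, 3, 5} (by decide) (by decide)] at h
  rw [hz {2, 5, 7} (by decide) (by decide)] at h
  rw [← h]
  norm_num

theorem f3 (hc : ∀ T, cd a T = 0) (hz : ∀ T : Finset (Fin 8), T.card = 3 → T ∉ TT → a T = 0) :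
    (-1) * a {2, 3, 6} + (-1) * a {2, 5, 6} = 0 := by
  have h := hc {2, 6}
  unfold cd sg at h
  rw [show ({2, 6} : Finset (Fin 8))ᶜ = {0, 1, 3, 4, 5, 7} from by decide, Finset.sum_insert (by decide), Finset.sum_insert (by decide), Finset.sum_insert (by decide), Finset.sum_insert (by decide), Finset.sum_insert (by decide), Finset.sum_singleton,
    show insert (0 : Fin 8) ({2, 6} : Finset (Fin 8)) = {0, 2, 6} from by decide,
    show (({2, 6} : Finset (Fin 8)).filter (· < (0 : Fin 8))).card = 0 from by decide,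
    show insert (1 : Fin 8) ({2, 6} : Finset (Fin 8)) = {1, 2, 6} from by decide,
    show (({2, 6} : Finset (Fin 8)).filter (· < (1 : Fin 8))).card = 0 from by decide,
    show insert (3 : Fin 8) ({2, 6} : Finset (Fin 8)) = {2, 3, 6} from by decide,
    show (({2, 6} : Finset (Fin 8)).filter (· < (3 : Fin 8))).card = 1 from by decide,
    show insert (4 : Fin 8) ({2, 6} : Finset (Fin 8)) = {2, 4, 6} from by decide,
    show (({2, 6} : Finset (Fin 8)).filter (· < (4 : Fin 8))).card = 1 from by decide,
    show insert (5 : Fin 8) ({2, 6} : Finset (Fin 8)) = {2, 5, 6} from by decide,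
    show (({2, 6} : Finset (Fin 8)).filter (· < (5 : Fin 8))).card = 1 from by decide,
    show insert (7 : Fin 8) ({2, 6} : Finset (Fin 8)) = {2, 6, 7} from by decide,
    show (({2, 6} : Finset (Fin 8)).filter (· < (7 : Fin 8))).card = 2 from by decide] at h
  rw [hz {0, 2, 6} (by decide) (by decide)] at h
  rw [hz {1, 2, 6} (by decide) (by decide)] at h
  rw [hz {2, 4, 6} (by decide) (by decide)] at h
  rw [hz {2, 6, 7} (by decide) (by decide)] at h
  rw [← h]
  norm_num

theorem f4 (hc : ∀ T, cd a T = 0) (hz : ∀ T : Finset (Fin 8), T.card = 3 → T ∉ TT → a T = 0) :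
    (-1) * a {2, 3, 7} + (-1) * a {2, 4, 7} = 0 := by
  have h := hc {2, 7}
  unfold cd sg at h
  rw [show ({2, 7} : Finset (Fin 8))ᶜ = {0, 1, 3, 4, 5, 6} from by decide, Finset.sum_insert (by decide), Finset.sum_insert (by decide), Finset.sum_insert (by decide), Finset.sum_insert (by decide), Finset.sum_insert (by decide), Finset.sum_singleton,
    show insert (0 : Fin 8) ({2, 7} : Finset (Fin 8)) = {0, 2, 7} from by decide,
    show (({2, 7} : Finset (Fin 8)).filter (· < (0 : Fin 8))).card = 0 from by decide,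
    show insert (1 : Fin 8) ({2, 7} : Finset (Fin 8)) = {1, 2, 7} from by decide,
    show (({2, 7} : Finset (Fin 8)).filter (· < (1 : Fin 8))).card = 0 from by decide,
    show insert (3 : Fin 8) ({2, 7} : Finset (Fin 8)) = {2, 3, 7} from by decide,
    show (({2, 7} : Finset (Fin 8)).filter (· < (3 : Fin 8))).card = 1 from by decide,
    show insert (4 : Fin 8) ({2, 7} : Finset (Fin 8)) = {2, 4, 7} from by decide,
    show (({2, 7} : Finset (Fin 8)).filter (· < (4 : Fin 8))).card = 1 from by decide,
    show insert (5 : Fin 8) ({2, 7} : Finset (Fin 8)) = {2, 5, 7} from by decide,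
    show (({2, 7} : Finset (Fin 8)).filter (· < (5 : Fin 8))).card = 1 from by decide,
    show insert (6 : Fin 8) ({2, 7} : Finset (Fin 8)) = {2, 6, 7} from by decide,
    show (({2, 7} : Finset (Fin 8)).filter (· < (6 : Fin 8))).card = 1 from by decide] at h
  rw [hz {0, 2, 7} (by decide) (by decide)] at h
  rw [hz {1, 2, 7} (by decide) (by decide)] at h
  rw [hz {2, 5, 7} (by decide) (by decide)] at h
  rw [hz {2, 6, 7} (by decide) (by decide)] at h
  rw [← h]
  norm_num

theorem f5 (hc : ∀ T, cd a T = 0) (hz : ∀ T : Finset (Fin 8), T.card = 3 → T ∉ TT → a T = 0) :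
    (1) * a {3, 4, 5} + (1) * a {3, 4, 6} = 0 := by
  have h := hc {3, 4}
  unfold cd sg at h
  rw [show ({3, 4} : Finset (Fin 8))ᶜ = {0, 1, 2, 5, 6, 7} from by decide, Finset.sum_insert (by decide), Finset.sum_insert (by decide), Finset.sum_insert (by decide), Finset.sum_insert (by decide), Finset.sum_insert (by decide), Finset.sum_singleton,
    show insert (0 : Fin 8) ({3, 4} : Finset (Fin 8)) = {0, 3, 4} from by decide,
    show (({3, 4} : Finset (Fin 8)).filter (· < (0 : Fin 8))).card = 0 from by decide,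
    show insert (1 : Fin 8) ({3, 4} : Finset (Fin 8)) = {1, 3, 4} from by decide,
    show (({3, 4} : Finset (Fin 8)).filter (· < (1 : Fin 8))).card = 0 from by decide,
    show insert (2 : Fin 8) ({3, 4} : Finset (Fin 8)) = {2, 3, 4} from by decide,
    show (({3, 4} : Finset (Fin 8)).filter (· < (2 : Fin 8))).card = 0 from by decide,
    show insert (5 : Fin 8) ({3, 4} : Finset (Fin 8)) = {3, 4, 5} from by decide,
    show (({3, 4} : Finset (Fin 8)).filter (· < (5 : Fin 8))).card = 2 from by decide,
    show insert (6 : Fin 8) ({3, 4} : Finset (Fin 8)) = {3, 4, 6} from by decide,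
    show (({3, 4} : Finset (Fin 8)).filter (· < (6 : Fin 8))).card = 2 from by decide,
    show insert (7 : Fin 8) ({3, 4} : Finset (Fin 8)) = {3, 4, 7} from by decide,
    show (({3, 4} : Finset (Fin 8)).filter (· < (7 : Fin 8))).card = 2 from by decide] at h
  rw [hz {0, 3, 4} (by decide) (by decide)] at h
  rw [hz {1, 3, 4} (by decide) (by decide)] at h
  rw [hz {2, 3, 4} (by decide) (by decide)] at h
  rw [hz {3, 4, 7} (by decide) (by decide)] at h
  rw [← h]
  norm_num

theorem f6 (hc : ∀ T, cd a T = 0) (hz : ∀ T : Finset (Fin 8), T.card = 3 → T ∉ TT → a T = 0) :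
    (-1) * a {3, 4, 5} + (1) * a {3, 5, 7} = 0 := by
  have h := hc {3, 5}
  unfold cd sg at h
  rw [show ({3, 5} : Finset (Fin 8))ᶜ = {0, 1, 2, 4, 6, 7} from by decide, Finset.sum_insert (by decide), Finset.sum_insert (by decide), Finset.sum_insert (by decide), Finset.sum_insert (by decide), Finset.sum_insert (by decide), Finset.sum_singleton,
    show insert (0 : Fin 8) ({3, 5} : Finset (Fin 8)) = {0, 3, 5} from by decide,
    show (({3, 5} : Finset (Fin 8)).filter (· < (0 : Fin 8))).card = 0 from by decide,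
    show insert (1 : Fin 8) ({3, 5} : Finset (Fin 8)) = {1, 3, 5} from by decide,
    show (({3, 5} : Finset (Fin 8)).filter (· < (1 : Fin 8))).card = 0 from by decide,
    show insert (2 : Fin 8) ({3, 5} : Finset (Fin 8)) = {2, 3, 5} from by decide,
    show (({3, 5} : Finset (Fin 8)).filter (· < (2 : Fin 8))).card = 0 from by decide,
    show insert (4 : Fin 8) ({3, 5} : Finset (Fin 8)) = {3, 4, 5} from by decide,
    show (({3, 5} : Finset (Fin 8)).filter (· < (4 : Fin 8))).card = 1 from by decide,
    show insert (6 : Fin 8) ({3, 5} : Finset (Fin 8)) = {3, 5, 6} from by decide,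
    show (({3, 5} : Finset (Fin 8)).filter (· < (6 : Fin 8))).card = 2 from by decide,
    show insert (7 : Fin 8) ({3, 5} : Finset (Fin 8)) = {3, 5, 7} from by decide,
    show (({3, 5} : Finset (Fin 8)).filter (· < (7 : Fin 8))).card = 2 from by decide] at h
  rw [hz {0, 3, 5} (by decide) (by decide)] at h
  rw [hz {1, 3, 5} (by decide) (by decide)] at h
  rw [hz {2, 3, 5} (by decide) (by decide)] at h
  rw [hz {3, 5, 6} (by decide) (by decide)] at h
  rw [← h]
  norm_num

theorem f7 (hc : ∀ T, cd a T = 0) (hz : ∀ T : Finset (Fin 8), T.card = 3 → T ∉ TT → a T = 0) :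
    (1) * a {2, 3, 6} + (-1) * a {3, 4, 6} = 0 := by
  have h := hc {3, 6}
  unfold cd sg at h
  rw [show ({3, 6} : Finset (Fin 8))ᶜ = {0, 1, 2, 4, 5, 7} from by decide, Finset.sum_insert (by decide), Finset.sum_insert (by decide), Finset.sum_insert (by decide), Finset.sum_insert (by decide), Finset.sum_insert (by decide), Finset.sum_singleton,
    show insert (0 : Fin 8) ({3, 6} : Finset (Fin 8)) = {0, 3, 6} from by decide,
    show (({3, 6} : Finset (Fin 8)).filter (· < (0 : Fin 8))).card = 0 from by decide,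
    show insert (1 : Fin 8) ({3, 6} : Finset (Fin 8)) = {1, 3, 6} from by decide,
    show (({3, 6} : Finset (Fin 8)).filter (· < (1 : Fin 8))).card = 0 from by decide,
    show insert (2 : Fin 8) ({3, 6} : Finset (Fin 8)) = {2, 3, 6} from by decide,
    show (({3, 6} : Finset (Fin 8)).filter (· < (2 : Fin 8))).card = 0 from by decide,
    show insert (4 : Fin 8) ({3, 6} : Finset (Fin 8)) = {3, 4, 6} from by decide,
    show (({3, 6} : Finset (Fin 8)).filter (· < (4 : Fin 8))).card = 1 from by decide,
    show insert (5 : Fin 8) ({3, 6} : Finset (Fin 8)) = {3, 5, 6} from by decide,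
    show (({3, 6} : Finset (Fin 8)).filter (· < (5 : Fin 8))).card = 1 from by decide,
    show insert (7 : Fin 8) ({3, 6} : Finset (Fin 8)) = {3, 6, 7} from by decide,
    show (({3, 6} : Finset (Fin 8)).filter (· < (7 : Fin 8))).card = 2 from by decide] at h
  rw [hz {0, 3, 6} (by decide) (by decide)] at h
  rw [hz {1, 3, 6} (by decide) (by decide)] at h
  rw [hz {3, 5, 6} (by decide) (by decide)] at h
  rw [hz {3, 6, 7} (by decide) (by decide)] at h
  rw [← h]
  norm_num

theorem f8 (hc : ∀ T, cd a T = 0) (hz : ∀ T : Finset (Fin 8), T.card = 3 → T ∉ TT → a T = 0) :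
    (1) * a {2, 3, 7} + (-1) * a {3, 5, 7} = 0 := by
  have h := hc {3, 7}
  unfold cd sg at h
  rw [show ({3, 7} : Finset (Fin 8))ᶜ = {0, 1, 2, 4, 5, 6} from by decide, Finset.sum_insert (by decide), Finset.sum_insert (by decide), Finset.sum_insert (by decide), Finset.sum_insert (by decide), Finset.sum_insert (by decide), Finset.sum_singleton,
    show insert (0 : Fin 8) ({3, 7} : Finset (Fin 8)) = {0, 3, 7} from by decide,
    show (({3, 7} : Finset (Fin 8)).filter (· < (0 : Fin 8))).card = 0 from by decide,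
    show insert (1 : Fin 8) ({3, 7} : Finset (Fin 8)) = {1, 3, 7} from by decide,
    show (({3, 7} : Finset (Fin 8)).filter (· < (1 : Fin 8))).card = 0 from by decide,
    show insert (2 : Fin 8) ({3, 7} : Finset (Fin 8)) = {2, 3, 7} from by decide,
    show (({3, 7} : Finset (Fin 8)).filter (· < (2 : Fin 8))).card = 0 from by decide,
    show insert (4 : Fin 8) ({3, 7} : Finset (Fin 8)) = {3, 4, 7} from by decide,
    show (({3, 7} : Finset (Fin 8)).filter (· < (4 : Fin 8))).card = 1 from by decide,
    show insert (5 : Fin 8) ({3, 7} : Finset (Fin 8)) = {3, 5, 7} from by decide,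
    show (({3, 7} : Finset (Fin 8)).filter (· < (5 : Fin 8))).card = 1 from by decide,
    show insert (6 : Fin 8) ({3, 7} : Finset (Fin 8)) = {3, 6, 7} from by decide,
    show (({3, 7} : Finset (Fin 8)).filter (· < (6 : Fin 8))).card = 1 from by decide] at h
  rw [hz {0, 3, 7} (by decide) (by decide)] at h
  rw [hz {1, 3, 7} (by decide) (by decide)] at h
  rw [hz {3, 4, 7} (by decide) (by decide)] at h
  rw [hz {3, 6, 7} (by decide) (by decide)] at h
  rw [← h]
  norm_num

theorem f9 (hc : ∀ T, cd a T = 0) (hz : ∀ T : Finset (Fin 8), T.card = 3 → T ∉ TT → a T = 0) :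
    (1) * a {2, 4, 5} + (1) * a {3, 4, 5} = 0 := by
  have h := hc {4, 5}
  unfold cd sg at h
  rw [show ({4, 5} : Finset (Fin 8))ᶜ = {0, 1, 2, 3, 6, 7} from by decide, Finset.sum_insert (by decide), Finset.sum_insert (by decide), Finset.sum_insert (by decide), Finset.sum_insert (by decide), Finset.sum_insert (by decide), Finset.sum_singleton,
    show insert (0 : Fin 8) ({4, 5} : Finset (Fin 8)) = {0, 4, 5} from by decide,
    show (({4, 5} : Finset (Fin 8)).filter (· < (0 : Fin 8))).card = 0 from by decide,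
    show insert (1 : Fin 8) ({4, 5} : Finset (Fin 8)) = {1, 4, 5} from by decide,
    show (({4, 5} : Finset (Fin 8)).filter (· < (1 : Fin 8))).card = 0 from by decide,
    show insert (2 : Fin 8) ({4, 5} : Finset (Fin 8)) = {2, 4, 5} from by decide,
    show (({4, 5} : Finset (Fin 8)).filter (· < (2 : Fin 8))).card = 0 from by decide,
    show insert (3 : Fin 8) ({4, 5} : Finset (Fin 8)) = {3, 4, 5} from by decide,
    show (({4, 5} : Finset (Fin 8)).filter (· < (3 : Fin 8))).card = 0 from by decide,
    show insert (6 : Fin 8) ({4, 5} : Finset (Fin 8)) = {4, 5, 6} from by decide,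
    show (({4, 5} : Finset (Fin 8)).filter (· < (6 : Fin 8))).card = 2 from by decide,
    show insert (7 : Fin 8) ({4, 5} : Finset (Fin 8)) = {4, 5, 7} from by decide,
    show (({4, 5} : Finset (Fin 8)).filter (· < (7 : Fin 8))).card = 2 from by decide] at h
  rw [hz {0, 4, 5} (by decide) (by decide)] at h
  rw [hz {1, 4, 5} (by decide) (by decide)] at h
  rw [hz {4, 5, 6} (by decide) (by decide)] at h
  rw [hz {4, 5, 7} (by decide) (by decide)] at h
  rw [← h]
  norm_num

theorem f10 (hc : ∀ T, cd a T = 0) (hz : ∀ T : Finset (Fin 8), T.card = 3 → T ∉ TT → a T = 0) :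
    (1) * a {3, 4, 6} + (1) * a {4, 6, 7} = 0 := by
  have h := hc {4, 6}
  unfold cd sg at h
  rw [show ({4, 6} : Finset (Fin 8))ᶜ = {0, 1, 2, 3, 5, 7} from by decide, Finset.sum_insert (by decide), Finset.sum_insert (by decide), Finset.sum_insert (by decide), Finset.sum_insert (by decide), Finset.sum_insert (by decide), Finset.sum_singleton,
    show insert (0 : Fin 8) ({4, 6} : Finset (Fin 8)) = {0, 4, 6} from by decide,
    show (({4, 6} : Finset (Fin 8)).filter (· < (0 : Fin 8))).card = 0 from by decide,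
    show insert (1 : Fin 8) ({4, 6} : Finset (Fin 8)) = {1, 4, 6} from by decide,
    show (({4, 6} : Finset (Fin 8)).filter (· < (1 : Fin 8))).card = 0 from by decide,
    show insert (2 : Fin 8) ({4, 6} : Finset (Fin 8)) = {2, 4, 6} from by decide,
    show (({4, 6} : Finset (Fin 8)).filter (· < (2 : Fin 8))).card = 0 from by decide,
    show insert (3 : Fin 8) ({4, 6} : Finset (Fin 8)) = {3, 4, 6} from by decide,
    show (({4, 6} : Finset (Fin 8)).filter (· < (3 : Fin 8))).card = 0 from by decide,
    show insert (5 : Fin 8) ({4, 6} : Finset (Fin 8)) = {4, 5, 6} from by decide,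
    show (({4, 6} : Finset (Fin 8)).filter (· < (5 : Fin 8))).card = 1 from by decide,
    show insert (7 : Fin 8) ({4, 6} : Finset (Fin 8)) = {4, 6, 7} from by decide,
    show (({4, 6} : Finset (Fin 8)).filter (· < (7 : Fin 8))).card = 2 from by decide] at h
  rw [hz {0, 4, 6} (by decide) (by decide)] at h
  rw [hz {1, 4, 6} (by decide) (by decide)] at h
  rw [hz {2, 4, 6} (by decide) (by decide)] at h
  rw [hz {4, 5, 6} (by decide) (by decide)] at h
  rw [← h]
  norm_num

theorem f11 (hc : ∀ T, cd a T = 0) (hz : ∀ T : Finset (Fin 8), T.card = 3 → T ∉ TT → a T = 0) :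
    (1) * a {2, 4, 7} + (-1) * a {4, 6, 7} = 0 := by
  have h := hc {4, 7}
  unfold cd sg at h
  rw [show ({4, 7} : Finset (Fin 8))ᶜ = {0, 1, 2, 3, 5, 6} from by decide, Finset.sum_insert (by decide), Finset.sum_insert (by decide), Finset.sum_insert (by decide), Finset.sum_insert (by decide), Finset.sum_insert (by decide), Finset.sum_singleton,
    show insert (0 : Fin 8) ({4, 7} : Finset (Fin 8)) = {0, 4, 7} from by decide,
    show (({4, 7} : Finset (Fin 8)).filter (· < (0 : Fin 8))).card = 0 from by decide,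
    show insert (1 : Fin 8) ({4, 7} : Finset (Fin 8)) = {1, 4, 7} from by decide,
    show (({4, 7} : Finset (Fin 8)).filter (· < (1 : Fin 8))).card = 0 from by decide,
    show insert (2 : Fin 8) ({4, 7} : Finset (Fin 8)) = {2, 4, 7} from by decide,
    show (({4, 7} : Finset (Fin 8)).filter (· < (2 : Fin 8))).card = 0 from by decide,
    show insert (3 : Fin 8) ({4, 7} : Finset (Fin 8)) = {3, 4, 7} from by decide,
    show (({4, 7} : Finset (Fin 8)).filter (· < (3 : Fin 8))).card = 0 from by decide,
    show insert (5 : Fin 8) ({4, 7} : Finset (Fin 8)) = {4, 5, 7} from by decide,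
    show (({4, 7} : Finset (Fin 8)).filter (· < (5 : Fin 8))).card = 1 from by decide,
    show insert (6 : Fin 8) ({4, 7} : Finset (Fin 8)) = {4, 6, 7} from by decide,
    show (({4, 7} : Finset (Fin 8)).filter (· < (6 : Fin 8))).card = 1 from by decide] at h
  rw [hz {0, 4, 7} (by decide) (by decide)] at h
  rw [hz {1, 4, 7} (by decide) (by decide)] at h
  rw [hz {3, 4, 7} (by decide) (by decide)] at h
  rw [hz {4, 5, 7} (by decide) (by decide)] at h
  rw [← h]
  norm_num

theorem f12 (hc : ∀ T, cd a T = 0) (hz : ∀ T : Finset (Fin 8), T.card = 3 → T ∉ TT → a T = 0) :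
    (1) * a {2, 5, 6} + (1) * a {5, 6, 7} = 0 := by
  have h := hc {5, 6}
  unfold cd sg at h
  rw [show ({5, 6} : Finset (Fin 8))ᶜ = {0, 1, 2, 3, 4, 7} from by decide, Finset.sum_insert (by decide), Finset.sum_insert (by decide), Finset.sum_insert (by decide), Finset.sum_insert (by decide), Finset.sum_insert (by decide), Finset.sum_singleton,
    show insert (0 : Fin 8) ({5, 6} : Finset (Fin 8)) = {0, 5, 6} from by decide,
    show (({5, 6} : Finset (Fin 8)).filter (· < (0 : Fin 8))).card = 0 from by decide,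
    show insert (1 : Fin 8) ({5, 6} : Finset (Fin 8)) = {1, 5, 6} from by decide,
    show (({5, 6} : Finset (Fin 8)).filter (· < (1 : Fin 8))).card = 0 from by decide,
    show insert (2 : Fin 8) ({5, 6} : Finset (Fin 8)) = {2, 5, 6} from by decide,
    show (({5, 6} : Finset (Fin 8)).filter (· < (2 : Fin 8))).card = 0 from by decide,
    show insert (3 : Fin 8) ({5, 6} : Finset (Fin 8)) = {3, 5, 6} from by decide,
    show (({5, 6} : Finset (Fin 8)).filter (· < (3 : Fin 8))).card = 0 from by decide,
    show insert (4 : Fin 8) ({5, 6} : Finset (Fin 8)) = {4, 5, 6} from by decide,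
    show (({5, 6} : Finset (Fin 8)).filter (· < (4 : Fin 8))).card = 0 from by decide,
    show insert (7 : Fin 8) ({5, 6} : Finset (Fin 8)) = {5, 6, 7} from by decide,
    show (({5, 6} : Finset (Fin 8)).filter (· < (7 : Fin 8))).card = 2 from by decide] at h
  rw [hz {0, 5, 6} (by decide) (by decide)] at h
  rw [hz {1, 5, 6} (by decide) (by decide)] at h
  rw [hz {3, 5, 6} (by decide) (by decide)] at h
  rw [hz {4, 5, 6} (by decide) (by decide)] at h
  rw [← h]
  norm_num

theorem f13 (hc : ∀ T, cd a T = 0) (hz : ∀ T : Finset (Fin 8), T.card = 3 → T ∉ TT → a T = 0) :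
    (1) * a {3, 5, 7} + (-1) * a {5, 6, 7} = 0 := by
  have h := hc {5, 7}
  unfold cd sg at h
  rw [show ({5, 7} : Finset (Fin 8))ᶜ = {0, 1, 2, 3, 4, 6} from by decide, Finset.sum_insert (by decide), Finset.sum_insert (by decide), Finset.sum_insert (by decide), Finset.sum_insert (by decide), Finset.sum_insert (by decide), Finset.sum_singleton,
    show insert (0 : Fin 8) ({5, 7} : Finset (Fin 8)) = {0, 5, 7} from by decide,
    show (({5, 7} : Finset (Fin 8)).filter (· < (0 : Fin 8))).card = 0 from by decide,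
    show insert (1 : Fin 8) ({5, 7} : Finset (Fin 8)) = {1, 5, 7} from by decide,
    show (({5, 7} : Finset (Fin 8)).filter (· < (1 : Fin 8))).card = 0 from by decide,
    show insert (2 : Fin 8) ({5, 7} : Finset (Fin 8)) = {2, 5, 7} from by decide,
    show (({5, 7} : Finset (Fin 8)).filter (· < (2 : Fin 8))).card = 0 from by decide,
    show insert (3 : Fin 8) ({5, 7} : Finset (Fin 8)) = {3, 5, 7} from by decide,
    show (({5, 7} : Finset (Fin 8)).filter (· < (3 : Fin 8))).card = 0 from by decide,
    show insert (4 : Fin 8) ({5, 7} : Finset (Fin 8)) = {4, 5, 7} from by decide,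
    show (({5, 7} : Finset (Fin 8)).filter (· < (4 : Fin 8))).card = 0 from by decide,
    show insert (6 : Fin 8) ({5, 7} : Finset (Fin 8)) = {5, 6, 7} from by decide,
    show (({5, 7} : Finset (Fin 8)).filter (· < (6 : Fin 8))).card = 1 from by decide] at h
  rw [hz {0, 5, 7} (by decide) (by decide)] at h
  rw [hz {1, 5, 7} (by decide) (by decide)] at h
  rw [hz {2, 5, 7} (by decide) (by decide)] at h
  rw [hz {4, 5, 7} (by decide) (by decide)] at h
  rw [← h]
  norm_num

theorem f14 (hc : ∀ T, cd a T = 0) (hz : ∀ T : Finset (Fin 8), T.card = 3 → T ∉ TT → a T = 0) :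
    (1) * a {4, 6, 7} + (1) * a {5, 6, 7} = 0 := by
  have h := hc {6, 7}
  unfold cd sg at h
  rw [show ({6, 7} : Finset (Fin 8))ᶜ = {0, 1, 2, 3, 4, 5} from by decide, Finset.sum_insert (by decide), Finset.sum_insert (by decide), Finset.sum_insert (by decide), Finset.sum_insert (by decide), Finset.sum_insert (by decide), Finset.sum_singleton,
    show insert (0 : Fin 8) ({6, 7} : Finset (Fin 8)) = {0, 6, 7} from by decide,
    show (({6, 7} : Finset (Fin 8)).filter (· < (0 : Fin 8))).card = 0 from by decide,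
    show insert (1 : Fin 8) ({6, 7} : Finset (Fin 8)) = {1, 6, 7} from by decide,
    show (({6, 7} : Finset (Fin 8)).filter (· < (1 : Fin 8))).card = 0 from by decide,
    show insert (2 : Fin 8) ({6, 7} : Finset (Fin 8)) = {2, 6, 7} from by decide,
    show (({6, 7} : Finset (Fin 8)).filter (· < (2 : Fin 8))).card = 0 from by decide,
    show insert (3 : Fin 8) ({6, 7} : Finset (Fin 8)) = {3, 6, 7} from by decide,
    show (({6, 7} : Finset (Fin 8)).filter (· < (3 : Fin 8))).card = 0 from by decide,
    show insert (4 : Fin 8) ({6, 7} : Finset (Fin 8)) = {4, 6, 7} from by decide,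
    show (({6, 7} : Finset (Fin 8)).filter (· < (4 : Fin 8))).card = 0 from by decide,
    show insert (5 : Fin 8) ({6, 7} : Finset (Fin 8)) = {5, 6, 7} from by decide,
    show (({6, 7} : Finset (Fin 8)).filter (· < (5 : Fin 8))).card = 0 from by decide] at h
  rw [hz {0, 6, 7} (by decide) (by decide)] at h
  rw [hz {1, 6, 7} (by decide) (by decide)] at h
  rw [hz {2, 6, 7} (by decide) (by decide)] at h
  rw [hz {3, 6, 7} (by decide) (by decide)] at h
  rw [← h]
  norm_num

theorem all_zero (hc : ∀ T, cd a T = 0)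
    (hz : ∀ T : Finset (Fin 8), T.card = 3 → T ∉ TT → a T = 0) : ∀ T ∈ TT, a T = 0 := by
  have g0 := f0 hc hz
  have g1 := f1 hc hz
  have g2 := f2 hc hz
  have g3 := f3 hc hz
  have g4 := f4 hc hz
  have g5 := f5 hc hz
  have g6 := f6 hc hz
  have g7 := f7 hc hz
  have g8 := f8 hc hz
  have g9 := f9 hc hz
  have g10 := f10 hc hz
  have g11 := f11 hc hz
  have g12 := f12 hc hz
  have g13 := f13 hc hz
  have g14 := f14 hc hz
  intro T hT
  unfold TT at hT
  simp only [List.mem_cons, List.not_mem_nil, or_false] at hT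
  rcases hT with rfl | rfl | rfl | rfl | rfl | rfl | rfl | rfl | rfl | rfl <;> linarith

theorem main : Pool.Agent.Q123.FDP.TaskRPQ := by
  have hbot : ccycles ℚ RPf 3 = ⊥ := by
    rw [eq_bot_iff]
    rintro a ⟨ha1, ha2⟩
    have hc : ∀ T, cd a T = 0 := fun T => congrFun (LinearMap.mem_ker.mp ha2) T
    have hz : ∀ T : Finset (Fin 8), T.card = 3 → T ∉ TT → a T = 0 := by
      intro T hT hTT
      by_contra h0
      exact hTT (mem_TT T (ha1 T h0).1 hT)
    rw [Submodule.mem_bot]
    funext T
    by_cases hT : T ∈ TT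
    · exact all_zero hc hz T hT
    · by_contra h0
      exact hT (mem_TT T (ha1 T h0).1 (ha1 T h0).2)
  show combBetti ℚ RPf 3 = 0
  unfold combBetti
  have : Subsingleton (ccycles ℚ RPf 3) := by
    rw [hbot]; infer_instance
  have : Subsingleton (↥(ccycles ℚ RPf 3) ⧸
      (cboundaries ℚ RPf 3).submoduleOf (ccycles ℚ RPf 3)) := by
    infer_instance
  exact Module.finrank_zero_of_subsingleton

end Pool.Agent.Q123.FDP.TaskRPQ
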