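import Pool.Agent.Q123.FDP.Stmts

set_option autoImplicit false

namespace Pool.Agent.Q123.FDP.TaskSusp

open Finset Pool.Agent.Q123.KB Pool.Agent.H677R3.EdgeReg

variable {n : ℕ} {K : Type} [Field K]

/-- the restriction of a chain to the link of `v` -/
def r (v : Fin n) (a : Finset (Fin n) → K) (T : Finset (Fin n)) : K :=
  if v ∈ T then 0 else sg K v T * a (insert v T)

theorem cd_zero_of {v : Fin n} {a : Finset (Fin n) → K} (h : ∀ T, v ∈ T → a T = 0)
    {T : Finset (Fin n)} (hT : v ∈ T) : cd a T = 0 := by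
  unfold cd
  refine Finset.sum_eq_zero fun j _ => ?_
  rw [h _ (Finset.mem_insert_of_mem hT), mul_zero]

theorem hv_r {v : Fin n} {a : Finset (Fin n) → K} {T : Finset (Fin n)} (hT : v ∈ T) :
    hv v (r v a) T = a T := by
  unfold hv r
  rw [if_pos hT, if_neg (Finset.notMem_erase v T), ← mul_assoc, sg_mul_self, one_mul,
    Finset.insert_erase hT]

theorem cd_sub' (a b : Finset (Fin n) → K) : cd (a - b) = cd a - cd b := map_sub (cD K n) a b

theorem cd_r (v : Fin n) (a : Finset (Fin n) → K) : cd (r v a) = -(r v (cd a)) := by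
  ext1 T
  rw [Pi.neg_apply]
  by_cases hT : v ∈ T
  · rw [cd_zero_of (v := v) (a := r v a) (fun T h => if_pos h) hT]
    unfold r
    rw [if_pos hT, neg_zero]
  · have h1 := homotopy v (r v a) (insert v T)
    have hb : r v a (insert v T) = 0 := if_pos (Finset.mem_insert_self v T)
    have h2 : hv v (cd (r v a)) (insert v T) = sg K v T * cd (r v a) T := by
      unfold hv
      rw [if_pos (Finset.mem_insert_self v T), Finset.erase_insert hT]
    have h3 : cd (a - hv v (r v a)) (insert v T) = 0 := by
      refine cd_zero_of (v := v) (fun S hS => ?_) (Finset.mem_insert_self v T)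
      rw [Pi.sub_apply, hv_r hS, sub_self]
    rw [cd_sub', Pi.sub_apply] at h3
    have h4 : r v (cd a) T = sg K v T * cd a (insert v T) := if_neg hT
    rw [h4]
    have h5 : cd a (insert v T) = -(sg K v T * cd (r v a) T) := by
      rw [hb, h2] at h1
      linear_combination h3 + h1
    rw [h5]
    have h6 := sg_mul_self (k := K) v T
    linear_combination (-(cd (r v a) T)) * h6

theorem mem_lk {v : Fin n} {F : Finset (Finset (Fin n))} {T : Finset (Fin n)} :
    T ∈ lk v F ↔ v ∉ T ∧ insert v T ∈ F := by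
  unfold lk
  rw [Finset.mem_filter]
  simp

theorem r_chains {v : Fin n} {F : Finset (Finset (Fin n))} {i : ℕ} {a : Finset (Fin n) → K}
    (ha : a ∈ cchains K F (i + 1)) : r v a ∈ cchains K (lk v F) i := by
  intro T hT
  unfold r at hT
  split_ifs at hT with h
  · exact absurd rfl hT
  · have h1 : a (insert v T) ≠ 0 := fun h0 => hT (by rw [h0, mul_zero])
    obtain ⟨h2, h3⟩ := ha _ h1
    refine ⟨mem_lk.2 ⟨h, h2⟩, ?_⟩
    rw [Finset.card_insert_of_notMem h] at h3
    omega

theorem r_cycles {v : Fin n} {F : Finset (Finset (Fin n))} {i : ℕ} {a : Finset (Fin n) → K}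
    (ha : a ∈ ccycles K F (i + 1)) : r v a ∈ ccycles K (lk v F) i := by
  refine ⟨r_chains ha.1, ?_⟩
  change cd (r v a) = 0
  rw [cd_r]
  have h : cd a = 0 := ha.2
  rw [h]
  ext1 T
  unfold r
  simp

theorem hv_chains {v : Fin n} {F : Finset (Finset (Fin n))} {i : ℕ} {b : Finset (Fin n) → K}
    (hb : b ∈ cchains K (lk v F) i) : hv v b ∈ cchains K F (i + 1) := by
  intro T hT
  unfold hv at hT
  split_ifs at hT with h
  · have h1 : b (T.erase v) ≠ 0 := fun h0 => hT (by rw [h0, mul_zero])
    obtain ⟨h2, h3⟩ := hb _ h1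
    have h4 := (mem_lk.1 h2).2
    rw [Finset.insert_erase h] at h4
    refine ⟨h4, ?_⟩
    rw [← h3, Finset.card_erase_of_mem h]
    have : 0 < T.card := Finset.card_pos.2 ⟨v, h⟩
    omega
  · exact absurd rfl hT

theorem lk_chains {v : Fin n} {F : Finset (Finset (Fin n))} (hF : Down F) {i : ℕ}
    {b : Finset (Fin n) → K} (hb : b ∈ cchains K (lk v F) i) : b ∈ cchains K F i := by
  intro T hT
  obtain ⟨h2, h3⟩ := hb _ hT
  exact ⟨hF T v (mem_lk.1 h2).2, h3⟩

theorem lk_zero {v : Fin n} {F : Finset (Finset (Fin n))} {i : ℕ}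
    {b : Finset (Fin n) → K} (hb : b ∈ cchains K (lk v F) i) {T : Finset (Fin n)} (hT : v ∈ T) :
    b T = 0 := by
  by_contra h
  exact (mem_lk.1 (hb T h).1).1 hT

theorem comb_zero {F : Finset (Finset (Fin n))} {v w : Fin n}
    (hc : ∀ T ∈ F, v ∉ T → insert w T ∈ F) : combBetti K F 0 = 0 := by
  refine combBetti_eq_zero fun a ha => cone_bd ha w fun T hT _ => ?_
  obtain ⟨h1, h2⟩ := ha.1 T hT
  refine hc T h1 ?_
  rw [Finset.card_eq_zero.1 h2]
  simp

theorem comb_succ {F : Finset (Finset (Fin n))} {v w : Fin n} (hvw : v ≠ w) (hF : Down F)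
    (hc : ∀ T ∈ F, v ∉ T → insert w T ∈ F) (i : ℕ) :
    combBetti K F (i + 1) = combBetti K (lk v F) i := by
  let φ : ↥(ccycles K F (i + 1)) →ₗ[K]
      (↥(ccycles K (lk v F) i) ⧸ (cboundaries K (lk v F) i).submoduleOf (ccycles K (lk v F) i)) :=
    { toFun := fun f => Submodule.Quotient.mk ⟨r v f.1, r_cycles f.2⟩
      map_add' := by
        intro f g
        rw [← Submodule.Quotient.mk_add]
        congr 1
        apply Subtype.ext
        ext1 T
        change r v (f.1 + g.1) T = r v f.1 T + r v g.1 T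
        unfold r
        split_ifs
        · rw [add_zero]
        · rw [Pi.add_apply]; ring
      map_smul' := by
        intro c f
        rw [RingHom.id_apply, ← Submodule.Quotient.mk_smul]
        congr 1
        apply Subtype.ext
        ext1 T
        change r v (c • f.1) T = c • r v f.1 T
        unfold r
        split_ifs
        · rw [smul_zero]
        · rw [Pi.smul_apply, smul_eq_mul, smul_eq_mul]; ring }
  have hsurj : Function.Surjective φ := by
    intro x
    obtain ⟨⟨b, hb1, hb2⟩, rfl⟩ := Submodule.Quotient.mk_surjective _ x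
    have hb2' : cd b = 0 := hb2
    have hbF := lk_chains hF hb1
    have hw : hv w b ∈ cchains K F (i + 1) := by
      intro T hT
      unfold hv at hT
      split_ifs at hT with h
      · have h1 : b (T.erase w) ≠ 0 := fun h0 => hT (by rw [h0, mul_zero])
        obtain ⟨h2, h3⟩ := hbF _ h1
        have h4 := hc _ h2 (mem_lk.1 (hb1 _ h1).1).1
        rw [Finset.insert_erase h] at h4
        refine ⟨h4, ?_⟩
        rw [← h3, Finset.card_erase_of_mem h]
        have : 0 < T.card := Finset.card_pos.2 ⟨w, h⟩
        omega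
      · exact absurd rfl hT
    have hcd : ∀ u : Fin n, cd (hv u b) = b := by
      intro u
      ext1 T
      have h := homotopy u b T
      rw [hb2'] at h
      have h0 : hv u (0 : Finset (Fin n) → K) T = 0 := by
        unfold hv
        simp
      rw [h0, add_zero] at h
      exact h
    refine ⟨⟨hv v b - hv w b, Submodule.sub_mem _ (hv_chains hb1) hw, ?_⟩, ?_⟩
    · change cd (hv v b - hv w b) = 0
      rw [cd_sub', hcd, hcd, sub_self]
    · change Submodule.Quotient.mk (⟨r v (hv v b - hv w b), _⟩ : ↥(ccycles K (lk v F) i)) = _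
      congr 1
      apply Subtype.ext
      ext1 T
      change r v (hv v b - hv w b) T = b T
      unfold r
      split_ifs with h
      · exact (lk_zero hb1 h).symm
      · have h1 : hv v b (insert v T) = sg K v T * b T := by
          unfold hv
          rw [if_pos (Finset.mem_insert_self v T), Finset.erase_insert h]
        have h2 : hv w b (insert v T) = 0 := by
          unfold hv
          split_ifs with h3
          · rw [lk_zero hb1 (Finset.mem_erase.2 ⟨hvw, Finset.mem_insert_self v T⟩), mul_zero]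
          · rfl
        rw [Pi.sub_apply, h1, h2, sub_zero, ← mul_assoc, sg_mul_self, one_mul]
  have hker : LinearMap.ker φ =
      (cboundaries K F (i + 1)).submoduleOf (ccycles K F (i + 1)) := by
    ext ⟨a, ha1, ha2⟩
    rw [LinearMap.mem_ker]
    change Submodule.Quotient.mk (⟨r v a, _⟩ : ↥(ccycles K (lk v F) i)) = 0 ↔ _
    rw [Submodule.Quotient.mk_eq_zero]
    change (∃ g ∈ cchains K (lk v F) (i + 1), cd g = r v a) ↔
      ∃ g ∈ cchains K F (i + 1 + 1), cd g = a
    have ha2' : cd a = 0 := ha2
    constructor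
    · rintro ⟨c, hcc, hcr⟩
      -- `a + cd (hv v c)` is a cycle without `v`
      have hvc := hv_chains hcc
      have h1 : a + cd (hv v c) ∈ ccycles K F (i + 1) := by
        refine Submodule.add_mem _ ⟨ha1, ha2⟩ (bd_le hF (i + 1) ⟨hv v c, hvc, rfl⟩)
      have h2 : ∀ T, v ∈ T → (a + cd (hv v c)) T = 0 := by
        intro T hT
        have h3 := homotopy v c T
        rw [hcr, hv_r hT, lk_zero hcc hT] at h3
        rw [Pi.add_apply]
        linear_combination h3
      obtain ⟨g, hg1, hg2⟩ := cone_bd h1 w (fun T hT _ => by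
        refine hc T (h1.1 T hT).1 fun hvT => hT (h2 T hvT))
      refine ⟨g - hv v c, Submodule.sub_mem _ hg1 hvc, ?_⟩
      have hg2' : cd g = a + cd (hv v c) := hg2
      rw [cd_sub', hg2']
      abel
    · rintro ⟨g, hg1, hg2⟩
      refine ⟨-(r v g), Submodule.neg_mem _ (r_chains hg1), ?_⟩
      have h : cd (-(r v g)) = -cd (r v g) := map_neg (cD K n) (r v g)
      rw [h, cd_r, neg_neg, hg2]
  unfold combBetti
  rw [← hker]
  exact (φ.quotKerEquivOfSurjective hsurj).finrank_eq

theorem main : Pool.Agent.Q123.FDP.TaskSusp := by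
  intro n F v w hvw hF hc hL K K' _ _ i
  rcases i with _ | i
  · rw [comb_zero (K := K) hc, comb_zero (K := K') hc]
  · rw [comb_succ (K := K) hvw hF hc, comb_succ (K := K') hvw hF hc]
    exact hL K K' i

end Pool.Agent.Q123.FDP.TaskSusp
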